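import Pool.Agent.Helper50.D71.Tac

/-!
# Pairs of charts (generated)
-/

universe u

namespace Helper50.D71

variable (k : Type u) [Field k]

set_option maxHeartbeats 1000000

attribute [local irreducible] s y v fb F z1 z0 P0 dd

theorem good_Pa_B : Good (chart k .Pa) (chart k .B) := by
  have hs := s_ne k; have hy := y_ne k; have hv := v_ne k; have hfb := fb_ne k
  have hF := F_ne k; have hz1 := z1_ne k; have hz0 := z0_ne k; have hP0 := P0_ne k
  have hdd := dd_ne k
  have i_X1 : 1 / s k ∈ chart k .Pa := Algebra.subset_adjoin (by simp [gens])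
  have i_Z : y k / s k ∈ chart k .Pa := Algebra.subset_adjoin (by simp [gens])
  have i_v3 : z0 k / s k ∈ chart k .Pa := Algebra.subset_adjoin (by simp [gens])
  have i_ui : (s k ^ 3) / dd k ∈ chart k .Pa := Algebra.subset_adjoin (by simp [gens])
  have i_De : fb k / (s k ^ 3) ∈ chart k .Pa :=
    mem_of_eq (e := ((y k / s k) ^ 3) - ((1 / s k) ^ 3))
      (by field_simp; (try simp only [fb_eq]); (try ring)) (by repeat' (first | (with_reducible assumption) | (with_reducible apply sub_mem) | (with_reducible apply add_mem) | (with_reducible apply mul_mem) | (with_reducible apply pow_mem) | (with_reducible apply neg_mem) | exact one_mem _ | exact zero_mem _ | exact ofNat_mem _ _))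
  have i_F1 : F k / (s k ^ 3) ∈ chart k .Pa :=
    mem_of_eq (e := (((y k / s k) ^ 3) - (1 / s k)) - ((1 / s k) ^ 3))
      (by field_simp; (try simp only [F_eq, fb_eq]); (try ring)) (by repeat' (first | (with_reducible assumption) | (with_reducible apply sub_mem) | (with_reducible apply add_mem) | (with_reducible apply mul_mem) | (with_reducible apply pow_mem) | (with_reducible apply neg_mem) | exact one_mem _ | exact zero_mem _ | exact ofNat_mem _ _))
  have i_vtP : v k / s k ∈ chart k .Pa :=
    mem_of_eq (e := ((((1 / s k) ^ 3) * (z0 k / s k)) - (F k / (s k ^ 3))) * ((s k ^ 3) / dd k))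
      (by field_simp; (try simp only [z0_eq, z1_eq, dd_eq]); (try ring)) (by repeat' (first | (with_reducible assumption) | (with_reducible apply sub_mem) | (with_reducible apply add_mem) | (with_reducible apply mul_mem) | (with_reducible apply pow_mem) | (with_reducible apply neg_mem) | exact one_mem _ | exact zero_mem _ | exact ofNat_mem _ _))
  have i_z1P : z1 k / s k ∈ chart k .Pa :=
    mem_of_eq (e := (-((1 / s k) * (z0 k / s k))) - ((y k / s k) * (v k / s k)))
      (by field_simp; (try simp only [z0_eq]); (try ring)) (by repeat' (first | (with_reducible assumption) | (with_reducible apply sub_mem) | (with_reducible apply add_mem) | (with_reducible apply mul_mem) | (with_reducible apply pow_mem) | (with_reducible apply neg_mem) | exact one_mem _ | exact zero_mem _ | exact ofNat_mem _ _))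
  have i_PP : P0 k / (s k ^ 3) ∈ chart k .Pa :=
    mem_of_eq (e := (((1 / s k) ^ 2) * (v k / s k)) + (((y k / s k) ^ 2) * (z0 k / s k)))
      (by field_simp; (try simp only [P0_eq]); (try ring)) (by repeat' (first | (with_reducible assumption) | (with_reducible apply sub_mem) | (with_reducible apply add_mem) | (with_reducible apply mul_mem) | (with_reducible apply pow_mem) | (with_reducible apply neg_mem) | exact one_mem _ | exact zero_mem _ | exact ofNat_mem _ _))
  have j_B1 : ((y k * s k) * z1 k) / P0 k ∈ chart k .B := Algebra.subset_adjoin (by simp [gens])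
  have j_B2 : (s k * z1 k) / P0 k ∈ chart k .B := Algebra.subset_adjoin (by simp [gens])
  have j_B3 : (P0 k ^ 2) / ((s k * fb k) * (z1 k ^ 2)) ∈ chart k .B := Algebra.subset_adjoin (by simp [gens])
  have j_Hi : fb k / F k ∈ chart k .B := Algebra.subset_adjoin (by simp [gens])
  have j_be : ((fb k * (s k ^ 3)) * (z1 k ^ 3)) / (P0 k ^ 3) ∈ chart k .B :=
    mem_of_eq (e := ((((y k * s k) * z1 k) / P0 k) ^ 3) - (((s k * z1 k) / P0 k) ^ 3))
      (by field_simp; (try simp only [fb_eq]); (try ring)) (by repeat' (first | (with_reducible assumption) | (with_reducible apply sub_mem) | (with_reducible apply add_mem) | (with_reducible apply mul_mem) | (with_reducible apply pow_mem) | (with_reducible apply neg_mem) | exact one_mem _ | exact zero_mem _ | exact ofNat_mem _ _))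
  have j_UB : (((s k ^ 3) * (z1 k ^ 3)) * dd k) / (P0 k ^ 3) ∈ chart k .B :=
    mem_of_eq (e := (((((fb k * (s k ^ 3)) * (z1 k ^ 3)) / (P0 k ^ 3)) ^ 3) * (((P0 k ^ 2) / ((s k * fb k) * (z1 k ^ 2))) ^ 3)) - ((((y k * s k) * z1 k) / P0 k) * (((s k * z1 k) / P0 k) ^ 2)))
      (by field_simp; (try simp only [dd_eq]); (try ring)) (by repeat' (first | (with_reducible assumption) | (with_reducible apply sub_mem) | (with_reducible apply add_mem) | (with_reducible apply mul_mem) | (with_reducible apply pow_mem) | (with_reducible apply neg_mem) | exact one_mem _ | exact zero_mem _ | exact ofNat_mem _ _))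
  have j_b3 : (((v k * s k) * fb k) * z1 k) / (P0 k ^ 2) ∈ chart k .B :=
    mem_of_eq (e := -(((s k * z1 k) / P0 k) + ((((y k * s k) * z1 k) / P0 k) ^ 2)))
      (by field_simp; (try simp only [P0_eq, z0_eq, fb_eq]); (try ring)) (by repeat' (first | (with_reducible assumption) | (with_reducible apply sub_mem) | (with_reducible apply add_mem) | (with_reducible apply mul_mem) | (with_reducible apply pow_mem) | (with_reducible apply neg_mem) | exact one_mem _ | exact zero_mem _ | exact ofNat_mem _ _))
  have j_NB : (-((F k * (s k ^ 2)) * z1 k)) / (P0 k ^ 2) ∈ chart k .B :=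
    mem_of_eq (e := (((s k * z1 k) / P0 k) ^ 2) + ((((((fb k * (s k ^ 3)) * (z1 k ^ 3)) / (P0 k ^ 3)) ^ 2) * (((P0 k ^ 2) / ((s k * fb k) * (z1 k ^ 2))) ^ 3)) * ((((v k * s k) * fb k) * z1 k) / (P0 k ^ 2))))
      (by field_simp; (try simp only [z1_eq]); (try ring)) (by repeat' (first | (with_reducible assumption) | (with_reducible apply sub_mem) | (with_reducible apply add_mem) | (with_reducible apply mul_mem) | (with_reducible apply pow_mem) | (with_reducible apply neg_mem) | exact one_mem _ | exact zero_mem _ | exact ofNat_mem _ _))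
  have j_HB : F k / fb k ∈ chart k .B :=
    mem_of_eq (e := (1 - ((((((y k * s k) * z1 k) / P0 k) ^ 3) * ((s k * z1 k) / P0 k)) * (((P0 k ^ 2) / ((s k * fb k) * (z1 k ^ 2))) ^ 2))) + ((((s k * z1 k) / P0 k) ^ 4) * (((P0 k ^ 2) / ((s k * fb k) * (z1 k ^ 2))) ^ 2)))
      (by field_simp; (try simp only [F_eq, fb_eq]); (try ring)) (by repeat' (first | (with_reducible assumption) | (with_reducible apply sub_mem) | (with_reducible apply add_mem) | (with_reducible apply mul_mem) | (with_reducible apply pow_mem) | (with_reducible apply neg_mem) | exact one_mem _ | exact zero_mem _ | exact ofNat_mem _ _))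
  have j_a3 : (((s k * fb k) * z0 k) * z1 k) / (P0 k ^ 2) ∈ chart k .B :=
    mem_of_eq (e := (((y k * s k) * z1 k) / P0 k) + (((s k * z1 k) / P0 k) ^ 2))
      (by field_simp; (try simp only [P0_eq, z0_eq, fb_eq]); (try ring)) (by repeat' (first | (with_reducible assumption) | (with_reducible apply sub_mem) | (with_reducible apply add_mem) | (with_reducible apply mul_mem) | (with_reducible apply pow_mem) | (with_reducible apply neg_mem) | exact one_mem _ | exact zero_mem _ | exact ofNat_mem _ _))
  have i_f : (((fb k * F k) * z1 k) * P0 k) / (s k ^ 10) ∈ chart k .Pa :=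
    mem_of_eq (e := (((fb k / (s k ^ 3)) * (F k / (s k ^ 3))) * (z1 k / s k)) * (P0 k / (s k ^ 3)))
      (by (field_simp <;> ring)) (by repeat' (first | (with_reducible assumption) | (with_reducible apply sub_mem) | (with_reducible apply add_mem) | (with_reducible apply mul_mem) | (with_reducible apply pow_mem) | (with_reducible apply neg_mem) | exact one_mem _ | exact zero_mem _ | exact ofNat_mem _ _))
  have j_g : (-(((F k * (s k ^ 7)) * dd k) * (z1 k ^ 5))) / (P0 k ^ 6) ∈ chart k .B :=
    mem_of_eq (e := ((((P0 k ^ 2) / ((s k * fb k) * (z1 k ^ 2))) * (((fb k * (s k ^ 3)) * (z1 k ^ 3)) / (P0 k ^ 3))) * ((((s k ^ 3) * (z1 k ^ 3)) * dd k) / (P0 k ^ 3))) * ((-((F k * (s k ^ 2)) * z1 k)) / (P0 k ^ 2)))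
      (by (field_simp <;> ring)) (by repeat' (first | (with_reducible assumption) | (with_reducible apply sub_mem) | (with_reducible apply add_mem) | (with_reducible apply mul_mem) | (with_reducible apply pow_mem) | (with_reducible apply neg_mem) | exact one_mem _ | exact zero_mem _ | exact ofNat_mem _ _))
  have hi : chart k .Pa ≤ chart k .Pa ⊔ chart k .B := le_sup_left
  have hj : chart k .B ≤ chart k .Pa ⊔ chart k .B := le_sup_right
  have u_i_X1 := hi i_X1
  have u_i_Z := hi i_Z
  have u_i_v3 := hi i_v3
  have u_i_ui := hi i_ui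
  have u_i_De := hi i_De
  have u_i_F1 := hi i_F1
  have u_i_vtP := hi i_vtP
  have u_i_z1P := hi i_z1P
  have u_i_PP := hi i_PP
  have u_j_B1 := hj j_B1
  have u_j_B2 := hj j_B2
  have u_j_B3 := hj j_B3
  have u_j_Hi := hj j_Hi
  have u_j_be := hj j_be
  have u_j_UB := hj j_UB
  have u_j_b3 := hj j_b3
  have u_j_NB := hj j_NB
  have u_j_HB := hj j_HB
  have u_j_a3 := hj j_a3
  have ef : ((((fb k * F k) * z1 k) * P0 k) / (s k ^ 10)) * ((((((((fb k * (s k ^ 3)) * (z1 k ^ 3)) / (P0 k ^ 3)) ^ 2) * (((P0 k ^ 2) / ((s k * fb k) * (z1 k ^ 2))) ^ 3)) * (((fb k / F k) * ((((fb k * (s k ^ 3)) * (z1 k ^ 3)) / (P0 k ^ 3)) ^ 2)) * (((P0 k ^ 2) / ((s k * fb k) * (z1 k ^ 2))) ^ 3))) * ((((-((F k * (s k ^ 2)) * z1 k)) / (P0 k ^ 2)) * (fb k / F k)) * ((P0 k ^ 2) / ((s k * fb k) * (z1 k ^ 2))))) * ((((((fb k * (s k ^ 3)) * (z1 k ^ 3)) / (P0 k ^ 3)) * (((P0 k ^ 2) / ((s k * fb k) * (z1 k ^ 2))) ^ 2)) * ((-((F k * (s k ^ 2)) * z1 k)) / (P0 k ^ 2))) * (fb k / F k))) = 1 := by (field_simp <;> ring)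
  have eg : ((-(((F k * (s k ^ 7)) * dd k) * (z1 k ^ 5))) / (P0 k ^ 6)) * ((((((fb k / (s k ^ 3)) * ((((fb k * (s k ^ 3)) * (z1 k ^ 3)) / (P0 k ^ 3)) ^ 2)) * (((P0 k ^ 2) / ((s k * fb k) * (z1 k ^ 2))) ^ 2)) * (((fb k / (s k ^ 3)) * (((fb k * (s k ^ 3)) * (z1 k ^ 3)) / (P0 k ^ 3))) * (((P0 k ^ 2) / ((s k * fb k) * (z1 k ^ 2))) ^ 3))) * (((((s k ^ 3) / dd k) * ((fb k / (s k ^ 3)) ^ 2)) * (((fb k * (s k ^ 3)) * (z1 k ^ 3)) / (P0 k ^ 3))) * (((P0 k ^ 2) / ((s k * fb k) * (z1 k ^ 2))) ^ 3))) * (-(((z1 k / s k) * (fb k / F k)) * ((P0 k ^ 2) / ((s k * fb k) * (z1 k ^ 2)))))) = 1 := by (field_simp <;> ring)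
  have u_fi : ((((fb k * F k) * z1 k) * P0 k) / (s k ^ 10))⁻¹ ∈ chart k .Pa ⊔ chart k .B := by
    rw [(ne_inv_of_mul ef).2]; repeat' (first | (with_reducible assumption) | (with_reducible apply sub_mem) | (with_reducible apply add_mem) | (with_reducible apply mul_mem) | (with_reducible apply pow_mem) | (with_reducible apply neg_mem) | exact one_mem _ | exact zero_mem _ | exact ofNat_mem _ _)
  have u_gi : ((-(((F k * (s k ^ 7)) * dd k) * (z1 k ^ 5))) / (P0 k ^ 6))⁻¹ ∈ chart k .Pa ⊔ chart k .B := by
    rw [(ne_inv_of_mul eg).2]; repeat' (first | (with_reducible assumption) | (with_reducible apply sub_mem) | (with_reducible apply add_mem) | (with_reducible apply mul_mem) | (with_reducible apply pow_mem) | (with_reducible apply neg_mem) | exact one_mem _ | exact zero_mem _ | exact ofNat_mem _ _)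
  refine good_chart ((((fb k * F k) * z1 k) * P0 k) / (s k ^ 10)) ((-(((F k * (s k ^ 7)) * dd k) * (z1 k ^ 5))) / (P0 k ^ 6)) i_f j_g
    (ne_inv_of_mul ef).1 (ne_inv_of_mul eg).1 u_fi u_gi ?_ ?_
  · have hle : chart k .Pa ≤ chart k .Pa ⊔ Algebra.adjoin k {((((fb k * F k) * z1 k) * P0 k) / (s k ^ 10))⁻¹} := le_sup_left
    have w_X1 := hle i_X1
    have w_Z := hle i_Z
    have w_v3 := hle i_v3
    have w_ui := hle i_ui
    have w_De := hle i_De
    have w_F1 := hle i_F1
    have w_vtP := hle i_vtP
    have w_z1P := hle i_z1P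
    have w_PP := hle i_PP
    have w_inv : ((((fb k * F k) * z1 k) * P0 k) / (s k ^ 10))⁻¹ ∈ chart k .Pa ⊔ Algebra.adjoin k {((((fb k * F k) * z1 k) * P0 k) / (s k ^ 10))⁻¹} := mem_adjoin_inv _
    intro x hx
    simp only [gens, Set.mem_insert_iff, Set.mem_singleton_iff] at hx
    rcases hx with rfl | rfl | rfl | rfl
    · exact mem_of_eq (e := ((y k / s k) * (z1 k / s k)) * ((((fb k / (s k ^ 3)) * (F k / (s k ^ 3))) * (z1 k / s k)) * ((((fb k * F k) * z1 k) * P0 k) / (s k ^ 10))⁻¹))
        (by (field_simp <;> ring)) (by repeat' (first | (with_reducible assumption) | (with_reducible apply sub_mem) | (with_reducible apply add_mem) | (with_reducible apply mul_mem) | (with_reducible apply pow_mem) | (with_reducible apply neg_mem) | exact one_mem _ | exact zero_mem _ | exact ofNat_mem _ _))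
    · exact mem_of_eq (e := ((1 / s k) * (z1 k / s k)) * ((((fb k / (s k ^ 3)) * (F k / (s k ^ 3))) * (z1 k / s k)) * ((((fb k * F k) * z1 k) * P0 k) / (s k ^ 10))⁻¹))
        (by (field_simp <;> ring)) (by repeat' (first | (with_reducible assumption) | (with_reducible apply sub_mem) | (with_reducible apply add_mem) | (with_reducible apply mul_mem) | (with_reducible apply pow_mem) | (with_reducible apply neg_mem) | exact one_mem _ | exact zero_mem _ | exact ofNat_mem _ _))
    · exact mem_of_eq (e := (((P0 k / (s k ^ 3)) ^ 2) * ((((F k / (s k ^ 3)) * (z1 k / s k)) * (P0 k / (s k ^ 3))) * ((((fb k * F k) * z1 k) * P0 k) / (s k ^ 10))⁻¹)) * (((((fb k / (s k ^ 3)) * (F k / (s k ^ 3))) * (P0 k / (s k ^ 3))) * ((((fb k * F k) * z1 k) * P0 k) / (s k ^ 10))⁻¹) ^ 2))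
        (by (field_simp <;> ring)) (by repeat' (first | (with_reducible assumption) | (with_reducible apply sub_mem) | (with_reducible apply add_mem) | (with_reducible apply mul_mem) | (with_reducible apply pow_mem) | (with_reducible apply neg_mem) | exact one_mem _ | exact zero_mem _ | exact ofNat_mem _ _))
    · exact mem_of_eq (e := (fb k / (s k ^ 3)) * ((((fb k / (s k ^ 3)) * (z1 k / s k)) * (P0 k / (s k ^ 3))) * ((((fb k * F k) * z1 k) * P0 k) / (s k ^ 10))⁻¹))
        (by (field_simp <;> ring)) (by repeat' (first | (with_reducible assumption) | (with_reducible apply sub_mem) | (with_reducible apply add_mem) | (with_reducible apply mul_mem) | (with_reducible apply pow_mem) | (with_reducible apply neg_mem) | exact one_mem _ | exact zero_mem _ | exact ofNat_mem _ _))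
  · have hle : chart k .B ≤ chart k .B ⊔ Algebra.adjoin k {((-(((F k * (s k ^ 7)) * dd k) * (z1 k ^ 5))) / (P0 k ^ 6))⁻¹} := le_sup_left
    have w_B1 := hle j_B1
    have w_B2 := hle j_B2
    have w_B3 := hle j_B3
    have w_Hi := hle j_Hi
    have w_be := hle j_be
    have w_UB := hle j_UB
    have w_b3 := hle j_b3
    have w_NB := hle j_NB
    have w_HB := hle j_HB
    have w_a3 := hle j_a3
    have w_inv : ((-(((F k * (s k ^ 7)) * dd k) * (z1 k ^ 5))) / (P0 k ^ 6))⁻¹ ∈ chart k .B ⊔ Algebra.adjoin k {((-(((F k * (s k ^ 7)) * dd k) * (z1 k ^ 5))) / (P0 k ^ 6))⁻¹} := mem_adjoin_inv _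
    intro x hx
    simp only [gens, Set.mem_insert_iff, Set.mem_singleton_iff] at hx
    rcases hx with rfl | rfl | rfl | rfl
    · exact mem_of_eq (e := ((((s k * z1 k) / P0 k) * ((((s k ^ 3) * (z1 k ^ 3)) * dd k) / (P0 k ^ 3))) * ((-((F k * (s k ^ 2)) * z1 k)) / (P0 k ^ 2))) * ((-(((F k * (s k ^ 7)) * dd k) * (z1 k ^ 5))) / (P0 k ^ 6))⁻¹)
        (by (field_simp <;> ring)) (by repeat' (first | (with_reducible assumption) | (with_reducible apply sub_mem) | (with_reducible apply add_mem) | (with_reducible apply mul_mem) | (with_reducible apply pow_mem) | (with_reducible apply neg_mem) | exact one_mem _ | exact zero_mem _ | exact ofNat_mem _ _))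
    · exact mem_of_eq (e := (((((y k * s k) * z1 k) / P0 k) * ((((s k ^ 3) * (z1 k ^ 3)) * dd k) / (P0 k ^ 3))) * ((-((F k * (s k ^ 2)) * z1 k)) / (P0 k ^ 2))) * ((-(((F k * (s k ^ 7)) * dd k) * (z1 k ^ 5))) / (P0 k ^ 6))⁻¹)
        (by (field_simp <;> ring)) (by repeat' (first | (with_reducible assumption) | (with_reducible apply sub_mem) | (with_reducible apply add_mem) | (with_reducible apply mul_mem) | (with_reducible apply pow_mem) | (with_reducible apply neg_mem) | exact one_mem _ | exact zero_mem _ | exact ofNat_mem _ _))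
    · exact mem_of_eq (e := -(((((((s k * fb k) * z0 k) * z1 k) / (P0 k ^ 2)) * (F k / fb k)) * ((((P0 k ^ 2) / ((s k * fb k) * (z1 k ^ 2))) * (((fb k * (s k ^ 3)) * (z1 k ^ 3)) / (P0 k ^ 3))) * ((((s k ^ 3) * (z1 k ^ 3)) * dd k) / (P0 k ^ 3)))) * ((-(((F k * (s k ^ 7)) * dd k) * (z1 k ^ 5))) / (P0 k ^ 6))⁻¹))
        (by (field_simp <;> ring)) (by repeat' (first | (with_reducible assumption) | (with_reducible apply sub_mem) | (with_reducible apply add_mem) | (with_reducible apply mul_mem) | (with_reducible apply pow_mem) | (with_reducible apply neg_mem) | exact one_mem _ | exact zero_mem _ | exact ofNat_mem _ _))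
    · exact mem_of_eq (e := (((((fb k * (s k ^ 3)) * (z1 k ^ 3)) / (P0 k ^ 3)) ^ 3) * (((P0 k ^ 2) / ((s k * fb k) * (z1 k ^ 2))) ^ 3)) * (((((P0 k ^ 2) / ((s k * fb k) * (z1 k ^ 2))) * (((fb k * (s k ^ 3)) * (z1 k ^ 3)) / (P0 k ^ 3))) * ((-((F k * (s k ^ 2)) * z1 k)) / (P0 k ^ 2))) * ((-(((F k * (s k ^ 7)) * dd k) * (z1 k ^ 5))) / (P0 k ^ 6))⁻¹))
        (by (field_simp <;> ring)) (by repeat' (first | (with_reducible assumption) | (with_reducible apply sub_mem) | (with_reducible apply add_mem) | (with_reducible apply mul_mem) | (with_reducible apply pow_mem) | (with_reducible apply neg_mem) | exact one_mem _ | exact zero_mem _ | exact ofNat_mem _ _))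

theorem good_Pa_D : Good (chart k .Pa) (chart k .D) := by
  have hs := s_ne k; have hy := y_ne k; have hv := v_ne k; have hfb := fb_ne k
  have hF := F_ne k; have hz1 := z1_ne k; have hz0 := z0_ne k; have hP0 := P0_ne k
  have hdd := dd_ne k
  have i_X1 : 1 / s k ∈ chart k .Pa := Algebra.subset_adjoin (by simp [gens])
  have i_Z : y k / s k ∈ chart k .Pa := Algebra.subset_adjoin (by simp [gens])
  have i_v3 : z0 k / s k ∈ chart k .Pa := Algebra.subset_adjoin (by simp [gens])
  have i_ui : (s k ^ 3) / dd k ∈ chart k .Pa := Algebra.subset_adjoin (by simp [gens])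
  have i_De : fb k / (s k ^ 3) ∈ chart k .Pa :=
    mem_of_eq (e := ((y k / s k) ^ 3) - ((1 / s k) ^ 3))
      (by field_simp; (try simp only [fb_eq]); (try ring)) (by repeat' (first | (with_reducible assumption) | (with_reducible apply sub_mem) | (with_reducible apply add_mem) | (with_reducible apply mul_mem) | (with_reducible apply pow_mem) | (with_reducible apply neg_mem) | exact one_mem _ | exact zero_mem _ | exact ofNat_mem _ _))
  have i_F1 : F k / (s k ^ 3) ∈ chart k .Pa :=
    mem_of_eq (e := (((y k / s k) ^ 3) - (1 / s k)) - ((1 / s k) ^ 3))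
      (by field_simp; (try simp only [F_eq, fb_eq]); (try ring)) (by repeat' (first | (with_reducible assumption) | (with_reducible apply sub_mem) | (with_reducible apply add_mem) | (with_reducible apply mul_mem) | (with_reducible apply pow_mem) | (with_reducible apply neg_mem) | exact one_mem _ | exact zero_mem _ | exact ofNat_mem _ _))
  have i_vtP : v k / s k ∈ chart k .Pa :=
    mem_of_eq (e := ((((1 / s k) ^ 3) * (z0 k / s k)) - (F k / (s k ^ 3))) * ((s k ^ 3) / dd k))
      (by field_simp; (try simp only [z0_eq, z1_eq, dd_eq]); (try ring)) (by repeat' (first | (with_reducible assumption) | (with_reducible apply sub_mem) | (with_reducible apply add_mem) | (with_reducible apply mul_mem) | (with_reducible apply pow_mem) | (with_reducible apply neg_mem) | exact one_mem _ | exact zero_mem _ | exact ofNat_mem _ _))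
  have i_z1P : z1 k / s k ∈ chart k .Pa :=
    mem_of_eq (e := (-((1 / s k) * (z0 k / s k))) - ((y k / s k) * (v k / s k)))
      (by field_simp; (try simp only [z0_eq]); (try ring)) (by repeat' (first | (with_reducible assumption) | (with_reducible apply sub_mem) | (with_reducible apply add_mem) | (with_reducible apply mul_mem) | (with_reducible apply pow_mem) | (with_reducible apply neg_mem) | exact one_mem _ | exact zero_mem _ | exact ofNat_mem _ _))
  have i_PP : P0 k / (s k ^ 3) ∈ chart k .Pa :=
    mem_of_eq (e := (((1 / s k) ^ 2) * (v k / s k)) + (((y k / s k) ^ 2) * (z0 k / s k)))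
      (by field_simp; (try simp only [P0_eq]); (try ring)) (by repeat' (first | (with_reducible assumption) | (with_reducible apply sub_mem) | (with_reducible apply add_mem) | (with_reducible apply mul_mem) | (with_reducible apply pow_mem) | (with_reducible apply neg_mem) | exact one_mem _ | exact zero_mem _ | exact ofNat_mem _ _))
  have j_D1 : 1 / y k ∈ chart k .D := Algebra.subset_adjoin (by simp [gens])
  have j_D2 : P0 k / ((y k * s k) * z1 k) ∈ chart k .D := Algebra.subset_adjoin (by simp [gens])
  have j_D3 : ((y k ^ 2) * s k) / fb k ∈ chart k .D := Algebra.subset_adjoin (by simp [gens])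
  have j_Hi : fb k / F k ∈ chart k .D := Algebra.subset_adjoin (by simp [gens])
  have j_de : fb k / (y k ^ 3) ∈ chart k .D :=
    mem_of_eq (e := 1 - ((1 / y k) ^ 3))
      (by field_simp; (try simp only [fb_eq]); (try ring)) (by repeat' (first | (with_reducible assumption) | (with_reducible apply sub_mem) | (with_reducible apply add_mem) | (with_reducible apply mul_mem) | (with_reducible apply pow_mem) | (with_reducible apply neg_mem) | exact one_mem _ | exact zero_mem _ | exact ofNat_mem _ _))
  have j_UD : dd k / (y k ^ 3) ∈ chart k .D :=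
    mem_of_eq (e := (((fb k / (y k ^ 3)) ^ 3) * ((((y k ^ 2) * s k) / fb k) ^ 3)) - ((1 / y k) ^ 2))
      (by field_simp; (try simp only [dd_eq]); (try ring)) (by repeat' (first | (with_reducible assumption) | (with_reducible apply sub_mem) | (with_reducible apply add_mem) | (with_reducible apply mul_mem) | (with_reducible apply pow_mem) | (with_reducible apply neg_mem) | exact one_mem _ | exact zero_mem _ | exact ofNat_mem _ _))
  have j_b3 : (v k * fb k) / (((y k ^ 2) * s k) * z1 k) ∈ chart k .D :=
    mem_of_eq (e := -(((1 / y k) * (P0 k / ((y k * s k) * z1 k))) + 1))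
      (by field_simp; (try simp only [P0_eq, z0_eq, fb_eq]); (try ring)) (by repeat' (first | (with_reducible assumption) | (with_reducible apply sub_mem) | (with_reducible apply add_mem) | (with_reducible apply mul_mem) | (with_reducible apply pow_mem) | (with_reducible apply neg_mem) | exact one_mem _ | exact zero_mem _ | exact ofNat_mem _ _))
  have j_ND : (-F k) / ((y k ^ 2) * z1 k) ∈ chart k .D :=
    mem_of_eq (e := ((1 / y k) ^ 2) + ((((fb k / (y k ^ 3)) ^ 2) * ((((y k ^ 2) * s k) / fb k) ^ 2)) * ((((y k ^ 2) * s k) / fb k) * ((v k * fb k) / (((y k ^ 2) * s k) * z1 k)))))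
      (by field_simp; (try simp only [z1_eq]); (try ring)) (by repeat' (first | (with_reducible assumption) | (with_reducible apply sub_mem) | (with_reducible apply add_mem) | (with_reducible apply mul_mem) | (with_reducible apply pow_mem) | (with_reducible apply neg_mem) | exact one_mem _ | exact zero_mem _ | exact ofNat_mem _ _))
  have j_HD : F k / fb k ∈ chart k .D :=
    mem_of_eq (e := 1 - (((1 / y k) * (fb k / (y k ^ 3))) * ((((y k ^ 2) * s k) / fb k) ^ 2)))
      (by field_simp; (try simp only [F_eq, fb_eq]); (try ring)) (by repeat' (first | (with_reducible assumption) | (with_reducible apply sub_mem) | (with_reducible apply add_mem) | (with_reducible apply mul_mem) | (with_reducible apply pow_mem) | (with_reducible apply neg_mem) | exact one_mem _ | exact zero_mem _ | exact ofNat_mem _ _))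
  have j_a3 : (fb k * z0 k) / (((y k ^ 2) * s k) * z1 k) ∈ chart k .D :=
    mem_of_eq (e := ((1 / y k) ^ 2) + (P0 k / ((y k * s k) * z1 k)))
      (by field_simp; (try simp only [P0_eq, z0_eq, fb_eq]); (try ring)) (by repeat' (first | (with_reducible assumption) | (with_reducible apply sub_mem) | (with_reducible apply add_mem) | (with_reducible apply mul_mem) | (with_reducible apply pow_mem) | (with_reducible apply neg_mem) | exact one_mem _ | exact zero_mem _ | exact ofNat_mem _ _))
  have i_f : (((y k * fb k) * F k) * z1 k) / (s k ^ 8) ∈ chart k .Pa :=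
    mem_of_eq (e := (((y k / s k) * (fb k / (s k ^ 3))) * (F k / (s k ^ 3))) * (z1 k / s k))
      (by (field_simp <;> ring)) (by repeat' (first | (with_reducible assumption) | (with_reducible apply sub_mem) | (with_reducible apply add_mem) | (with_reducible apply mul_mem) | (with_reducible apply pow_mem) | (with_reducible apply neg_mem) | exact one_mem _ | exact zero_mem _ | exact ofNat_mem _ _))
  have j_g : (-((s k * F k) * dd k)) / ((y k ^ 6) * z1 k) ∈ chart k .D :=
    mem_of_eq (e := (((((y k ^ 2) * s k) / fb k) * (fb k / (y k ^ 3))) * (dd k / (y k ^ 3))) * ((-F k) / ((y k ^ 2) * z1 k)))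
      (by (field_simp <;> ring)) (by repeat' (first | (with_reducible assumption) | (with_reducible apply sub_mem) | (with_reducible apply add_mem) | (with_reducible apply mul_mem) | (with_reducible apply pow_mem) | (with_reducible apply neg_mem) | exact one_mem _ | exact zero_mem _ | exact ofNat_mem _ _))
  have hi : chart k .Pa ≤ chart k .Pa ⊔ chart k .D := le_sup_left
  have hj : chart k .D ≤ chart k .Pa ⊔ chart k .D := le_sup_right
  have u_i_X1 := hi i_X1
  have u_i_Z := hi i_Z
  have u_i_v3 := hi i_v3
  have u_i_ui := hi i_ui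
  have u_i_De := hi i_De
  have u_i_F1 := hi i_F1
  have u_i_vtP := hi i_vtP
  have u_i_z1P := hi i_z1P
  have u_i_PP := hi i_PP
  have u_j_D1 := hj j_D1
  have u_j_D2 := hj j_D2
  have u_j_D3 := hj j_D3
  have u_j_Hi := hj j_Hi
  have u_j_de := hj j_de
  have u_j_UD := hj j_UD
  have u_j_b3 := hj j_b3
  have u_j_ND := hj j_ND
  have u_j_HD := hj j_HD
  have u_j_a3 := hj j_a3
  have ef : ((((y k * fb k) * F k) * z1 k) / (s k ^ 8)) * (((((fb k / (y k ^ 3)) * (((y k ^ 2) * s k) / fb k)) * (((fb k / (y k ^ 3)) ^ 2) * ((((y k ^ 2) * s k) / fb k) ^ 3))) * (((fb k / F k) * ((fb k / (y k ^ 3)) ^ 2)) * ((((y k ^ 2) * s k) / fb k) ^ 3))) * (-((((-F k) / ((y k ^ 2) * z1 k)) * (fb k / F k)) * (((y k ^ 2) * s k) / fb k)))) = 1 := by (field_simp <;> ring)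
  have eg : ((-((s k * F k) * dd k)) / ((y k ^ 6) * z1 k)) * (((((y k / s k) * (fb k / (y k ^ 3))) * ((y k / s k) * (((y k ^ 2) * s k) / fb k))) * (((s k ^ 3) / dd k) * ((y k / s k) ^ 3))) * (-(((z1 k / s k) * (fb k / F k)) * (((y k ^ 2) * s k) / fb k)))) = 1 := by (field_simp <;> ring)
  have u_fi : ((((y k * fb k) * F k) * z1 k) / (s k ^ 8))⁻¹ ∈ chart k .Pa ⊔ chart k .D := by
    rw [(ne_inv_of_mul ef).2]; repeat' (first | (with_reducible assumption) | (with_reducible apply sub_mem) | (with_reducible apply add_mem) | (with_reducible apply mul_mem) | (with_reducible apply pow_mem) | (with_reducible apply neg_mem) | exact one_mem _ | exact zero_mem _ | exact ofNat_mem _ _)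
  have u_gi : ((-((s k * F k) * dd k)) / ((y k ^ 6) * z1 k))⁻¹ ∈ chart k .Pa ⊔ chart k .D := by
    rw [(ne_inv_of_mul eg).2]; repeat' (first | (with_reducible assumption) | (with_reducible apply sub_mem) | (with_reducible apply add_mem) | (with_reducible apply mul_mem) | (with_reducible apply pow_mem) | (with_reducible apply neg_mem) | exact one_mem _ | exact zero_mem _ | exact ofNat_mem _ _)
  refine good_chart ((((y k * fb k) * F k) * z1 k) / (s k ^ 8)) ((-((s k * F k) * dd k)) / ((y k ^ 6) * z1 k)) i_f j_g
    (ne_inv_of_mul ef).1 (ne_inv_of_mul eg).1 u_fi u_gi ?_ ?_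
  · have hle : chart k .Pa ≤ chart k .Pa ⊔ Algebra.adjoin k {((((y k * fb k) * F k) * z1 k) / (s k ^ 8))⁻¹} := le_sup_left
    have w_X1 := hle i_X1
    have w_Z := hle i_Z
    have w_v3 := hle i_v3
    have w_ui := hle i_ui
    have w_De := hle i_De
    have w_F1 := hle i_F1
    have w_vtP := hle i_vtP
    have w_z1P := hle i_z1P
    have w_PP := hle i_PP
    have w_inv : ((((y k * fb k) * F k) * z1 k) / (s k ^ 8))⁻¹ ∈ chart k .Pa ⊔ Algebra.adjoin k {((((y k * fb k) * F k) * z1 k) / (s k ^ 8))⁻¹} := mem_adjoin_inv _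
    intro x hx
    simp only [gens, Set.mem_insert_iff, Set.mem_singleton_iff] at hx
    rcases hx with rfl | rfl | rfl | rfl
    · exact mem_of_eq (e := ((((1 / s k) * (fb k / (s k ^ 3))) * (F k / (s k ^ 3))) * (z1 k / s k)) * ((((y k * fb k) * F k) * z1 k) / (s k ^ 8))⁻¹)
        (by (field_simp <;> ring)) (by repeat' (first | (with_reducible assumption) | (with_reducible apply sub_mem) | (with_reducible apply add_mem) | (with_reducible apply mul_mem) | (with_reducible apply pow_mem) | (with_reducible apply neg_mem) | exact one_mem _ | exact zero_mem _ | exact ofNat_mem _ _))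
    · exact mem_of_eq (e := (((P0 k / (s k ^ 3)) * (fb k / (s k ^ 3))) * (F k / (s k ^ 3))) * ((((y k * fb k) * F k) * z1 k) / (s k ^ 8))⁻¹)
        (by (field_simp <;> ring)) (by repeat' (first | (with_reducible assumption) | (with_reducible apply sub_mem) | (with_reducible apply add_mem) | (with_reducible apply mul_mem) | (with_reducible apply pow_mem) | (with_reducible apply neg_mem) | exact one_mem _ | exact zero_mem _ | exact ofNat_mem _ _))
    · exact mem_of_eq (e := ((y k / s k) ^ 2) * ((((y k / s k) * (F k / (s k ^ 3))) * (z1 k / s k)) * ((((y k * fb k) * F k) * z1 k) / (s k ^ 8))⁻¹))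
        (by (field_simp <;> ring)) (by repeat' (first | (with_reducible assumption) | (with_reducible apply sub_mem) | (with_reducible apply add_mem) | (with_reducible apply mul_mem) | (with_reducible apply pow_mem) | (with_reducible apply neg_mem) | exact one_mem _ | exact zero_mem _ | exact ofNat_mem _ _))
    · exact mem_of_eq (e := (fb k / (s k ^ 3)) * ((((y k / s k) * (fb k / (s k ^ 3))) * (z1 k / s k)) * ((((y k * fb k) * F k) * z1 k) / (s k ^ 8))⁻¹))
        (by (field_simp <;> ring)) (by repeat' (first | (with_reducible assumption) | (with_reducible apply sub_mem) | (with_reducible apply add_mem) | (with_reducible apply mul_mem) | (with_reducible apply pow_mem) | (with_reducible apply neg_mem) | exact one_mem _ | exact zero_mem _ | exact ofNat_mem _ _))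
  · have hle : chart k .D ≤ chart k .D ⊔ Algebra.adjoin k {((-((s k * F k) * dd k)) / ((y k ^ 6) * z1 k))⁻¹} := le_sup_left
    have w_D1 := hle j_D1
    have w_D2 := hle j_D2
    have w_D3 := hle j_D3
    have w_Hi := hle j_Hi
    have w_de := hle j_de
    have w_UD := hle j_UD
    have w_b3 := hle j_b3
    have w_ND := hle j_ND
    have w_HD := hle j_HD
    have w_a3 := hle j_a3
    have w_inv : ((-((s k * F k) * dd k)) / ((y k ^ 6) * z1 k))⁻¹ ∈ chart k .D ⊔ Algebra.adjoin k {((-((s k * F k) * dd k)) / ((y k ^ 6) * z1 k))⁻¹} := mem_adjoin_inv _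
    intro x hx
    simp only [gens, Set.mem_insert_iff, Set.mem_singleton_iff] at hx
    rcases hx with rfl | rfl | rfl | rfl
    · exact mem_of_eq (e := (((1 / y k) * (dd k / (y k ^ 3))) * ((-F k) / ((y k ^ 2) * z1 k))) * ((-((s k * F k) * dd k)) / ((y k ^ 6) * z1 k))⁻¹)
        (by (field_simp <;> ring)) (by repeat' (first | (with_reducible assumption) | (with_reducible apply sub_mem) | (with_reducible apply add_mem) | (with_reducible apply mul_mem) | (with_reducible apply pow_mem) | (with_reducible apply neg_mem) | exact one_mem _ | exact zero_mem _ | exact ofNat_mem _ _))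
    · exact mem_of_eq (e := ((dd k / (y k ^ 3)) * ((-F k) / ((y k ^ 2) * z1 k))) * ((-((s k * F k) * dd k)) / ((y k ^ 6) * z1 k))⁻¹)
        (by (field_simp <;> ring)) (by repeat' (first | (with_reducible assumption) | (with_reducible apply sub_mem) | (with_reducible apply add_mem) | (with_reducible apply mul_mem) | (with_reducible apply pow_mem) | (with_reducible apply neg_mem) | exact one_mem _ | exact zero_mem _ | exact ofNat_mem _ _))
    · exact mem_of_eq (e := -(((((fb k * z0 k) / (((y k ^ 2) * s k) * z1 k)) * (F k / fb k)) * (((((y k ^ 2) * s k) / fb k) * (fb k / (y k ^ 3))) * (dd k / (y k ^ 3)))) * ((-((s k * F k) * dd k)) / ((y k ^ 6) * z1 k))⁻¹))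
        (by (field_simp <;> ring)) (by repeat' (first | (with_reducible assumption) | (with_reducible apply sub_mem) | (with_reducible apply add_mem) | (with_reducible apply mul_mem) | (with_reducible apply pow_mem) | (with_reducible apply neg_mem) | exact one_mem _ | exact zero_mem _ | exact ofNat_mem _ _))
    · exact mem_of_eq (e := (((fb k / (y k ^ 3)) ^ 3) * ((((y k ^ 2) * s k) / fb k) ^ 3)) * ((((((y k ^ 2) * s k) / fb k) * (fb k / (y k ^ 3))) * ((-F k) / ((y k ^ 2) * z1 k))) * ((-((s k * F k) * dd k)) / ((y k ^ 6) * z1 k))⁻¹))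
        (by (field_simp <;> ring)) (by repeat' (first | (with_reducible assumption) | (with_reducible apply sub_mem) | (with_reducible apply add_mem) | (with_reducible apply mul_mem) | (with_reducible apply pow_mem) | (with_reducible apply neg_mem) | exact one_mem _ | exact zero_mem _ | exact ofNat_mem _ _))

end Helper50.D71
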