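import Pool.Agent.Helper50.D71.Tac

/-!
# Pairs of charts (generated)
-/

universe u

namespace Helper50.D71

variable (k : Type u) [Field k]

set_option maxHeartbeats 1000000

attribute [local irreducible] s y v fb F z1 z0 P0 dd

theorem good_Pb_D : Good (chart k .Pb) (chart k .D) := by
  have hs := s_ne k; have hy := y_ne k; have hv := v_ne k; have hfb := fb_ne k
  have hF := F_ne k; have hz1 := z1_ne k; have hz0 := z0_ne k; have hP0 := P0_ne k
  have hdd := dd_ne k
  have i_X1 : 1 / s k ∈ chart k .Pb := Algebra.subset_adjoin (by simp [gens])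
  have i_Z : y k / s k ∈ chart k .Pb := Algebra.subset_adjoin (by simp [gens])
  have i_w3 : s k / z0 k ∈ chart k .Pb := Algebra.subset_adjoin (by simp [gens])
  have i_ui : (s k ^ 3) / dd k ∈ chart k .Pb := Algebra.subset_adjoin (by simp [gens])
  have i_De : fb k / (s k ^ 3) ∈ chart k .Pb :=
    mem_of_eq (e := ((y k / s k) ^ 3) - ((1 / s k) ^ 3))
      (by field_simp; (try simp only [fb_eq]); (try ring)) (by repeat' (first | (with_reducible assumption) | (with_reducible apply sub_mem) | (with_reducible apply add_mem) | (with_reducible apply mul_mem) | (with_reducible apply pow_mem) | (with_reducible apply neg_mem) | exact one_mem _ | exact zero_mem _ | exact ofNat_mem _ _))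
  have i_F1 : F k / (s k ^ 3) ∈ chart k .Pb :=
    mem_of_eq (e := (((y k / s k) ^ 3) - (1 / s k)) - ((1 / s k) ^ 3))
      (by field_simp; (try simp only [F_eq, fb_eq]); (try ring)) (by repeat' (first | (with_reducible assumption) | (with_reducible apply sub_mem) | (with_reducible apply add_mem) | (with_reducible apply mul_mem) | (with_reducible apply pow_mem) | (with_reducible apply neg_mem) | exact one_mem _ | exact zero_mem _ | exact ofNat_mem _ _))
  have i_tP : v k / z0 k ∈ chart k .Pb :=
    mem_of_eq (e := (((1 / s k) ^ 3) - ((F k / (s k ^ 3)) * (s k / z0 k))) * ((s k ^ 3) / dd k))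
      (by field_simp; (try simp only [z0_eq, z1_eq, dd_eq]); (try ring)) (by repeat' (first | (with_reducible assumption) | (with_reducible apply sub_mem) | (with_reducible apply add_mem) | (with_reducible apply mul_mem) | (with_reducible apply pow_mem) | (with_reducible apply neg_mem) | exact one_mem _ | exact zero_mem _ | exact ofNat_mem _ _))
  have i_zP : z1 k / z0 k ∈ chart k .Pb :=
    mem_of_eq (e := (-(1 / s k)) - ((y k / s k) * (v k / z0 k)))
      (by field_simp; (try simp only [z0_eq]); (try ring)) (by repeat' (first | (with_reducible assumption) | (with_reducible apply sub_mem) | (with_reducible apply add_mem) | (with_reducible apply mul_mem) | (with_reducible apply pow_mem) | (with_reducible apply neg_mem) | exact one_mem _ | exact zero_mem _ | exact ofNat_mem _ _))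
  have i_PQ : P0 k / ((s k ^ 2) * z0 k) ∈ chart k .Pb :=
    mem_of_eq (e := (((1 / s k) ^ 2) * (v k / z0 k)) + ((y k / s k) ^ 2))
      (by field_simp; (try simp only [P0_eq]); (try ring)) (by repeat' (first | (with_reducible assumption) | (with_reducible apply sub_mem) | (with_reducible apply add_mem) | (with_reducible apply mul_mem) | (with_reducible apply pow_mem) | (with_reducible apply neg_mem) | exact one_mem _ | exact zero_mem _ | exact ofNat_mem _ _))
  have j_D1 : 1 / y k ∈ chart k .D := Algebra.subset_adjoin (by simp [gens])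
  have j_D2 : P0 k / ((y k * s k) * z1 k) ∈ chart k .D := Algebra.subset_adjoin (by simp [gens])
  have j_D3 : ((y k ^ 2) * s k) / fb k ∈ chart k .D := Algebra.subset_adjoin (by simp [gens])
  have j_Hi : fb k / F k ∈ chart k .D := Algebra.subset_adjoin (by simp [gens])
  have j_de : fb k / (y k ^ 3) ∈ chart k .D :=
    mem_of_eq (e := 1 - ((1 / y k) ^ 3))
      (by field_simp; (try simp only [fb_eq]); (try ring)) (by repeat' (first | (with_reducible assumption) | (with_reducible apply sub_mem) | (with_reducible apply add_mem) | (with_reducible apply mul_mem) | (with_reducible apply pow_mem) | (with_reducible apply neg_mem) | exact one_mem _ | exact zero_mem _ | exact ofNat_mem _ _))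
  have j_UD : dd k / (y k ^ 3) ∈ chart k .D :=
    mem_of_eq (e := (((fb k / (y k ^ 3)) ^ 3) * ((((y k ^ 2) * s k) / fb k) ^ 3)) - ((1 / y k) ^ 2))
      (by field_simp; (try simp only [dd_eq]); (try ring)) (by repeat' (first | (with_reducible assumption) | (with_reducible apply sub_mem) | (with_reducible apply add_mem) | (with_reducible apply mul_mem) | (with_reducible apply pow_mem) | (with_reducible apply neg_mem) | exact one_mem _ | exact zero_mem _ | exact ofNat_mem _ _))
  have j_b3 : (v k * fb k) / (((y k ^ 2) * s k) * z1 k) ∈ chart k .D :=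
    mem_of_eq (e := -(((1 / y k) * (P0 k / ((y k * s k) * z1 k))) + 1))
      (by field_simp; (try simp only [P0_eq, z0_eq, fb_eq]); (try ring)) (by repeat' (first | (with_reducible assumption) | (with_reducible apply sub_mem) | (with_reducible apply add_mem) | (with_reducible apply mul_mem) | (with_reducible apply pow_mem) | (with_reducible apply neg_mem) | exact one_mem _ | exact zero_mem _ | exact ofNat_mem _ _))
  have j_ND : (-F k) / ((y k ^ 2) * z1 k) ∈ chart k .D :=
    mem_of_eq (e := ((1 / y k) ^ 2) + ((((fb k / (y k ^ 3)) ^ 2) * ((((y k ^ 2) * s k) / fb k) ^ 2)) * ((((y k ^ 2) * s k) / fb k) * ((v k * fb k) / (((y k ^ 2) * s k) * z1 k)))))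
      (by field_simp; (try simp only [z1_eq]); (try ring)) (by repeat' (first | (with_reducible assumption) | (with_reducible apply sub_mem) | (with_reducible apply add_mem) | (with_reducible apply mul_mem) | (with_reducible apply pow_mem) | (with_reducible apply neg_mem) | exact one_mem _ | exact zero_mem _ | exact ofNat_mem _ _))
  have j_HD : F k / fb k ∈ chart k .D :=
    mem_of_eq (e := 1 - (((1 / y k) * (fb k / (y k ^ 3))) * ((((y k ^ 2) * s k) / fb k) ^ 2)))
      (by field_simp; (try simp only [F_eq, fb_eq]); (try ring)) (by repeat' (first | (with_reducible assumption) | (with_reducible apply sub_mem) | (with_reducible apply add_mem) | (with_reducible apply mul_mem) | (with_reducible apply pow_mem) | (with_reducible apply neg_mem) | exact one_mem _ | exact zero_mem _ | exact ofNat_mem _ _))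
  have j_a3 : (fb k * z0 k) / (((y k ^ 2) * s k) * z1 k) ∈ chart k .D :=
    mem_of_eq (e := ((1 / y k) ^ 2) + (P0 k / ((y k * s k) * z1 k)))
      (by field_simp; (try simp only [P0_eq, z0_eq, fb_eq]); (try ring)) (by repeat' (first | (with_reducible assumption) | (with_reducible apply sub_mem) | (with_reducible apply add_mem) | (with_reducible apply mul_mem) | (with_reducible apply pow_mem) | (with_reducible apply neg_mem) | exact one_mem _ | exact zero_mem _ | exact ofNat_mem _ _))
  have i_f : (((y k * fb k) * F k) * z1 k) / ((s k ^ 7) * z0 k) ∈ chart k .Pb :=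
    mem_of_eq (e := (((y k / s k) * (fb k / (s k ^ 3))) * (F k / (s k ^ 3))) * (z1 k / z0 k))
      (by (field_simp <;> ring)) (by repeat' (first | (with_reducible assumption) | (with_reducible apply sub_mem) | (with_reducible apply add_mem) | (with_reducible apply mul_mem) | (with_reducible apply pow_mem) | (with_reducible apply neg_mem) | exact one_mem _ | exact zero_mem _ | exact ofNat_mem _ _))
  have j_g : ((dd k * fb k) * z0 k) / ((y k ^ 6) * z1 k) ∈ chart k .D :=
    mem_of_eq (e := (((((y k ^ 2) * s k) / fb k) * (fb k / (y k ^ 3))) * (dd k / (y k ^ 3))) * ((fb k * z0 k) / (((y k ^ 2) * s k) * z1 k)))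
      (by (field_simp <;> ring)) (by repeat' (first | (with_reducible assumption) | (with_reducible apply sub_mem) | (with_reducible apply add_mem) | (with_reducible apply mul_mem) | (with_reducible apply pow_mem) | (with_reducible apply neg_mem) | exact one_mem _ | exact zero_mem _ | exact ofNat_mem _ _))
  have hi : chart k .Pb ≤ chart k .Pb ⊔ chart k .D := le_sup_left
  have hj : chart k .D ≤ chart k .Pb ⊔ chart k .D := le_sup_right
  have u_i_X1 := hi i_X1
  have u_i_Z := hi i_Z
  have u_i_w3 := hi i_w3
  have u_i_ui := hi i_ui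
  have u_i_De := hi i_De
  have u_i_F1 := hi i_F1
  have u_i_tP := hi i_tP
  have u_i_zP := hi i_zP
  have u_i_PQ := hi i_PQ
  have u_j_D1 := hj j_D1
  have u_j_D2 := hj j_D2
  have u_j_D3 := hj j_D3
  have u_j_Hi := hj j_Hi
  have u_j_de := hj j_de
  have u_j_UD := hj j_UD
  have u_j_b3 := hj j_b3
  have u_j_ND := hj j_ND
  have u_j_HD := hj j_HD
  have u_j_a3 := hj j_a3
  have ef : ((((y k * fb k) * F k) * z1 k) / ((s k ^ 7) * z0 k)) * (((((fb k / (y k ^ 3)) * (((y k ^ 2) * s k) / fb k)) * (((fb k / (y k ^ 3)) ^ 2) * ((((y k ^ 2) * s k) / fb k) ^ 3))) * (((fb k / F k) * ((fb k / (y k ^ 3)) ^ 2)) * ((((y k ^ 2) * s k) / fb k) ^ 3))) * ((((y k ^ 2) * s k) / fb k) * ((fb k * z0 k) / (((y k ^ 2) * s k) * z1 k)))) = 1 := by (field_simp <;> ring)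
  have eg : (((dd k * fb k) * z0 k) / ((y k ^ 6) * z1 k)) * (((((y k / s k) * (fb k / (y k ^ 3))) * ((y k / s k) * (((y k ^ 2) * s k) / fb k))) * (((s k ^ 3) / dd k) * ((y k / s k) ^ 3))) * ((((y k ^ 2) * s k) / fb k) * (z1 k / z0 k))) = 1 := by (field_simp <;> ring)
  have u_fi : ((((y k * fb k) * F k) * z1 k) / ((s k ^ 7) * z0 k))⁻¹ ∈ chart k .Pb ⊔ chart k .D := by
    rw [(ne_inv_of_mul ef).2]; repeat' (first | (with_reducible assumption) | (with_reducible apply sub_mem) | (with_reducible apply add_mem) | (with_reducible apply mul_mem) | (with_reducible apply pow_mem) | (with_reducible apply neg_mem) | exact one_mem _ | exact zero_mem _ | exact ofNat_mem _ _)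
  have u_gi : (((dd k * fb k) * z0 k) / ((y k ^ 6) * z1 k))⁻¹ ∈ chart k .Pb ⊔ chart k .D := by
    rw [(ne_inv_of_mul eg).2]; repeat' (first | (with_reducible assumption) | (with_reducible apply sub_mem) | (with_reducible apply add_mem) | (with_reducible apply mul_mem) | (with_reducible apply pow_mem) | (with_reducible apply neg_mem) | exact one_mem _ | exact zero_mem _ | exact ofNat_mem _ _)
  refine good_chart ((((y k * fb k) * F k) * z1 k) / ((s k ^ 7) * z0 k)) (((dd k * fb k) * z0 k) / ((y k ^ 6) * z1 k)) i_f j_g
    (ne_inv_of_mul ef).1 (ne_inv_of_mul eg).1 u_fi u_gi ?_ ?_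
  · have hle : chart k .Pb ≤ chart k .Pb ⊔ Algebra.adjoin k {((((y k * fb k) * F k) * z1 k) / ((s k ^ 7) * z0 k))⁻¹} := le_sup_left
    have w_X1 := hle i_X1
    have w_Z := hle i_Z
    have w_w3 := hle i_w3
    have w_ui := hle i_ui
    have w_De := hle i_De
    have w_F1 := hle i_F1
    have w_tP := hle i_tP
    have w_zP := hle i_zP
    have w_PQ := hle i_PQ
    have w_inv : ((((y k * fb k) * F k) * z1 k) / ((s k ^ 7) * z0 k))⁻¹ ∈ chart k .Pb ⊔ Algebra.adjoin k {((((y k * fb k) * F k) * z1 k) / ((s k ^ 7) * z0 k))⁻¹} := mem_adjoin_inv _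
    intro x hx
    simp only [gens, Set.mem_insert_iff, Set.mem_singleton_iff] at hx
    rcases hx with rfl | rfl | rfl | rfl
    · exact mem_of_eq (e := ((((1 / s k) * (fb k / (s k ^ 3))) * (F k / (s k ^ 3))) * (z1 k / z0 k)) * ((((y k * fb k) * F k) * z1 k) / ((s k ^ 7) * z0 k))⁻¹)
        (by (field_simp <;> ring)) (by repeat' (first | (with_reducible assumption) | (with_reducible apply sub_mem) | (with_reducible apply add_mem) | (with_reducible apply mul_mem) | (with_reducible apply pow_mem) | (with_reducible apply neg_mem) | exact one_mem _ | exact zero_mem _ | exact ofNat_mem _ _))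
    · exact mem_of_eq (e := (((P0 k / ((s k ^ 2) * z0 k)) * (fb k / (s k ^ 3))) * (F k / (s k ^ 3))) * ((((y k * fb k) * F k) * z1 k) / ((s k ^ 7) * z0 k))⁻¹)
        (by (field_simp <;> ring)) (by repeat' (first | (with_reducible assumption) | (with_reducible apply sub_mem) | (with_reducible apply add_mem) | (with_reducible apply mul_mem) | (with_reducible apply pow_mem) | (with_reducible apply neg_mem) | exact one_mem _ | exact zero_mem _ | exact ofNat_mem _ _))
    · exact mem_of_eq (e := ((y k / s k) ^ 2) * ((((y k / s k) * (F k / (s k ^ 3))) * (z1 k / z0 k)) * ((((y k * fb k) * F k) * z1 k) / ((s k ^ 7) * z0 k))⁻¹))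
        (by (field_simp <;> ring)) (by repeat' (first | (with_reducible assumption) | (with_reducible apply sub_mem) | (with_reducible apply add_mem) | (with_reducible apply mul_mem) | (with_reducible apply pow_mem) | (with_reducible apply neg_mem) | exact one_mem _ | exact zero_mem _ | exact ofNat_mem _ _))
    · exact mem_of_eq (e := (fb k / (s k ^ 3)) * ((((y k / s k) * (fb k / (s k ^ 3))) * (z1 k / z0 k)) * ((((y k * fb k) * F k) * z1 k) / ((s k ^ 7) * z0 k))⁻¹))
        (by (field_simp <;> ring)) (by repeat' (first | (with_reducible assumption) | (with_reducible apply sub_mem) | (with_reducible apply add_mem) | (with_reducible apply mul_mem) | (with_reducible apply pow_mem) | (with_reducible apply neg_mem) | exact one_mem _ | exact zero_mem _ | exact ofNat_mem _ _))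
  · have hle : chart k .D ≤ chart k .D ⊔ Algebra.adjoin k {(((dd k * fb k) * z0 k) / ((y k ^ 6) * z1 k))⁻¹} := le_sup_left
    have w_D1 := hle j_D1
    have w_D2 := hle j_D2
    have w_D3 := hle j_D3
    have w_Hi := hle j_Hi
    have w_de := hle j_de
    have w_UD := hle j_UD
    have w_b3 := hle j_b3
    have w_ND := hle j_ND
    have w_HD := hle j_HD
    have w_a3 := hle j_a3
    have w_inv : (((dd k * fb k) * z0 k) / ((y k ^ 6) * z1 k))⁻¹ ∈ chart k .D ⊔ Algebra.adjoin k {(((dd k * fb k) * z0 k) / ((y k ^ 6) * z1 k))⁻¹} := mem_adjoin_inv _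
    intro x hx
    simp only [gens, Set.mem_insert_iff, Set.mem_singleton_iff] at hx
    rcases hx with rfl | rfl | rfl | rfl
    · exact mem_of_eq (e := (((1 / y k) * (dd k / (y k ^ 3))) * ((fb k * z0 k) / (((y k ^ 2) * s k) * z1 k))) * (((dd k * fb k) * z0 k) / ((y k ^ 6) * z1 k))⁻¹)
        (by (field_simp <;> ring)) (by repeat' (first | (with_reducible assumption) | (with_reducible apply sub_mem) | (with_reducible apply add_mem) | (with_reducible apply mul_mem) | (with_reducible apply pow_mem) | (with_reducible apply neg_mem) | exact one_mem _ | exact zero_mem _ | exact ofNat_mem _ _))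
    · exact mem_of_eq (e := ((dd k / (y k ^ 3)) * ((fb k * z0 k) / (((y k ^ 2) * s k) * z1 k))) * (((dd k * fb k) * z0 k) / ((y k ^ 6) * z1 k))⁻¹)
        (by (field_simp <;> ring)) (by repeat' (first | (with_reducible assumption) | (with_reducible apply sub_mem) | (with_reducible apply add_mem) | (with_reducible apply mul_mem) | (with_reducible apply pow_mem) | (with_reducible apply neg_mem) | exact one_mem _ | exact zero_mem _ | exact ofNat_mem _ _))
    · exact mem_of_eq (e := -(((((-F k) / ((y k ^ 2) * z1 k)) * (fb k / F k)) * (((((y k ^ 2) * s k) / fb k) * (fb k / (y k ^ 3))) * (dd k / (y k ^ 3)))) * (((dd k * fb k) * z0 k) / ((y k ^ 6) * z1 k))⁻¹))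
        (by (field_simp <;> ring)) (by repeat' (first | (with_reducible assumption) | (with_reducible apply sub_mem) | (with_reducible apply add_mem) | (with_reducible apply mul_mem) | (with_reducible apply pow_mem) | (with_reducible apply neg_mem) | exact one_mem _ | exact zero_mem _ | exact ofNat_mem _ _))
    · exact mem_of_eq (e := (((fb k / (y k ^ 3)) ^ 3) * ((((y k ^ 2) * s k) / fb k) ^ 3)) * ((((((y k ^ 2) * s k) / fb k) * (fb k / (y k ^ 3))) * ((fb k * z0 k) / (((y k ^ 2) * s k) * z1 k))) * (((dd k * fb k) * z0 k) / ((y k ^ 6) * z1 k))⁻¹))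
        (by (field_simp <;> ring)) (by repeat' (first | (with_reducible assumption) | (with_reducible apply sub_mem) | (with_reducible apply add_mem) | (with_reducible apply mul_mem) | (with_reducible apply pow_mem) | (with_reducible apply neg_mem) | exact one_mem _ | exact zero_mem _ | exact ofNat_mem _ _))

end Helper50.D71
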