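import Pool.Agent.Helper50.D71.Tac

/-!
# Pairs of charts (generated)
-/

universe u

namespace Helper50.D71

variable (k : Type u) [Field k]

set_option maxHeartbeats 1000000

attribute [local irreducible] s y v fb F z1 z0 P0 dd

theorem good_Q_A : Good (chart k .Q) (chart k .A) := by
  have hs := s_ne k; have hy := y_ne k; have hv := v_ne k; have hfb := fb_ne k
  have hF := F_ne k; have hz1 := z1_ne k; have hz0 := z0_ne k; have hP0 := P0_ne k
  have hdd := dd_ne k
  have i_X : 1 / y k ∈ chart k .Q := Algebra.subset_adjoin (by simp [gens])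
  have i_Y : s k / y k ∈ chart k .Q := Algebra.subset_adjoin (by simp [gens])
  have i_bp : z1 k / z0 k ∈ chart k .Q := Algebra.subset_adjoin (by simp [gens])
  have i_Fi : (y k ^ 3) / F k ∈ chart k .Q := Algebra.subset_adjoin (by simp [gens])
  have i_la : fb k / (y k ^ 3) ∈ chart k .Q :=
    mem_of_eq (e := 1 - ((1 / y k) ^ 3))
      (by field_simp; (try simp only [fb_eq]); (try ring)) (by repeat' (first | (with_reducible assumption) | (with_reducible apply sub_mem) | (with_reducible apply add_mem) | (with_reducible apply mul_mem) | (with_reducible apply pow_mem) | (with_reducible apply neg_mem) | exact one_mem _ | exact zero_mem _ | exact ofNat_mem _ _))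
  have i_pQ : P0 k / ((y k ^ 2) * z0 k) ∈ chart k .Q :=
    mem_of_eq (e := (fb k / (y k ^ 3)) - ((((1 / y k) ^ 2) * (s k / y k)) * (z1 k / z0 k)))
      (by field_simp; (try simp only [P0_eq, z0_eq, fb_eq]); (try ring)) (by repeat' (first | (with_reducible assumption) | (with_reducible apply sub_mem) | (with_reducible apply add_mem) | (with_reducible apply mul_mem) | (with_reducible apply pow_mem) | (with_reducible apply neg_mem) | exact one_mem _ | exact zero_mem _ | exact ofNat_mem _ _))
  have j_A1 : (y k * P0 k) / (fb k * z1 k) ∈ chart k .A := Algebra.subset_adjoin (by simp [gens])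
  have j_A2 : P0 k / (fb k * z1 k) ∈ chart k .A := Algebra.subset_adjoin (by simp [gens])
  have j_A3 : ((s k * fb k) * (z1 k ^ 2)) / (P0 k ^ 2) ∈ chart k .A := Algebra.subset_adjoin (by simp [gens])
  have j_Hi : fb k / F k ∈ chart k .A := Algebra.subset_adjoin (by simp [gens])
  have j_gA : (P0 k ^ 3) / ((fb k ^ 2) * (z1 k ^ 3)) ∈ chart k .A :=
    mem_of_eq (e := (((y k * P0 k) / (fb k * z1 k)) ^ 3) - ((P0 k / (fb k * z1 k)) ^ 3))
      (by field_simp; (try simp only [fb_eq]); (try ring)) (by repeat' (first | (with_reducible assumption) | (with_reducible apply sub_mem) | (with_reducible apply add_mem) | (with_reducible apply mul_mem) | (with_reducible apply pow_mem) | (with_reducible apply neg_mem) | exact one_mem _ | exact zero_mem _ | exact ofNat_mem _ _))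
  have j_aA : z0 k / z1 k ∈ chart k .A :=
    mem_of_eq (e := ((((s k * fb k) * (z1 k ^ 2)) / (P0 k ^ 2)) * ((P0 k / (fb k * z1 k)) ^ 2)) + ((y k * P0 k) / (fb k * z1 k)))
      (by field_simp; (try simp only [P0_eq, z0_eq, fb_eq]); (try ring)) (by repeat' (first | (with_reducible assumption) | (with_reducible apply sub_mem) | (with_reducible apply add_mem) | (with_reducible apply mul_mem) | (with_reducible apply pow_mem) | (with_reducible apply neg_mem) | exact one_mem _ | exact zero_mem _ | exact ofNat_mem _ _))
  have j_HA : F k / fb k ∈ chart k .A :=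
    mem_of_eq (e := (1 - (((((y k * P0 k) / (fb k * z1 k)) ^ 3) * (P0 k / (fb k * z1 k))) * ((((s k * fb k) * (z1 k ^ 2)) / (P0 k ^ 2)) ^ 2))) + (((P0 k / (fb k * z1 k)) ^ 4) * ((((s k * fb k) * (z1 k ^ 2)) / (P0 k ^ 2)) ^ 2)))
      (by field_simp; (try simp only [F_eq, fb_eq]); (try ring)) (by repeat' (first | (with_reducible assumption) | (with_reducible apply sub_mem) | (with_reducible apply add_mem) | (with_reducible apply mul_mem) | (with_reducible apply pow_mem) | (with_reducible apply neg_mem) | exact one_mem _ | exact zero_mem _ | exact ofNat_mem _ _))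
  have i_f : ((z1 k * fb k) * P0 k) / ((y k ^ 5) * (z0 k ^ 2)) ∈ chart k .Q :=
    mem_of_eq (e := ((z1 k / z0 k) * (fb k / (y k ^ 3))) * (P0 k / ((y k ^ 2) * z0 k)))
      (by (field_simp <;> ring)) (by repeat' (first | (with_reducible assumption) | (with_reducible apply sub_mem) | (with_reducible apply add_mem) | (with_reducible apply mul_mem) | (with_reducible apply pow_mem) | (with_reducible apply neg_mem) | exact one_mem _ | exact zero_mem _ | exact ofNat_mem _ _))
  have j_g : ((y k * (P0 k ^ 4)) * z0 k) / ((fb k ^ 3) * (z1 k ^ 5)) ∈ chart k .A :=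
    mem_of_eq (e := (((y k * P0 k) / (fb k * z1 k)) * ((P0 k ^ 3) / ((fb k ^ 2) * (z1 k ^ 3)))) * (z0 k / z1 k))
      (by (field_simp <;> ring)) (by repeat' (first | (with_reducible assumption) | (with_reducible apply sub_mem) | (with_reducible apply add_mem) | (with_reducible apply mul_mem) | (with_reducible apply pow_mem) | (with_reducible apply neg_mem) | exact one_mem _ | exact zero_mem _ | exact ofNat_mem _ _))
  have hi : chart k .Q ≤ chart k .Q ⊔ chart k .A := le_sup_left
  have hj : chart k .A ≤ chart k .Q ⊔ chart k .A := le_sup_right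
  have u_i_X := hi i_X
  have u_i_Y := hi i_Y
  have u_i_bp := hi i_bp
  have u_i_Fi := hi i_Fi
  have u_i_la := hi i_la
  have u_i_pQ := hi i_pQ
  have u_j_A1 := hj j_A1
  have u_j_A2 := hj j_A2
  have u_j_A3 := hj j_A3
  have u_j_Hi := hj j_Hi
  have u_j_gA := hj j_gA
  have u_j_aA := hj j_aA
  have u_j_HA := hj j_HA
  have u_ila : (y k ^ 3) / fb k ∈ chart k .Q ⊔ chart k .A :=
    mem_of_eq (e := ((y k ^ 3) / F k) * (F k / fb k))
      (by (field_simp <;> ring)) (by repeat' (first | (with_reducible assumption) | (with_reducible apply sub_mem) | (with_reducible apply add_mem) | (with_reducible apply mul_mem) | (with_reducible apply pow_mem) | (with_reducible apply neg_mem) | exact one_mem _ | exact zero_mem _ | exact ofNat_mem _ _))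
  have u_ip2 : (fb k * z1 k) / (y k * P0 k) ∈ chart k .Q ⊔ chart k .A :=
    mem_of_eq (e := (z1 k / z0 k) * (1 + ((((y k * P0 k) / (fb k * z1 k)) * (((s k * fb k) * (z1 k ^ 2)) / (P0 k ^ 2))) * ((1 / y k) ^ 2))))
      (by field_simp; (try simp only [P0_eq, z0_eq, fb_eq]); (try ring)) (by repeat' (first | (with_reducible assumption) | (with_reducible apply sub_mem) | (with_reducible apply add_mem) | (with_reducible apply mul_mem) | (with_reducible apply pow_mem) | (with_reducible apply neg_mem) | exact one_mem _ | exact zero_mem _ | exact ofNat_mem _ _))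
  have ef : (((z1 k * fb k) * P0 k) / ((y k ^ 5) * (z0 k ^ 2))) * (((z0 k / z1 k) * ((y k ^ 3) / fb k)) * ((((fb k * z1 k) / (y k * P0 k)) * (z0 k / z1 k)) * ((y k ^ 3) / fb k))) = 1 := by (field_simp <;> ring)
  have eg : (((y k * (P0 k ^ 4)) * z0 k) / ((fb k ^ 3) * (z1 k ^ 5))) * (((((fb k * z1 k) / (y k * P0 k)) ^ 4) * ((y k ^ 3) / fb k)) * (z1 k / z0 k)) = 1 := by (field_simp <;> ring)
  have u_fi : (((z1 k * fb k) * P0 k) / ((y k ^ 5) * (z0 k ^ 2)))⁻¹ ∈ chart k .Q ⊔ chart k .A := by
    rw [(ne_inv_of_mul ef).2]; repeat' (first | (with_reducible assumption) | (with_reducible apply sub_mem) | (with_reducible apply add_mem) | (with_reducible apply mul_mem) | (with_reducible apply pow_mem) | (with_reducible apply neg_mem) | exact one_mem _ | exact zero_mem _ | exact ofNat_mem _ _)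
  have u_gi : (((y k * (P0 k ^ 4)) * z0 k) / ((fb k ^ 3) * (z1 k ^ 5)))⁻¹ ∈ chart k .Q ⊔ chart k .A := by
    rw [(ne_inv_of_mul eg).2]; repeat' (first | (with_reducible assumption) | (with_reducible apply sub_mem) | (with_reducible apply add_mem) | (with_reducible apply mul_mem) | (with_reducible apply pow_mem) | (with_reducible apply neg_mem) | exact one_mem _ | exact zero_mem _ | exact ofNat_mem _ _)
  refine good_chart (((z1 k * fb k) * P0 k) / ((y k ^ 5) * (z0 k ^ 2))) (((y k * (P0 k ^ 4)) * z0 k) / ((fb k ^ 3) * (z1 k ^ 5))) i_f j_g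
    (ne_inv_of_mul ef).1 (ne_inv_of_mul eg).1 u_fi u_gi ?_ ?_
  · have hle : chart k .Q ≤ chart k .Q ⊔ Algebra.adjoin k {(((z1 k * fb k) * P0 k) / ((y k ^ 5) * (z0 k ^ 2)))⁻¹} := le_sup_left
    have w_X := hle i_X
    have w_Y := hle i_Y
    have w_bp := hle i_bp
    have w_Fi := hle i_Fi
    have w_la := hle i_la
    have w_pQ := hle i_pQ
    have w_inv : (((z1 k * fb k) * P0 k) / ((y k ^ 5) * (z0 k ^ 2)))⁻¹ ∈ chart k .Q ⊔ Algebra.adjoin k {(((z1 k * fb k) * P0 k) / ((y k ^ 5) * (z0 k ^ 2)))⁻¹} := mem_adjoin_inv _
    intro x hx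
    simp only [gens, Set.mem_insert_iff, Set.mem_singleton_iff] at hx
    rcases hx with rfl | rfl | rfl | rfl
    · exact mem_of_eq (e := ((P0 k / ((y k ^ 2) * z0 k)) ^ 2) * (((z1 k * fb k) * P0 k) / ((y k ^ 5) * (z0 k ^ 2)))⁻¹)
        (by (field_simp <;> ring)) (by repeat' (first | (with_reducible assumption) | (with_reducible apply sub_mem) | (with_reducible apply add_mem) | (with_reducible apply mul_mem) | (with_reducible apply pow_mem) | (with_reducible apply neg_mem) | exact one_mem _ | exact zero_mem _ | exact ofNat_mem _ _))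
    · exact mem_of_eq (e := (1 / y k) * (((P0 k / ((y k ^ 2) * z0 k)) ^ 2) * (((z1 k * fb k) * P0 k) / ((y k ^ 5) * (z0 k ^ 2)))⁻¹))
        (by (field_simp <;> ring)) (by repeat' (first | (with_reducible assumption) | (with_reducible apply sub_mem) | (with_reducible apply add_mem) | (with_reducible apply mul_mem) | (with_reducible apply pow_mem) | (with_reducible apply neg_mem) | exact one_mem _ | exact zero_mem _ | exact ofNat_mem _ _))
    · exact mem_of_eq (e := (((s k / y k) * (fb k / (y k ^ 3))) * ((z1 k / z0 k) ^ 2)) * ((((z1 k / z0 k) * (fb k / (y k ^ 3))) * (((z1 k * fb k) * P0 k) / ((y k ^ 5) * (z0 k ^ 2)))⁻¹) ^ 2))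
        (by (field_simp <;> ring)) (by repeat' (first | (with_reducible assumption) | (with_reducible apply sub_mem) | (with_reducible apply add_mem) | (with_reducible apply mul_mem) | (with_reducible apply pow_mem) | (with_reducible apply neg_mem) | exact one_mem _ | exact zero_mem _ | exact ofNat_mem _ _))
    · exact mem_of_eq (e := (fb k / (y k ^ 3)) * ((y k ^ 3) / F k))
        (by (field_simp <;> ring)) (by repeat' (first | (with_reducible assumption) | (with_reducible apply sub_mem) | (with_reducible apply add_mem) | (with_reducible apply mul_mem) | (with_reducible apply pow_mem) | (with_reducible apply neg_mem) | exact one_mem _ | exact zero_mem _ | exact ofNat_mem _ _))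
  · have hle : chart k .A ≤ chart k .A ⊔ Algebra.adjoin k {(((y k * (P0 k ^ 4)) * z0 k) / ((fb k ^ 3) * (z1 k ^ 5)))⁻¹} := le_sup_left
    have w_A1 := hle j_A1
    have w_A2 := hle j_A2
    have w_A3 := hle j_A3
    have w_Hi := hle j_Hi
    have w_gA := hle j_gA
    have w_aA := hle j_aA
    have w_HA := hle j_HA
    have w_inv : (((y k * (P0 k ^ 4)) * z0 k) / ((fb k ^ 3) * (z1 k ^ 5)))⁻¹ ∈ chart k .A ⊔ Algebra.adjoin k {(((y k * (P0 k ^ 4)) * z0 k) / ((fb k ^ 3) * (z1 k ^ 5)))⁻¹} := mem_adjoin_inv _
    intro x hx
    simp only [gens, Set.mem_insert_iff, Set.mem_singleton_iff] at hx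
    rcases hx with rfl | rfl | rfl | rfl
    · exact mem_of_eq (e := (((P0 k / (fb k * z1 k)) * ((P0 k ^ 3) / ((fb k ^ 2) * (z1 k ^ 3)))) * (z0 k / z1 k)) * (((y k * (P0 k ^ 4)) * z0 k) / ((fb k ^ 3) * (z1 k ^ 5)))⁻¹)
        (by (field_simp <;> ring)) (by repeat' (first | (with_reducible assumption) | (with_reducible apply sub_mem) | (with_reducible apply add_mem) | (with_reducible apply mul_mem) | (with_reducible apply pow_mem) | (with_reducible apply neg_mem) | exact one_mem _ | exact zero_mem _ | exact ofNat_mem _ _))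
    · exact mem_of_eq (e := ((((s k * fb k) * (z1 k ^ 2)) / (P0 k ^ 2)) * ((P0 k ^ 3) / ((fb k ^ 2) * (z1 k ^ 3)))) * ((((P0 k ^ 3) / ((fb k ^ 2) * (z1 k ^ 3))) * (z0 k / z1 k)) * (((y k * (P0 k ^ 4)) * z0 k) / ((fb k ^ 3) * (z1 k ^ 5)))⁻¹))
        (by (field_simp <;> ring)) (by repeat' (first | (with_reducible assumption) | (with_reducible apply sub_mem) | (with_reducible apply add_mem) | (with_reducible apply mul_mem) | (with_reducible apply pow_mem) | (with_reducible apply neg_mem) | exact one_mem _ | exact zero_mem _ | exact ofNat_mem _ _))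
    · exact mem_of_eq (e := (((y k * P0 k) / (fb k * z1 k)) * ((P0 k ^ 3) / ((fb k ^ 2) * (z1 k ^ 3)))) * (((y k * (P0 k ^ 4)) * z0 k) / ((fb k ^ 3) * (z1 k ^ 5)))⁻¹)
        (by (field_simp <;> ring)) (by repeat' (first | (with_reducible assumption) | (with_reducible apply sub_mem) | (with_reducible apply add_mem) | (with_reducible apply mul_mem) | (with_reducible apply pow_mem) | (with_reducible apply neg_mem) | exact one_mem _ | exact zero_mem _ | exact ofNat_mem _ _))
    · exact mem_of_eq (e := ((fb k / F k) * (((y k * P0 k) / (fb k * z1 k)) ^ 3)) * ((((y k * P0 k) / (fb k * z1 k)) * (z0 k / z1 k)) * (((y k * (P0 k ^ 4)) * z0 k) / ((fb k ^ 3) * (z1 k ^ 5)))⁻¹))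
        (by (field_simp <;> ring)) (by repeat' (first | (with_reducible assumption) | (with_reducible apply sub_mem) | (with_reducible apply add_mem) | (with_reducible apply mul_mem) | (with_reducible apply pow_mem) | (with_reducible apply neg_mem) | exact one_mem _ | exact zero_mem _ | exact ofNat_mem _ _))

theorem good_Q_D : Good (chart k .Q) (chart k .D) := by
  have hs := s_ne k; have hy := y_ne k; have hv := v_ne k; have hfb := fb_ne k
  have hF := F_ne k; have hz1 := z1_ne k; have hz0 := z0_ne k; have hP0 := P0_ne k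
  have hdd := dd_ne k
  have i_X : 1 / y k ∈ chart k .Q := Algebra.subset_adjoin (by simp [gens])
  have i_Y : s k / y k ∈ chart k .Q := Algebra.subset_adjoin (by simp [gens])
  have i_bp : z1 k / z0 k ∈ chart k .Q := Algebra.subset_adjoin (by simp [gens])
  have i_Fi : (y k ^ 3) / F k ∈ chart k .Q := Algebra.subset_adjoin (by simp [gens])
  have i_la : fb k / (y k ^ 3) ∈ chart k .Q :=
    mem_of_eq (e := 1 - ((1 / y k) ^ 3))
      (by field_simp; (try simp only [fb_eq]); (try ring)) (by repeat' (first | (with_reducible assumption) | (with_reducible apply sub_mem) | (with_reducible apply add_mem) | (with_reducible apply mul_mem) | (with_reducible apply pow_mem) | (with_reducible apply neg_mem) | exact one_mem _ | exact zero_mem _ | exact ofNat_mem _ _))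
  have j_D1 : 1 / y k ∈ chart k .D := Algebra.subset_adjoin (by simp [gens])
  have j_D2 : P0 k / ((y k * s k) * z1 k) ∈ chart k .D := Algebra.subset_adjoin (by simp [gens])
  have j_D3 : ((y k ^ 2) * s k) / fb k ∈ chart k .D := Algebra.subset_adjoin (by simp [gens])
  have j_Hi : fb k / F k ∈ chart k .D := Algebra.subset_adjoin (by simp [gens])
  have j_de : fb k / (y k ^ 3) ∈ chart k .D :=
    mem_of_eq (e := 1 - ((1 / y k) ^ 3))
      (by field_simp; (try simp only [fb_eq]); (try ring)) (by repeat' (first | (with_reducible assumption) | (with_reducible apply sub_mem) | (with_reducible apply add_mem) | (with_reducible apply mul_mem) | (with_reducible apply pow_mem) | (with_reducible apply neg_mem) | exact one_mem _ | exact zero_mem _ | exact ofNat_mem _ _))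
  have j_HD : F k / fb k ∈ chart k .D :=
    mem_of_eq (e := 1 - (((1 / y k) * (fb k / (y k ^ 3))) * ((((y k ^ 2) * s k) / fb k) ^ 2)))
      (by field_simp; (try simp only [F_eq, fb_eq]); (try ring)) (by repeat' (first | (with_reducible assumption) | (with_reducible apply sub_mem) | (with_reducible apply add_mem) | (with_reducible apply mul_mem) | (with_reducible apply pow_mem) | (with_reducible apply neg_mem) | exact one_mem _ | exact zero_mem _ | exact ofNat_mem _ _))
  have j_a3 : (fb k * z0 k) / (((y k ^ 2) * s k) * z1 k) ∈ chart k .D :=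
    mem_of_eq (e := ((1 / y k) ^ 2) + (P0 k / ((y k * s k) * z1 k)))
      (by field_simp; (try simp only [P0_eq, z0_eq, fb_eq]); (try ring)) (by repeat' (first | (with_reducible assumption) | (with_reducible apply sub_mem) | (with_reducible apply add_mem) | (with_reducible apply mul_mem) | (with_reducible apply pow_mem) | (with_reducible apply neg_mem) | exact one_mem _ | exact zero_mem _ | exact ofNat_mem _ _))
  have i_f : ((s k * z1 k) * fb k) / ((y k ^ 4) * z0 k) ∈ chart k .Q :=
    mem_of_eq (e := ((s k / y k) * (z1 k / z0 k)) * (fb k / (y k ^ 3)))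
      (by (field_simp <;> ring)) (by repeat' (first | (with_reducible assumption) | (with_reducible apply sub_mem) | (with_reducible apply add_mem) | (with_reducible apply mul_mem) | (with_reducible apply pow_mem) | (with_reducible apply neg_mem) | exact one_mem _ | exact zero_mem _ | exact ofNat_mem _ _))
  have j_g : (z0 k * fb k) / ((y k ^ 3) * z1 k) ∈ chart k .D :=
    mem_of_eq (e := ((((y k ^ 2) * s k) / fb k) * ((fb k * z0 k) / (((y k ^ 2) * s k) * z1 k))) * (fb k / (y k ^ 3)))
      (by (field_simp <;> ring)) (by repeat' (first | (with_reducible assumption) | (with_reducible apply sub_mem) | (with_reducible apply add_mem) | (with_reducible apply mul_mem) | (with_reducible apply pow_mem) | (with_reducible apply neg_mem) | exact one_mem _ | exact zero_mem _ | exact ofNat_mem _ _))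
  have hi : chart k .Q ≤ chart k .Q ⊔ chart k .D := le_sup_left
  have hj : chart k .D ≤ chart k .Q ⊔ chart k .D := le_sup_right
  have u_i_X := hi i_X
  have u_i_Y := hi i_Y
  have u_i_bp := hi i_bp
  have u_i_Fi := hi i_Fi
  have u_i_la := hi i_la
  have u_j_D1 := hj j_D1
  have u_j_D2 := hj j_D2
  have u_j_D3 := hj j_D3
  have u_j_Hi := hj j_Hi
  have u_j_de := hj j_de
  have u_j_HD := hj j_HD
  have u_j_a3 := hj j_a3
  have u_ila : (y k ^ 3) / fb k ∈ chart k .Q ⊔ chart k .D :=
    mem_of_eq (e := ((y k ^ 3) / F k) * (F k / fb k))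
      (by (field_simp <;> ring)) (by repeat' (first | (with_reducible assumption) | (with_reducible apply sub_mem) | (with_reducible apply add_mem) | (with_reducible apply mul_mem) | (with_reducible apply pow_mem) | (with_reducible apply neg_mem) | exact one_mem _ | exact zero_mem _ | exact ofNat_mem _ _))
  have ef : (((s k * z1 k) * fb k) / ((y k ^ 4) * z0 k)) * (((((y k ^ 3) / fb k) * (((fb k * z0 k) / (((y k ^ 2) * s k) * z1 k)) * (z1 k / z0 k))) * ((((y k ^ 2) * s k) / fb k) * ((fb k * z0 k) / (((y k ^ 2) * s k) * z1 k)))) * ((y k ^ 3) / fb k)) = 1 := by (field_simp <;> ring)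
  have eg : ((z0 k * fb k) / ((y k ^ 3) * z1 k)) * ((z1 k / z0 k) * ((y k ^ 3) / fb k)) = 1 := by (field_simp <;> ring)
  have u_fi : (((s k * z1 k) * fb k) / ((y k ^ 4) * z0 k))⁻¹ ∈ chart k .Q ⊔ chart k .D := by
    rw [(ne_inv_of_mul ef).2]; repeat' (first | (with_reducible assumption) | (with_reducible apply sub_mem) | (with_reducible apply add_mem) | (with_reducible apply mul_mem) | (with_reducible apply pow_mem) | (with_reducible apply neg_mem) | exact one_mem _ | exact zero_mem _ | exact ofNat_mem _ _)
  have u_gi : ((z0 k * fb k) / ((y k ^ 3) * z1 k))⁻¹ ∈ chart k .Q ⊔ chart k .D := by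
    rw [(ne_inv_of_mul eg).2]; repeat' (first | (with_reducible assumption) | (with_reducible apply sub_mem) | (with_reducible apply add_mem) | (with_reducible apply mul_mem) | (with_reducible apply pow_mem) | (with_reducible apply neg_mem) | exact one_mem _ | exact zero_mem _ | exact ofNat_mem _ _)
  refine good_chart (((s k * z1 k) * fb k) / ((y k ^ 4) * z0 k)) ((z0 k * fb k) / ((y k ^ 3) * z1 k)) i_f j_g
    (ne_inv_of_mul ef).1 (ne_inv_of_mul eg).1 u_fi u_gi ?_ ?_
  · have hle : chart k .Q ≤ chart k .Q ⊔ Algebra.adjoin k {(((s k * z1 k) * fb k) / ((y k ^ 4) * z0 k))⁻¹} := le_sup_left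
    have w_X := hle i_X
    have w_Y := hle i_Y
    have w_bp := hle i_bp
    have w_Fi := hle i_Fi
    have w_la := hle i_la
    have w_inv : (((s k * z1 k) * fb k) / ((y k ^ 4) * z0 k))⁻¹ ∈ chart k .Q ⊔ Algebra.adjoin k {(((s k * z1 k) * fb k) / ((y k ^ 4) * z0 k))⁻¹} := mem_adjoin_inv _
    intro x hx
    simp only [gens, Set.mem_insert_iff, Set.mem_singleton_iff] at hx
    rcases hx with rfl | rfl | rfl | rfl
    · exact mem_of_eq (e := 1 / y k)
        (by (field_simp <;> ring)) (by repeat' (first | (with_reducible assumption) | (with_reducible apply sub_mem) | (with_reducible apply add_mem) | (with_reducible apply mul_mem) | (with_reducible apply pow_mem) | (with_reducible apply neg_mem) | exact one_mem _ | exact zero_mem _ | exact ofNat_mem _ _))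
    · exact mem_of_eq (e := (-((1 / y k) ^ 2)) + (((fb k / (y k ^ 3)) * (fb k / (y k ^ 3))) * (((s k * z1 k) * fb k) / ((y k ^ 4) * z0 k))⁻¹))
        (by field_simp; (try simp only [P0_eq, z0_eq, fb_eq]); (try ring)) (by repeat' (first | (with_reducible assumption) | (with_reducible apply sub_mem) | (with_reducible apply add_mem) | (with_reducible apply mul_mem) | (with_reducible apply pow_mem) | (with_reducible apply neg_mem) | exact one_mem _ | exact zero_mem _ | exact ofNat_mem _ _))
    · exact mem_of_eq (e := ((s k / y k) * ((s k / y k) * (z1 k / z0 k))) * (((s k * z1 k) * fb k) / ((y k ^ 4) * z0 k))⁻¹)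
        (by (field_simp <;> ring)) (by repeat' (first | (with_reducible assumption) | (with_reducible apply sub_mem) | (with_reducible apply add_mem) | (with_reducible apply mul_mem) | (with_reducible apply pow_mem) | (with_reducible apply neg_mem) | exact one_mem _ | exact zero_mem _ | exact ofNat_mem _ _))
    · exact mem_of_eq (e := (fb k / (y k ^ 3)) * ((y k ^ 3) / F k))
        (by (field_simp <;> ring)) (by repeat' (first | (with_reducible assumption) | (with_reducible apply sub_mem) | (with_reducible apply add_mem) | (with_reducible apply mul_mem) | (with_reducible apply pow_mem) | (with_reducible apply neg_mem) | exact one_mem _ | exact zero_mem _ | exact ofNat_mem _ _))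
  · have hle : chart k .D ≤ chart k .D ⊔ Algebra.adjoin k {((z0 k * fb k) / ((y k ^ 3) * z1 k))⁻¹} := le_sup_left
    have w_D1 := hle j_D1
    have w_D2 := hle j_D2
    have w_D3 := hle j_D3
    have w_Hi := hle j_Hi
    have w_de := hle j_de
    have w_HD := hle j_HD
    have w_a3 := hle j_a3
    have w_inv : ((z0 k * fb k) / ((y k ^ 3) * z1 k))⁻¹ ∈ chart k .D ⊔ Algebra.adjoin k {((z0 k * fb k) / ((y k ^ 3) * z1 k))⁻¹} := mem_adjoin_inv _
    intro x hx
    simp only [gens, Set.mem_insert_iff, Set.mem_singleton_iff] at hx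
    rcases hx with rfl | rfl | rfl | rfl
    · exact mem_of_eq (e := 1 / y k)
        (by (field_simp <;> ring)) (by repeat' (first | (with_reducible assumption) | (with_reducible apply sub_mem) | (with_reducible apply add_mem) | (with_reducible apply mul_mem) | (with_reducible apply pow_mem) | (with_reducible apply neg_mem) | exact one_mem _ | exact zero_mem _ | exact ofNat_mem _ _))
    · exact mem_of_eq (e := (fb k / (y k ^ 3)) * (((y k ^ 2) * s k) / fb k))
        (by (field_simp <;> ring)) (by repeat' (first | (with_reducible assumption) | (with_reducible apply sub_mem) | (with_reducible apply add_mem) | (with_reducible apply mul_mem) | (with_reducible apply pow_mem) | (with_reducible apply neg_mem) | exact one_mem _ | exact zero_mem _ | exact ofNat_mem _ _))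
    · exact mem_of_eq (e := (fb k / (y k ^ 3)) * ((z0 k * fb k) / ((y k ^ 3) * z1 k))⁻¹)
        (by (field_simp <;> ring)) (by repeat' (first | (with_reducible assumption) | (with_reducible apply sub_mem) | (with_reducible apply add_mem) | (with_reducible apply mul_mem) | (with_reducible apply pow_mem) | (with_reducible apply neg_mem) | exact one_mem _ | exact zero_mem _ | exact ofNat_mem _ _))
    · exact mem_of_eq (e := (fb k / F k) * (((((y k ^ 2) * s k) / fb k) * ((fb k * z0 k) / (((y k ^ 2) * s k) * z1 k))) * ((z0 k * fb k) / ((y k ^ 3) * z1 k))⁻¹))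
        (by (field_simp <;> ring)) (by repeat' (first | (with_reducible assumption) | (with_reducible apply sub_mem) | (with_reducible apply add_mem) | (with_reducible apply mul_mem) | (with_reducible apply pow_mem) | (with_reducible apply neg_mem) | exact one_mem _ | exact zero_mem _ | exact ofNat_mem _ _))

end Helper50.D71
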