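import Pool.Agent.Helper50.D71.Tac

/-!
# Pairs of charts (generated)
-/

universe u

namespace Helper50.D71

variable (k : Type u) [Field k]

set_option maxHeartbeats 1000000

attribute [local irreducible] s y v fb F z1 z0 P0 dd

theorem good_A_B : Good (chart k .A) (chart k .B) := by
  have hs := s_ne k; have hy := y_ne k; have hv := v_ne k; have hfb := fb_ne k
  have hF := F_ne k; have hz1 := z1_ne k; have hz0 := z0_ne k; have hP0 := P0_ne k
  have hdd := dd_ne k
  have i_A1 : (y k * P0 k) / (fb k * z1 k) ∈ chart k .A := Algebra.subset_adjoin (by simp [gens])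
  have i_A2 : P0 k / (fb k * z1 k) ∈ chart k .A := Algebra.subset_adjoin (by simp [gens])
  have i_A3 : ((s k * fb k) * (z1 k ^ 2)) / (P0 k ^ 2) ∈ chart k .A := Algebra.subset_adjoin (by simp [gens])
  have i_Hi : fb k / F k ∈ chart k .A := Algebra.subset_adjoin (by simp [gens])
  have j_B1 : ((y k * s k) * z1 k) / P0 k ∈ chart k .B := Algebra.subset_adjoin (by simp [gens])
  have j_B2 : (s k * z1 k) / P0 k ∈ chart k .B := Algebra.subset_adjoin (by simp [gens])
  have j_B3 : (P0 k ^ 2) / ((s k * fb k) * (z1 k ^ 2)) ∈ chart k .B := Algebra.subset_adjoin (by simp [gens])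
  have j_Hi : fb k / F k ∈ chart k .B := Algebra.subset_adjoin (by simp [gens])
  have i_f : ((s k * fb k) * (z1 k ^ 2)) / (P0 k ^ 2) ∈ chart k .A :=
    mem_of_eq (e := ((s k * fb k) * (z1 k ^ 2)) / (P0 k ^ 2))
      (by (field_simp <;> ring)) (by repeat' (first | (with_reducible assumption) | (with_reducible apply sub_mem) | (with_reducible apply add_mem) | (with_reducible apply mul_mem) | (with_reducible apply pow_mem) | (with_reducible apply neg_mem) | exact one_mem _ | exact zero_mem _ | exact ofNat_mem _ _))
  have j_g : (P0 k ^ 2) / ((s k * fb k) * (z1 k ^ 2)) ∈ chart k .B :=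
    mem_of_eq (e := (P0 k ^ 2) / ((s k * fb k) * (z1 k ^ 2)))
      (by (field_simp <;> ring)) (by repeat' (first | (with_reducible assumption) | (with_reducible apply sub_mem) | (with_reducible apply add_mem) | (with_reducible apply mul_mem) | (with_reducible apply pow_mem) | (with_reducible apply neg_mem) | exact one_mem _ | exact zero_mem _ | exact ofNat_mem _ _))
  have hi : chart k .A ≤ chart k .A ⊔ chart k .B := le_sup_left
  have hj : chart k .B ≤ chart k .A ⊔ chart k .B := le_sup_right
  have u_i_A1 := hi i_A1
  have u_i_A2 := hi i_A2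
  have u_i_A3 := hi i_A3
  have u_i_Hi := hi i_Hi
  have u_j_B1 := hj j_B1
  have u_j_B2 := hj j_B2
  have u_j_B3 := hj j_B3
  have u_j_Hi := hj j_Hi
  have ef : (((s k * fb k) * (z1 k ^ 2)) / (P0 k ^ 2)) * ((P0 k ^ 2) / ((s k * fb k) * (z1 k ^ 2))) = 1 := by (field_simp <;> ring)
  have eg : ((P0 k ^ 2) / ((s k * fb k) * (z1 k ^ 2))) * (((s k * fb k) * (z1 k ^ 2)) / (P0 k ^ 2)) = 1 := by (field_simp <;> ring)
  have u_fi : (((s k * fb k) * (z1 k ^ 2)) / (P0 k ^ 2))⁻¹ ∈ chart k .A ⊔ chart k .B := by
    rw [(ne_inv_of_mul ef).2]; repeat' (first | (with_reducible assumption) | (with_reducible apply sub_mem) | (with_reducible apply add_mem) | (with_reducible apply mul_mem) | (with_reducible apply pow_mem) | (with_reducible apply neg_mem) | exact one_mem _ | exact zero_mem _ | exact ofNat_mem _ _)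
  have u_gi : ((P0 k ^ 2) / ((s k * fb k) * (z1 k ^ 2)))⁻¹ ∈ chart k .A ⊔ chart k .B := by
    rw [(ne_inv_of_mul eg).2]; repeat' (first | (with_reducible assumption) | (with_reducible apply sub_mem) | (with_reducible apply add_mem) | (with_reducible apply mul_mem) | (with_reducible apply pow_mem) | (with_reducible apply neg_mem) | exact one_mem _ | exact zero_mem _ | exact ofNat_mem _ _)
  refine good_chart (((s k * fb k) * (z1 k ^ 2)) / (P0 k ^ 2)) ((P0 k ^ 2) / ((s k * fb k) * (z1 k ^ 2))) i_f j_g
    (ne_inv_of_mul ef).1 (ne_inv_of_mul eg).1 u_fi u_gi ?_ ?_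
  · have hle : chart k .A ≤ chart k .A ⊔ Algebra.adjoin k {(((s k * fb k) * (z1 k ^ 2)) / (P0 k ^ 2))⁻¹} := le_sup_left
    have w_A1 := hle i_A1
    have w_A2 := hle i_A2
    have w_A3 := hle i_A3
    have w_Hi := hle i_Hi
    have w_inv : (((s k * fb k) * (z1 k ^ 2)) / (P0 k ^ 2))⁻¹ ∈ chart k .A ⊔ Algebra.adjoin k {(((s k * fb k) * (z1 k ^ 2)) / (P0 k ^ 2))⁻¹} := mem_adjoin_inv _
    intro x hx
    simp only [gens, Set.mem_insert_iff, Set.mem_singleton_iff] at hx
    rcases hx with rfl | rfl | rfl | rfl
    · exact mem_of_eq (e := ((y k * P0 k) / (fb k * z1 k)) * (((s k * fb k) * (z1 k ^ 2)) / (P0 k ^ 2)))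
        (by (field_simp <;> ring)) (by repeat' (first | (with_reducible assumption) | (with_reducible apply sub_mem) | (with_reducible apply add_mem) | (with_reducible apply mul_mem) | (with_reducible apply pow_mem) | (with_reducible apply neg_mem) | exact one_mem _ | exact zero_mem _ | exact ofNat_mem _ _))
    · exact mem_of_eq (e := (P0 k / (fb k * z1 k)) * (((s k * fb k) * (z1 k ^ 2)) / (P0 k ^ 2)))
        (by (field_simp <;> ring)) (by repeat' (first | (with_reducible assumption) | (with_reducible apply sub_mem) | (with_reducible apply add_mem) | (with_reducible apply mul_mem) | (with_reducible apply pow_mem) | (with_reducible apply neg_mem) | exact one_mem _ | exact zero_mem _ | exact ofNat_mem _ _))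
    · exact mem_of_eq (e := (((s k * fb k) * (z1 k ^ 2)) / (P0 k ^ 2))⁻¹)
        (by (field_simp <;> ring)) (by repeat' (first | (with_reducible assumption) | (with_reducible apply sub_mem) | (with_reducible apply add_mem) | (with_reducible apply mul_mem) | (with_reducible apply pow_mem) | (with_reducible apply neg_mem) | exact one_mem _ | exact zero_mem _ | exact ofNat_mem _ _))
    · exact mem_of_eq (e := fb k / F k)
        (by (field_simp <;> ring)) (by repeat' (first | (with_reducible assumption) | (with_reducible apply sub_mem) | (with_reducible apply add_mem) | (with_reducible apply mul_mem) | (with_reducible apply pow_mem) | (with_reducible apply neg_mem) | exact one_mem _ | exact zero_mem _ | exact ofNat_mem _ _))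
  · have hle : chart k .B ≤ chart k .B ⊔ Algebra.adjoin k {((P0 k ^ 2) / ((s k * fb k) * (z1 k ^ 2)))⁻¹} := le_sup_left
    have w_B1 := hle j_B1
    have w_B2 := hle j_B2
    have w_B3 := hle j_B3
    have w_Hi := hle j_Hi
    have w_inv : ((P0 k ^ 2) / ((s k * fb k) * (z1 k ^ 2)))⁻¹ ∈ chart k .B ⊔ Algebra.adjoin k {((P0 k ^ 2) / ((s k * fb k) * (z1 k ^ 2)))⁻¹} := mem_adjoin_inv _
    intro x hx
    simp only [gens, Set.mem_insert_iff, Set.mem_singleton_iff] at hx
    rcases hx with rfl | rfl | rfl | rfl
    · exact mem_of_eq (e := (((y k * s k) * z1 k) / P0 k) * ((P0 k ^ 2) / ((s k * fb k) * (z1 k ^ 2))))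
        (by (field_simp <;> ring)) (by repeat' (first | (with_reducible assumption) | (with_reducible apply sub_mem) | (with_reducible apply add_mem) | (with_reducible apply mul_mem) | (with_reducible apply pow_mem) | (with_reducible apply neg_mem) | exact one_mem _ | exact zero_mem _ | exact ofNat_mem _ _))
    · exact mem_of_eq (e := ((s k * z1 k) / P0 k) * ((P0 k ^ 2) / ((s k * fb k) * (z1 k ^ 2))))
        (by (field_simp <;> ring)) (by repeat' (first | (with_reducible assumption) | (with_reducible apply sub_mem) | (with_reducible apply add_mem) | (with_reducible apply mul_mem) | (with_reducible apply pow_mem) | (with_reducible apply neg_mem) | exact one_mem _ | exact zero_mem _ | exact ofNat_mem _ _))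
    · exact mem_of_eq (e := ((P0 k ^ 2) / ((s k * fb k) * (z1 k ^ 2)))⁻¹)
        (by (field_simp <;> ring)) (by repeat' (first | (with_reducible assumption) | (with_reducible apply sub_mem) | (with_reducible apply add_mem) | (with_reducible apply mul_mem) | (with_reducible apply pow_mem) | (with_reducible apply neg_mem) | exact one_mem _ | exact zero_mem _ | exact ofNat_mem _ _))
    · exact mem_of_eq (e := fb k / F k)
        (by (field_simp <;> ring)) (by repeat' (first | (with_reducible assumption) | (with_reducible apply sub_mem) | (with_reducible apply add_mem) | (with_reducible apply mul_mem) | (with_reducible apply pow_mem) | (with_reducible apply neg_mem) | exact one_mem _ | exact zero_mem _ | exact ofNat_mem _ _))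

theorem good_B_C : Good (chart k .B) (chart k .C) := by
  have hs := s_ne k; have hy := y_ne k; have hv := v_ne k; have hfb := fb_ne k
  have hF := F_ne k; have hz1 := z1_ne k; have hz0 := z0_ne k; have hP0 := P0_ne k
  have hdd := dd_ne k
  have i_B1 : ((y k * s k) * z1 k) / P0 k ∈ chart k .B := Algebra.subset_adjoin (by simp [gens])
  have i_B2 : (s k * z1 k) / P0 k ∈ chart k .B := Algebra.subset_adjoin (by simp [gens])
  have i_B3 : (P0 k ^ 2) / ((s k * fb k) * (z1 k ^ 2)) ∈ chart k .B := Algebra.subset_adjoin (by simp [gens])
  have i_Hi : fb k / F k ∈ chart k .B := Algebra.subset_adjoin (by simp [gens])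
  have j_C1 : y k ∈ chart k .C := Algebra.subset_adjoin (by simp [gens])
  have j_C2 : P0 k / (s k * z1 k) ∈ chart k .C := Algebra.subset_adjoin (by simp [gens])
  have j_C3 : s k / fb k ∈ chart k .C := Algebra.subset_adjoin (by simp [gens])
  have j_Hi : fb k / F k ∈ chart k .C := Algebra.subset_adjoin (by simp [gens])
  have i_f : (s k * z1 k) / P0 k ∈ chart k .B :=
    mem_of_eq (e := (s k * z1 k) / P0 k)
      (by (field_simp <;> ring)) (by repeat' (first | (with_reducible assumption) | (with_reducible apply sub_mem) | (with_reducible apply add_mem) | (with_reducible apply mul_mem) | (with_reducible apply pow_mem) | (with_reducible apply neg_mem) | exact one_mem _ | exact zero_mem _ | exact ofNat_mem _ _))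
  have j_g : P0 k / (s k * z1 k) ∈ chart k .C :=
    mem_of_eq (e := P0 k / (s k * z1 k))
      (by (field_simp <;> ring)) (by repeat' (first | (with_reducible assumption) | (with_reducible apply sub_mem) | (with_reducible apply add_mem) | (with_reducible apply mul_mem) | (with_reducible apply pow_mem) | (with_reducible apply neg_mem) | exact one_mem _ | exact zero_mem _ | exact ofNat_mem _ _))
  have hi : chart k .B ≤ chart k .B ⊔ chart k .C := le_sup_left
  have hj : chart k .C ≤ chart k .B ⊔ chart k .C := le_sup_right
  have u_i_B1 := hi i_B1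
  have u_i_B2 := hi i_B2
  have u_i_B3 := hi i_B3
  have u_i_Hi := hi i_Hi
  have u_j_C1 := hj j_C1
  have u_j_C2 := hj j_C2
  have u_j_C3 := hj j_C3
  have u_j_Hi := hj j_Hi
  have ef : ((s k * z1 k) / P0 k) * (P0 k / (s k * z1 k)) = 1 := by (field_simp <;> ring)
  have eg : (P0 k / (s k * z1 k)) * ((s k * z1 k) / P0 k) = 1 := by (field_simp <;> ring)
  have u_fi : ((s k * z1 k) / P0 k)⁻¹ ∈ chart k .B ⊔ chart k .C := by
    rw [(ne_inv_of_mul ef).2]; repeat' (first | (with_reducible assumption) | (with_reducible apply sub_mem) | (with_reducible apply add_mem) | (with_reducible apply mul_mem) | (with_reducible apply pow_mem) | (with_reducible apply neg_mem) | exact one_mem _ | exact zero_mem _ | exact ofNat_mem _ _)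
  have u_gi : (P0 k / (s k * z1 k))⁻¹ ∈ chart k .B ⊔ chart k .C := by
    rw [(ne_inv_of_mul eg).2]; repeat' (first | (with_reducible assumption) | (with_reducible apply sub_mem) | (with_reducible apply add_mem) | (with_reducible apply mul_mem) | (with_reducible apply pow_mem) | (with_reducible apply neg_mem) | exact one_mem _ | exact zero_mem _ | exact ofNat_mem _ _)
  refine good_chart ((s k * z1 k) / P0 k) (P0 k / (s k * z1 k)) i_f j_g
    (ne_inv_of_mul ef).1 (ne_inv_of_mul eg).1 u_fi u_gi ?_ ?_
  · have hle : chart k .B ≤ chart k .B ⊔ Algebra.adjoin k {((s k * z1 k) / P0 k)⁻¹} := le_sup_left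
    have w_B1 := hle i_B1
    have w_B2 := hle i_B2
    have w_B3 := hle i_B3
    have w_Hi := hle i_Hi
    have w_inv : ((s k * z1 k) / P0 k)⁻¹ ∈ chart k .B ⊔ Algebra.adjoin k {((s k * z1 k) / P0 k)⁻¹} := mem_adjoin_inv _
    intro x hx
    simp only [gens, Set.mem_insert_iff, Set.mem_singleton_iff] at hx
    rcases hx with rfl | rfl | rfl | rfl
    · exact mem_of_eq (e := (((y k * s k) * z1 k) / P0 k) * ((s k * z1 k) / P0 k)⁻¹)
        (by (field_simp <;> ring)) (by repeat' (first | (with_reducible assumption) | (with_reducible apply sub_mem) | (with_reducible apply add_mem) | (with_reducible apply mul_mem) | (with_reducible apply pow_mem) | (with_reducible apply neg_mem) | exact one_mem _ | exact zero_mem _ | exact ofNat_mem _ _))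
    · exact mem_of_eq (e := ((s k * z1 k) / P0 k)⁻¹)
        (by (field_simp <;> ring)) (by repeat' (first | (with_reducible assumption) | (with_reducible apply sub_mem) | (with_reducible apply add_mem) | (with_reducible apply mul_mem) | (with_reducible apply pow_mem) | (with_reducible apply neg_mem) | exact one_mem _ | exact zero_mem _ | exact ofNat_mem _ _))
    · exact mem_of_eq (e := (((s k * z1 k) / P0 k) ^ 2) * ((P0 k ^ 2) / ((s k * fb k) * (z1 k ^ 2))))
        (by (field_simp <;> ring)) (by repeat' (first | (with_reducible assumption) | (with_reducible apply sub_mem) | (with_reducible apply add_mem) | (with_reducible apply mul_mem) | (with_reducible apply pow_mem) | (with_reducible apply neg_mem) | exact one_mem _ | exact zero_mem _ | exact ofNat_mem _ _))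
    · exact mem_of_eq (e := fb k / F k)
        (by (field_simp <;> ring)) (by repeat' (first | (with_reducible assumption) | (with_reducible apply sub_mem) | (with_reducible apply add_mem) | (with_reducible apply mul_mem) | (with_reducible apply pow_mem) | (with_reducible apply neg_mem) | exact one_mem _ | exact zero_mem _ | exact ofNat_mem _ _))
  · have hle : chart k .C ≤ chart k .C ⊔ Algebra.adjoin k {(P0 k / (s k * z1 k))⁻¹} := le_sup_left
    have w_C1 := hle j_C1
    have w_C2 := hle j_C2
    have w_C3 := hle j_C3
    have w_Hi := hle j_Hi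
    have w_inv : (P0 k / (s k * z1 k))⁻¹ ∈ chart k .C ⊔ Algebra.adjoin k {(P0 k / (s k * z1 k))⁻¹} := mem_adjoin_inv _
    intro x hx
    simp only [gens, Set.mem_insert_iff, Set.mem_singleton_iff] at hx
    rcases hx with rfl | rfl | rfl | rfl
    · exact mem_of_eq (e := (y k) * (P0 k / (s k * z1 k))⁻¹)
        (by (field_simp <;> ring)) (by repeat' (first | (with_reducible assumption) | (with_reducible apply sub_mem) | (with_reducible apply add_mem) | (with_reducible apply mul_mem) | (with_reducible apply pow_mem) | (with_reducible apply neg_mem) | exact one_mem _ | exact zero_mem _ | exact ofNat_mem _ _))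
    · exact mem_of_eq (e := (P0 k / (s k * z1 k))⁻¹)
        (by (field_simp <;> ring)) (by repeat' (first | (with_reducible assumption) | (with_reducible apply sub_mem) | (with_reducible apply add_mem) | (with_reducible apply mul_mem) | (with_reducible apply pow_mem) | (with_reducible apply neg_mem) | exact one_mem _ | exact zero_mem _ | exact ofNat_mem _ _))
    · exact mem_of_eq (e := ((P0 k / (s k * z1 k)) ^ 2) * (s k / fb k))
        (by (field_simp <;> ring)) (by repeat' (first | (with_reducible assumption) | (with_reducible apply sub_mem) | (with_reducible apply add_mem) | (with_reducible apply mul_mem) | (with_reducible apply pow_mem) | (with_reducible apply neg_mem) | exact one_mem _ | exact zero_mem _ | exact ofNat_mem _ _))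
    · exact mem_of_eq (e := fb k / F k)
        (by (field_simp <;> ring)) (by repeat' (first | (with_reducible assumption) | (with_reducible apply sub_mem) | (with_reducible apply add_mem) | (with_reducible apply mul_mem) | (with_reducible apply pow_mem) | (with_reducible apply neg_mem) | exact one_mem _ | exact zero_mem _ | exact ofNat_mem _ _))

theorem good_B_D : Good (chart k .B) (chart k .D) := by
  have hs := s_ne k; have hy := y_ne k; have hv := v_ne k; have hfb := fb_ne k
  have hF := F_ne k; have hz1 := z1_ne k; have hz0 := z0_ne k; have hP0 := P0_ne k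
  have hdd := dd_ne k
  have i_B1 : ((y k * s k) * z1 k) / P0 k ∈ chart k .B := Algebra.subset_adjoin (by simp [gens])
  have i_B2 : (s k * z1 k) / P0 k ∈ chart k .B := Algebra.subset_adjoin (by simp [gens])
  have i_B3 : (P0 k ^ 2) / ((s k * fb k) * (z1 k ^ 2)) ∈ chart k .B := Algebra.subset_adjoin (by simp [gens])
  have i_Hi : fb k / F k ∈ chart k .B := Algebra.subset_adjoin (by simp [gens])
  have j_D1 : 1 / y k ∈ chart k .D := Algebra.subset_adjoin (by simp [gens])
  have j_D2 : P0 k / ((y k * s k) * z1 k) ∈ chart k .D := Algebra.subset_adjoin (by simp [gens])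
  have j_D3 : ((y k ^ 2) * s k) / fb k ∈ chart k .D := Algebra.subset_adjoin (by simp [gens])
  have j_Hi : fb k / F k ∈ chart k .D := Algebra.subset_adjoin (by simp [gens])
  have i_f : ((y k * s k) * z1 k) / P0 k ∈ chart k .B :=
    mem_of_eq (e := ((y k * s k) * z1 k) / P0 k)
      (by (field_simp <;> ring)) (by repeat' (first | (with_reducible assumption) | (with_reducible apply sub_mem) | (with_reducible apply add_mem) | (with_reducible apply mul_mem) | (with_reducible apply pow_mem) | (with_reducible apply neg_mem) | exact one_mem _ | exact zero_mem _ | exact ofNat_mem _ _))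
  have j_g : P0 k / ((y k * s k) * z1 k) ∈ chart k .D :=
    mem_of_eq (e := P0 k / ((y k * s k) * z1 k))
      (by (field_simp <;> ring)) (by repeat' (first | (with_reducible assumption) | (with_reducible apply sub_mem) | (with_reducible apply add_mem) | (with_reducible apply mul_mem) | (with_reducible apply pow_mem) | (with_reducible apply neg_mem) | exact one_mem _ | exact zero_mem _ | exact ofNat_mem _ _))
  have hi : chart k .B ≤ chart k .B ⊔ chart k .D := le_sup_left
  have hj : chart k .D ≤ chart k .B ⊔ chart k .D := le_sup_right
  have u_i_B1 := hi i_B1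
  have u_i_B2 := hi i_B2
  have u_i_B3 := hi i_B3
  have u_i_Hi := hi i_Hi
  have u_j_D1 := hj j_D1
  have u_j_D2 := hj j_D2
  have u_j_D3 := hj j_D3
  have u_j_Hi := hj j_Hi
  have ef : (((y k * s k) * z1 k) / P0 k) * (P0 k / ((y k * s k) * z1 k)) = 1 := by (field_simp <;> ring)
  have eg : (P0 k / ((y k * s k) * z1 k)) * (((y k * s k) * z1 k) / P0 k) = 1 := by (field_simp <;> ring)
  have u_fi : (((y k * s k) * z1 k) / P0 k)⁻¹ ∈ chart k .B ⊔ chart k .D := by
    rw [(ne_inv_of_mul ef).2]; repeat' (first | (with_reducible assumption) | (with_reducible apply sub_mem) | (with_reducible apply add_mem) | (with_reducible apply mul_mem) | (with_reducible apply pow_mem) | (with_reducible apply neg_mem) | exact one_mem _ | exact zero_mem _ | exact ofNat_mem _ _)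
  have u_gi : (P0 k / ((y k * s k) * z1 k))⁻¹ ∈ chart k .B ⊔ chart k .D := by
    rw [(ne_inv_of_mul eg).2]; repeat' (first | (with_reducible assumption) | (with_reducible apply sub_mem) | (with_reducible apply add_mem) | (with_reducible apply mul_mem) | (with_reducible apply pow_mem) | (with_reducible apply neg_mem) | exact one_mem _ | exact zero_mem _ | exact ofNat_mem _ _)
  refine good_chart (((y k * s k) * z1 k) / P0 k) (P0 k / ((y k * s k) * z1 k)) i_f j_g
    (ne_inv_of_mul ef).1 (ne_inv_of_mul eg).1 u_fi u_gi ?_ ?_
  · have hle : chart k .B ≤ chart k .B ⊔ Algebra.adjoin k {(((y k * s k) * z1 k) / P0 k)⁻¹} := le_sup_left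
    have w_B1 := hle i_B1
    have w_B2 := hle i_B2
    have w_B3 := hle i_B3
    have w_Hi := hle i_Hi
    have w_inv : (((y k * s k) * z1 k) / P0 k)⁻¹ ∈ chart k .B ⊔ Algebra.adjoin k {(((y k * s k) * z1 k) / P0 k)⁻¹} := mem_adjoin_inv _
    intro x hx
    simp only [gens, Set.mem_insert_iff, Set.mem_singleton_iff] at hx
    rcases hx with rfl | rfl | rfl | rfl
    · exact mem_of_eq (e := ((s k * z1 k) / P0 k) * (((y k * s k) * z1 k) / P0 k)⁻¹)
        (by (field_simp <;> ring)) (by repeat' (first | (with_reducible assumption) | (with_reducible apply sub_mem) | (with_reducible apply add_mem) | (with_reducible apply mul_mem) | (with_reducible apply pow_mem) | (with_reducible apply neg_mem) | exact one_mem _ | exact zero_mem _ | exact ofNat_mem _ _))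
    · exact mem_of_eq (e := (((y k * s k) * z1 k) / P0 k)⁻¹)
        (by (field_simp <;> ring)) (by repeat' (first | (with_reducible assumption) | (with_reducible apply sub_mem) | (with_reducible apply add_mem) | (with_reducible apply mul_mem) | (with_reducible apply pow_mem) | (with_reducible apply neg_mem) | exact one_mem _ | exact zero_mem _ | exact ofNat_mem _ _))
    · exact mem_of_eq (e := ((((y k * s k) * z1 k) / P0 k) ^ 2) * ((P0 k ^ 2) / ((s k * fb k) * (z1 k ^ 2))))
        (by (field_simp <;> ring)) (by repeat' (first | (with_reducible assumption) | (with_reducible apply sub_mem) | (with_reducible apply add_mem) | (with_reducible apply mul_mem) | (with_reducible apply pow_mem) | (with_reducible apply neg_mem) | exact one_mem _ | exact zero_mem _ | exact ofNat_mem _ _))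
    · exact mem_of_eq (e := fb k / F k)
        (by (field_simp <;> ring)) (by repeat' (first | (with_reducible assumption) | (with_reducible apply sub_mem) | (with_reducible apply add_mem) | (with_reducible apply mul_mem) | (with_reducible apply pow_mem) | (with_reducible apply neg_mem) | exact one_mem _ | exact zero_mem _ | exact ofNat_mem _ _))
  · have hle : chart k .D ≤ chart k .D ⊔ Algebra.adjoin k {(P0 k / ((y k * s k) * z1 k))⁻¹} := le_sup_left
    have w_D1 := hle j_D1
    have w_D2 := hle j_D2
    have w_D3 := hle j_D3
    have w_Hi := hle j_Hi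
    have w_inv : (P0 k / ((y k * s k) * z1 k))⁻¹ ∈ chart k .D ⊔ Algebra.adjoin k {(P0 k / ((y k * s k) * z1 k))⁻¹} := mem_adjoin_inv _
    intro x hx
    simp only [gens, Set.mem_insert_iff, Set.mem_singleton_iff] at hx
    rcases hx with rfl | rfl | rfl | rfl
    · exact mem_of_eq (e := (P0 k / ((y k * s k) * z1 k))⁻¹)
        (by (field_simp <;> ring)) (by repeat' (first | (with_reducible assumption) | (with_reducible apply sub_mem) | (with_reducible apply add_mem) | (with_reducible apply mul_mem) | (with_reducible apply pow_mem) | (with_reducible apply neg_mem) | exact one_mem _ | exact zero_mem _ | exact ofNat_mem _ _))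
    · exact mem_of_eq (e := (1 / y k) * (P0 k / ((y k * s k) * z1 k))⁻¹)
        (by (field_simp <;> ring)) (by repeat' (first | (with_reducible assumption) | (with_reducible apply sub_mem) | (with_reducible apply add_mem) | (with_reducible apply mul_mem) | (with_reducible apply pow_mem) | (with_reducible apply neg_mem) | exact one_mem _ | exact zero_mem _ | exact ofNat_mem _ _))
    · exact mem_of_eq (e := ((P0 k / ((y k * s k) * z1 k)) ^ 2) * (((y k ^ 2) * s k) / fb k))
        (by (field_simp <;> ring)) (by repeat' (first | (with_reducible assumption) | (with_reducible apply sub_mem) | (with_reducible apply add_mem) | (with_reducible apply mul_mem) | (with_reducible apply pow_mem) | (with_reducible apply neg_mem) | exact one_mem _ | exact zero_mem _ | exact ofNat_mem _ _))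
    · exact mem_of_eq (e := fb k / F k)
        (by (field_simp <;> ring)) (by repeat' (first | (with_reducible assumption) | (with_reducible apply sub_mem) | (with_reducible apply add_mem) | (with_reducible apply mul_mem) | (with_reducible apply pow_mem) | (with_reducible apply neg_mem) | exact one_mem _ | exact zero_mem _ | exact ofNat_mem _ _))

end Helper50.D71
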