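import Pool.Agent.Helper50.D71.Tac

/-!
# Pairs of charts (generated)
-/

universe u

namespace Helper50.D71

variable (k : Type u) [Field k]

set_option maxHeartbeats 1000000

attribute [local irreducible] s y v fb F z1 z0 P0 dd

theorem good_C_D : Good (chart k .C) (chart k .D) := by
  have hs := s_ne k; have hy := y_ne k; have hv := v_ne k; have hfb := fb_ne k
  have hF := F_ne k; have hz1 := z1_ne k; have hz0 := z0_ne k; have hP0 := P0_ne k
  have hdd := dd_ne k
  have i_C1 : y k ∈ chart k .C := Algebra.subset_adjoin (by simp [gens])
  have i_C2 : P0 k / (s k * z1 k) ∈ chart k .C := Algebra.subset_adjoin (by simp [gens])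
  have i_C3 : s k / fb k ∈ chart k .C := Algebra.subset_adjoin (by simp [gens])
  have i_Hi : fb k / F k ∈ chart k .C := Algebra.subset_adjoin (by simp [gens])
  have j_D1 : 1 / y k ∈ chart k .D := Algebra.subset_adjoin (by simp [gens])
  have j_D2 : P0 k / ((y k * s k) * z1 k) ∈ chart k .D := Algebra.subset_adjoin (by simp [gens])
  have j_D3 : ((y k ^ 2) * s k) / fb k ∈ chart k .D := Algebra.subset_adjoin (by simp [gens])
  have j_Hi : fb k / F k ∈ chart k .D := Algebra.subset_adjoin (by simp [gens])
  have i_f : y k ∈ chart k .C :=
    mem_of_eq (e := y k)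
      (by (field_simp <;> ring)) (by repeat' (first | (with_reducible assumption) | (with_reducible apply sub_mem) | (with_reducible apply add_mem) | (with_reducible apply mul_mem) | (with_reducible apply pow_mem) | (with_reducible apply neg_mem) | exact one_mem _ | exact zero_mem _ | exact ofNat_mem _ _))
  have j_g : 1 / y k ∈ chart k .D :=
    mem_of_eq (e := 1 / y k)
      (by (field_simp <;> ring)) (by repeat' (first | (with_reducible assumption) | (with_reducible apply sub_mem) | (with_reducible apply add_mem) | (with_reducible apply mul_mem) | (with_reducible apply pow_mem) | (with_reducible apply neg_mem) | exact one_mem _ | exact zero_mem _ | exact ofNat_mem _ _))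
  have hi : chart k .C ≤ chart k .C ⊔ chart k .D := le_sup_left
  have hj : chart k .D ≤ chart k .C ⊔ chart k .D := le_sup_right
  have u_i_C1 := hi i_C1
  have u_i_C2 := hi i_C2
  have u_i_C3 := hi i_C3
  have u_i_Hi := hi i_Hi
  have u_j_D1 := hj j_D1
  have u_j_D2 := hj j_D2
  have u_j_D3 := hj j_D3
  have u_j_Hi := hj j_Hi
  have ef : (y k) * (1 / y k) = 1 := by (field_simp <;> ring)
  have eg : (1 / y k) * (y k) = 1 := by (field_simp <;> ring)
  have u_fi : (y k)⁻¹ ∈ chart k .C ⊔ chart k .D := by
    rw [(ne_inv_of_mul ef).2]; repeat' (first | (with_reducible assumption) | (with_reducible apply sub_mem) | (with_reducible apply add_mem) | (with_reducible apply mul_mem) | (with_reducible apply pow_mem) | (with_reducible apply neg_mem) | exact one_mem _ | exact zero_mem _ | exact ofNat_mem _ _)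
  have u_gi : (1 / y k)⁻¹ ∈ chart k .C ⊔ chart k .D := by
    rw [(ne_inv_of_mul eg).2]; repeat' (first | (with_reducible assumption) | (with_reducible apply sub_mem) | (with_reducible apply add_mem) | (with_reducible apply mul_mem) | (with_reducible apply pow_mem) | (with_reducible apply neg_mem) | exact one_mem _ | exact zero_mem _ | exact ofNat_mem _ _)
  refine good_chart (y k) (1 / y k) i_f j_g
    (ne_inv_of_mul ef).1 (ne_inv_of_mul eg).1 u_fi u_gi ?_ ?_
  · have hle : chart k .C ≤ chart k .C ⊔ Algebra.adjoin k {(y k)⁻¹} := le_sup_left
    have w_C1 := hle i_C1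
    have w_C2 := hle i_C2
    have w_C3 := hle i_C3
    have w_Hi := hle i_Hi
    have w_inv : (y k)⁻¹ ∈ chart k .C ⊔ Algebra.adjoin k {(y k)⁻¹} := mem_adjoin_inv _
    intro x hx
    simp only [gens, Set.mem_insert_iff, Set.mem_singleton_iff] at hx
    rcases hx with rfl | rfl | rfl | rfl
    · exact mem_of_eq (e := (y k)⁻¹)
        (by (field_simp <;> ring)) (by repeat' (first | (with_reducible assumption) | (with_reducible apply sub_mem) | (with_reducible apply add_mem) | (with_reducible apply mul_mem) | (with_reducible apply pow_mem) | (with_reducible apply neg_mem) | exact one_mem _ | exact zero_mem _ | exact ofNat_mem _ _))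
    · exact mem_of_eq (e := (P0 k / (s k * z1 k)) * (y k)⁻¹)
        (by (field_simp <;> ring)) (by repeat' (first | (with_reducible assumption) | (with_reducible apply sub_mem) | (with_reducible apply add_mem) | (with_reducible apply mul_mem) | (with_reducible apply pow_mem) | (with_reducible apply neg_mem) | exact one_mem _ | exact zero_mem _ | exact ofNat_mem _ _))
    · exact mem_of_eq (e := ((y k) ^ 2) * (s k / fb k))
        (by (field_simp <;> ring)) (by repeat' (first | (with_reducible assumption) | (with_reducible apply sub_mem) | (with_reducible apply add_mem) | (with_reducible apply mul_mem) | (with_reducible apply pow_mem) | (with_reducible apply neg_mem) | exact one_mem _ | exact zero_mem _ | exact ofNat_mem _ _))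
    · exact mem_of_eq (e := fb k / F k)
        (by (field_simp <;> ring)) (by repeat' (first | (with_reducible assumption) | (with_reducible apply sub_mem) | (with_reducible apply add_mem) | (with_reducible apply mul_mem) | (with_reducible apply pow_mem) | (with_reducible apply neg_mem) | exact one_mem _ | exact zero_mem _ | exact ofNat_mem _ _))
  · have hle : chart k .D ≤ chart k .D ⊔ Algebra.adjoin k {(1 / y k)⁻¹} := le_sup_left
    have w_D1 := hle j_D1
    have w_D2 := hle j_D2
    have w_D3 := hle j_D3
    have w_Hi := hle j_Hi
    have w_inv : (1 / y k)⁻¹ ∈ chart k .D ⊔ Algebra.adjoin k {(1 / y k)⁻¹} := mem_adjoin_inv _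
    intro x hx
    simp only [gens, Set.mem_insert_iff, Set.mem_singleton_iff] at hx
    rcases hx with rfl | rfl | rfl | rfl
    · exact mem_of_eq (e := (1 / y k)⁻¹)
        (by (field_simp <;> ring)) (by repeat' (first | (with_reducible assumption) | (with_reducible apply sub_mem) | (with_reducible apply add_mem) | (with_reducible apply mul_mem) | (with_reducible apply pow_mem) | (with_reducible apply neg_mem) | exact one_mem _ | exact zero_mem _ | exact ofNat_mem _ _))
    · exact mem_of_eq (e := (P0 k / ((y k * s k) * z1 k)) * (1 / y k)⁻¹)
        (by (field_simp <;> ring)) (by repeat' (first | (with_reducible assumption) | (with_reducible apply sub_mem) | (with_reducible apply add_mem) | (with_reducible apply mul_mem) | (with_reducible apply pow_mem) | (with_reducible apply neg_mem) | exact one_mem _ | exact zero_mem _ | exact ofNat_mem _ _))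
    · exact mem_of_eq (e := (((y k ^ 2) * s k) / fb k) * ((1 / y k) ^ 2))
        (by (field_simp <;> ring)) (by repeat' (first | (with_reducible assumption) | (with_reducible apply sub_mem) | (with_reducible apply add_mem) | (with_reducible apply mul_mem) | (with_reducible apply pow_mem) | (with_reducible apply neg_mem) | exact one_mem _ | exact zero_mem _ | exact ofNat_mem _ _))
    · exact mem_of_eq (e := fb k / F k)
        (by (field_simp <;> ring)) (by repeat' (first | (with_reducible assumption) | (with_reducible apply sub_mem) | (with_reducible apply add_mem) | (with_reducible apply mul_mem) | (with_reducible apply pow_mem) | (with_reducible apply neg_mem) | exact one_mem _ | exact zero_mem _ | exact ofNat_mem _ _))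

theorem good_S_C : Good (chart k .S) (chart k .C) := by
  have hs := s_ne k; have hy := y_ne k; have hv := v_ne k; have hfb := fb_ne k
  have hF := F_ne k; have hz1 := z1_ne k; have hz0 := z0_ne k; have hP0 := P0_ne k
  have hdd := dd_ne k
  have i_y : y k ∈ chart k .S := Algebra.subset_adjoin (by simp [gens])
  have i_s : s k ∈ chart k .S := Algebra.subset_adjoin (by simp [gens])
  have i_ft : fb k / s k ∈ chart k .S := Algebra.subset_adjoin (by simp [gens])
  have i_vt : v k / s k ∈ chart k .S := Algebra.subset_adjoin (by simp [gens])
  have i_FS : F k / s k ∈ chart k .S :=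
    mem_of_eq (e := (fb k / s k) - (s k))
      (by field_simp; (try simp only [F_eq]); (try ring)) (by repeat' (first | (with_reducible assumption) | (with_reducible apply sub_mem) | (with_reducible apply add_mem) | (with_reducible apply mul_mem) | (with_reducible apply pow_mem) | (with_reducible apply neg_mem) | exact one_mem _ | exact zero_mem _ | exact ofNat_mem _ _))
  have i_z1S : z1 k / s k ∈ chart k .S :=
    mem_of_eq (e := -(((((s k) ^ 2) * (v k / s k)) + (fb k / s k)) - (s k)))
      (by field_simp; (try simp only [z1_eq, F_eq]); (try ring)) (by repeat' (first | (with_reducible assumption) | (with_reducible apply sub_mem) | (with_reducible apply add_mem) | (with_reducible apply mul_mem) | (with_reducible apply pow_mem) | (with_reducible apply neg_mem) | exact one_mem _ | exact zero_mem _ | exact ofNat_mem _ _))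
  have j_C1 : y k ∈ chart k .C := Algebra.subset_adjoin (by simp [gens])
  have j_C2 : P0 k / (s k * z1 k) ∈ chart k .C := Algebra.subset_adjoin (by simp [gens])
  have j_C3 : s k / fb k ∈ chart k .C := Algebra.subset_adjoin (by simp [gens])
  have j_Hi : fb k / F k ∈ chart k .C := Algebra.subset_adjoin (by simp [gens])
  have j_fC : fb k ∈ chart k .C :=
    mem_of_eq (e := ((y k) ^ 3) - 1)
      (by field_simp; (try simp only [fb_eq]); (try ring)) (by repeat' (first | (with_reducible assumption) | (with_reducible apply sub_mem) | (with_reducible apply add_mem) | (with_reducible apply mul_mem) | (with_reducible apply pow_mem) | (with_reducible apply neg_mem) | exact one_mem _ | exact zero_mem _ | exact ofNat_mem _ _))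
  have j_sC : s k ∈ chart k .C :=
    mem_of_eq (e := (fb k) * (s k / fb k))
      (by (field_simp <;> ring)) (by repeat' (first | (with_reducible assumption) | (with_reducible apply sub_mem) | (with_reducible apply add_mem) | (with_reducible apply mul_mem) | (with_reducible apply pow_mem) | (with_reducible apply neg_mem) | exact one_mem _ | exact zero_mem _ | exact ofNat_mem _ _))
  have j_bqC : (fb k * v k) / (s k * z1 k) ∈ chart k .C :=
    mem_of_eq (e := -((P0 k / (s k * z1 k)) + ((y k) ^ 2)))
      (by field_simp; (try simp only [P0_eq, z0_eq, fb_eq]); (try ring)) (by repeat' (first | (with_reducible assumption) | (with_reducible apply sub_mem) | (with_reducible apply add_mem) | (with_reducible apply mul_mem) | (with_reducible apply pow_mem) | (with_reducible apply neg_mem) | exact one_mem _ | exact zero_mem _ | exact ofNat_mem _ _))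
  have j_NC : (-F k) / z1 k ∈ chart k .C :=
    mem_of_eq (e := 1 + (((s k) ^ 2) * ((s k / fb k) * ((fb k * v k) / (s k * z1 k)))))
      (by field_simp; (try simp only [z1_eq]); (try ring)) (by repeat' (first | (with_reducible assumption) | (with_reducible apply sub_mem) | (with_reducible apply add_mem) | (with_reducible apply mul_mem) | (with_reducible apply pow_mem) | (with_reducible apply neg_mem) | exact one_mem _ | exact zero_mem _ | exact ofNat_mem _ _))
  have j_HC : F k / fb k ∈ chart k .C :=
    mem_of_eq (e := 1 - ((fb k) * ((s k / fb k) ^ 2)))
      (by field_simp; (try simp only [F_eq]); (try ring)) (by repeat' (first | (with_reducible assumption) | (with_reducible apply sub_mem) | (with_reducible apply add_mem) | (with_reducible apply mul_mem) | (with_reducible apply pow_mem) | (with_reducible apply neg_mem) | exact one_mem _ | exact zero_mem _ | exact ofNat_mem _ _))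
  have i_f : ((fb k * F k) * z1 k) / (s k ^ 3) ∈ chart k .S :=
    mem_of_eq (e := ((fb k / s k) * (F k / s k)) * (z1 k / s k))
      (by (field_simp <;> ring)) (by repeat' (first | (with_reducible assumption) | (with_reducible apply sub_mem) | (with_reducible apply add_mem) | (with_reducible apply mul_mem) | (with_reducible apply pow_mem) | (with_reducible apply neg_mem) | exact one_mem _ | exact zero_mem _ | exact ofNat_mem _ _))
  have j_g : (s k * F k) / (fb k * z1 k) ∈ chart k .C :=
    mem_of_eq (e := -((s k / fb k) * ((-F k) / z1 k)))
      (by (field_simp <;> ring)) (by repeat' (first | (with_reducible assumption) | (with_reducible apply sub_mem) | (with_reducible apply add_mem) | (with_reducible apply mul_mem) | (with_reducible apply pow_mem) | (with_reducible apply neg_mem) | exact one_mem _ | exact zero_mem _ | exact ofNat_mem _ _))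
  have hi : chart k .S ≤ chart k .S ⊔ chart k .C := le_sup_left
  have hj : chart k .C ≤ chart k .S ⊔ chart k .C := le_sup_right
  have u_i_y := hi i_y
  have u_i_s := hi i_s
  have u_i_ft := hi i_ft
  have u_i_vt := hi i_vt
  have u_i_FS := hi i_FS
  have u_i_z1S := hi i_z1S
  have u_j_C1 := hj j_C1
  have u_j_C2 := hj j_C2
  have u_j_C3 := hj j_C3
  have u_j_Hi := hj j_Hi
  have u_j_fC := hj j_fC
  have u_j_sC := hj j_sC
  have u_j_bqC := hj j_bqC
  have u_j_NC := hj j_NC
  have u_j_HC := hj j_HC
  have ef : (((fb k * F k) * z1 k) / (s k ^ 3)) * (-((((s k / fb k) ^ 3) * ((fb k / F k) ^ 2)) * ((-F k) / z1 k))) = 1 := by (field_simp <;> ring)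
  have eg : ((s k * F k) / (fb k * z1 k)) * ((z1 k / s k) * (fb k / F k)) = 1 := by (field_simp <;> ring)
  have u_fi : (((fb k * F k) * z1 k) / (s k ^ 3))⁻¹ ∈ chart k .S ⊔ chart k .C := by
    rw [(ne_inv_of_mul ef).2]; repeat' (first | (with_reducible assumption) | (with_reducible apply sub_mem) | (with_reducible apply add_mem) | (with_reducible apply mul_mem) | (with_reducible apply pow_mem) | (with_reducible apply neg_mem) | exact one_mem _ | exact zero_mem _ | exact ofNat_mem _ _)
  have u_gi : ((s k * F k) / (fb k * z1 k))⁻¹ ∈ chart k .S ⊔ chart k .C := by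
    rw [(ne_inv_of_mul eg).2]; repeat' (first | (with_reducible assumption) | (with_reducible apply sub_mem) | (with_reducible apply add_mem) | (with_reducible apply mul_mem) | (with_reducible apply pow_mem) | (with_reducible apply neg_mem) | exact one_mem _ | exact zero_mem _ | exact ofNat_mem _ _)
  refine good_chart (((fb k * F k) * z1 k) / (s k ^ 3)) ((s k * F k) / (fb k * z1 k)) i_f j_g
    (ne_inv_of_mul ef).1 (ne_inv_of_mul eg).1 u_fi u_gi ?_ ?_
  · have hle : chart k .S ≤ chart k .S ⊔ Algebra.adjoin k {(((fb k * F k) * z1 k) / (s k ^ 3))⁻¹} := le_sup_left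
    have w_y := hle i_y
    have w_s := hle i_s
    have w_ft := hle i_ft
    have w_vt := hle i_vt
    have w_FS := hle i_FS
    have w_z1S := hle i_z1S
    have w_inv : (((fb k * F k) * z1 k) / (s k ^ 3))⁻¹ ∈ chart k .S ⊔ Algebra.adjoin k {(((fb k * F k) * z1 k) / (s k ^ 3))⁻¹} := mem_adjoin_inv _
    intro x hx
    simp only [gens, Set.mem_insert_iff, Set.mem_singleton_iff] at hx
    rcases hx with rfl | rfl | rfl | rfl
    · exact mem_of_eq (e := y k)
        (by (field_simp <;> ring)) (by repeat' (first | (with_reducible assumption) | (with_reducible apply sub_mem) | (with_reducible apply add_mem) | (with_reducible apply mul_mem) | (with_reducible apply pow_mem) | (with_reducible apply neg_mem) | exact one_mem _ | exact zero_mem _ | exact ofNat_mem _ _))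
    · exact mem_of_eq (e := (-((y k) ^ 2)) - (((v k / s k) * (fb k / s k)) * (((fb k / s k) * (F k / s k)) * (((fb k * F k) * z1 k) / (s k ^ 3))⁻¹)))
        (by field_simp; (try simp only [P0_eq, z0_eq, fb_eq]); (try ring)) (by repeat' (first | (with_reducible assumption) | (with_reducible apply sub_mem) | (with_reducible apply add_mem) | (with_reducible apply mul_mem) | (with_reducible apply pow_mem) | (with_reducible apply neg_mem) | exact one_mem _ | exact zero_mem _ | exact ofNat_mem _ _))
    · exact mem_of_eq (e := ((F k / s k) * (z1 k / s k)) * (((fb k * F k) * z1 k) / (s k ^ 3))⁻¹)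
        (by (field_simp <;> ring)) (by repeat' (first | (with_reducible assumption) | (with_reducible apply sub_mem) | (with_reducible apply add_mem) | (with_reducible apply mul_mem) | (with_reducible apply pow_mem) | (with_reducible apply neg_mem) | exact one_mem _ | exact zero_mem _ | exact ofNat_mem _ _))
    · exact mem_of_eq (e := (((fb k / s k) ^ 2) * (z1 k / s k)) * (((fb k * F k) * z1 k) / (s k ^ 3))⁻¹)
        (by (field_simp <;> ring)) (by repeat' (first | (with_reducible assumption) | (with_reducible apply sub_mem) | (with_reducible apply add_mem) | (with_reducible apply mul_mem) | (with_reducible apply pow_mem) | (with_reducible apply neg_mem) | exact one_mem _ | exact zero_mem _ | exact ofNat_mem _ _))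
  · have hle : chart k .C ≤ chart k .C ⊔ Algebra.adjoin k {((s k * F k) / (fb k * z1 k))⁻¹} := le_sup_left
    have w_C1 := hle j_C1
    have w_C2 := hle j_C2
    have w_C3 := hle j_C3
    have w_Hi := hle j_Hi
    have w_fC := hle j_fC
    have w_sC := hle j_sC
    have w_bqC := hle j_bqC
    have w_NC := hle j_NC
    have w_HC := hle j_HC
    have w_inv : ((s k * F k) / (fb k * z1 k))⁻¹ ∈ chart k .C ⊔ Algebra.adjoin k {((s k * F k) / (fb k * z1 k))⁻¹} := mem_adjoin_inv _
    intro x hx
    simp only [gens, Set.mem_insert_iff, Set.mem_singleton_iff] at hx
    rcases hx with rfl | rfl | rfl | rfl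
    · exact mem_of_eq (e := y k)
        (by (field_simp <;> ring)) (by repeat' (first | (with_reducible assumption) | (with_reducible apply sub_mem) | (with_reducible apply add_mem) | (with_reducible apply mul_mem) | (with_reducible apply pow_mem) | (with_reducible apply neg_mem) | exact one_mem _ | exact zero_mem _ | exact ofNat_mem _ _))
    · exact mem_of_eq (e := s k)
        (by (field_simp <;> ring)) (by repeat' (first | (with_reducible assumption) | (with_reducible apply sub_mem) | (with_reducible apply add_mem) | (with_reducible apply mul_mem) | (with_reducible apply pow_mem) | (with_reducible apply neg_mem) | exact one_mem _ | exact zero_mem _ | exact ofNat_mem _ _))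
    · exact mem_of_eq (e := -(((-F k) / z1 k) * ((s k * F k) / (fb k * z1 k))⁻¹))
        (by (field_simp <;> ring)) (by repeat' (first | (with_reducible assumption) | (with_reducible apply sub_mem) | (with_reducible apply add_mem) | (with_reducible apply mul_mem) | (with_reducible apply pow_mem) | (with_reducible apply neg_mem) | exact one_mem _ | exact zero_mem _ | exact ofNat_mem _ _))
    · exact mem_of_eq (e := (((fb k * v k) / (s k * z1 k)) * (F k / fb k)) * ((s k / fb k) * ((s k * F k) / (fb k * z1 k))⁻¹))
        (by (field_simp <;> ring)) (by repeat' (first | (with_reducible assumption) | (with_reducible apply sub_mem) | (with_reducible apply add_mem) | (with_reducible apply mul_mem) | (with_reducible apply pow_mem) | (with_reducible apply neg_mem) | exact one_mem _ | exact zero_mem _ | exact ofNat_mem _ _))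

end Helper50.D71
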