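import Pool.Agent.Helper50.D71.Tac

/-!
# Pairs of charts (generated)
-/

universe u

namespace Helper50.D71

variable (k : Type u) [Field k]

set_option maxHeartbeats 1000000

attribute [local irreducible] s y v fb F z1 z0 P0 dd

theorem good_V_C : Good (chart k .V) (chart k .C) := by
  have hs := s_ne k; have hy := y_ne k; have hv := v_ne k; have hfb := fb_ne k
  have hF := F_ne k; have hz1 := z1_ne k; have hz0 := z0_ne k; have hP0 := P0_ne k
  have hdd := dd_ne k
  have i_y : y k ∈ chart k .V := Algebra.subset_adjoin (by simp [gens])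
  have i_v : v k ∈ chart k .V := Algebra.subset_adjoin (by simp [gens])
  have i_sp : s k / v k ∈ chart k .V := Algebra.subset_adjoin (by simp [gens])
  have i_fp : fb k / v k ∈ chart k .V := Algebra.subset_adjoin (by simp [gens])
  have i_sV : s k ∈ chart k .V :=
    mem_of_eq (e := (v k) * (s k / v k))
      (by (field_simp <;> ring)) (by repeat' (first | (with_reducible assumption) | (with_reducible apply sub_mem) | (with_reducible apply add_mem) | (with_reducible apply mul_mem) | (with_reducible apply pow_mem) | (with_reducible apply neg_mem) | exact one_mem _ | exact zero_mem _ | exact ofNat_mem _ _))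
  have i_E1 : F k / v k ∈ chart k .V :=
    mem_of_eq (e := (fb k / v k) - ((s k) * (s k / v k)))
      (by field_simp; (try simp only [F_eq]); (try ring)) (by repeat' (first | (with_reducible assumption) | (with_reducible apply sub_mem) | (with_reducible apply add_mem) | (with_reducible apply mul_mem) | (with_reducible apply pow_mem) | (with_reducible apply neg_mem) | exact one_mem _ | exact zero_mem _ | exact ofNat_mem _ _))
  have i_E2 : (-z1 k) / v k ∈ chart k .V :=
    mem_of_eq (e := ((s k) ^ 2) + (F k / v k))
      (by field_simp; (try simp only [z1_eq]); (try ring)) (by repeat' (first | (with_reducible assumption) | (with_reducible apply sub_mem) | (with_reducible apply add_mem) | (with_reducible apply mul_mem) | (with_reducible apply pow_mem) | (with_reducible apply neg_mem) | exact one_mem _ | exact zero_mem _ | exact ofNat_mem _ _))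
  have j_C1 : y k ∈ chart k .C := Algebra.subset_adjoin (by simp [gens])
  have j_C2 : P0 k / (s k * z1 k) ∈ chart k .C := Algebra.subset_adjoin (by simp [gens])
  have j_C3 : s k / fb k ∈ chart k .C := Algebra.subset_adjoin (by simp [gens])
  have j_Hi : fb k / F k ∈ chart k .C := Algebra.subset_adjoin (by simp [gens])
  have j_fC : fb k ∈ chart k .C :=
    mem_of_eq (e := ((y k) ^ 3) - 1)
      (by field_simp; (try simp only [fb_eq]); (try ring)) (by repeat' (first | (with_reducible assumption) | (with_reducible apply sub_mem) | (with_reducible apply add_mem) | (with_reducible apply mul_mem) | (with_reducible apply pow_mem) | (with_reducible apply neg_mem) | exact one_mem _ | exact zero_mem _ | exact ofNat_mem _ _))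
  have j_sC : s k ∈ chart k .C :=
    mem_of_eq (e := (fb k) * (s k / fb k))
      (by (field_simp <;> ring)) (by repeat' (first | (with_reducible assumption) | (with_reducible apply sub_mem) | (with_reducible apply add_mem) | (with_reducible apply mul_mem) | (with_reducible apply pow_mem) | (with_reducible apply neg_mem) | exact one_mem _ | exact zero_mem _ | exact ofNat_mem _ _))
  have j_bqC : (fb k * v k) / (s k * z1 k) ∈ chart k .C :=
    mem_of_eq (e := -((P0 k / (s k * z1 k)) + ((y k) ^ 2)))
      (by field_simp; (try simp only [P0_eq, z0_eq, fb_eq]); (try ring)) (by repeat' (first | (with_reducible assumption) | (with_reducible apply sub_mem) | (with_reducible apply add_mem) | (with_reducible apply mul_mem) | (with_reducible apply pow_mem) | (with_reducible apply neg_mem) | exact one_mem _ | exact zero_mem _ | exact ofNat_mem _ _))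
  have j_bC : v k / z1 k ∈ chart k .C :=
    mem_of_eq (e := (s k / fb k) * ((fb k * v k) / (s k * z1 k)))
      (by (field_simp <;> ring)) (by repeat' (first | (with_reducible assumption) | (with_reducible apply sub_mem) | (with_reducible apply add_mem) | (with_reducible apply mul_mem) | (with_reducible apply pow_mem) | (with_reducible apply neg_mem) | exact one_mem _ | exact zero_mem _ | exact ofNat_mem _ _))
  have j_NC : (-F k) / z1 k ∈ chart k .C :=
    mem_of_eq (e := 1 + (((s k) ^ 2) * (v k / z1 k)))
      (by field_simp; (try simp only [z1_eq]); (try ring)) (by repeat' (first | (with_reducible assumption) | (with_reducible apply sub_mem) | (with_reducible apply add_mem) | (with_reducible apply mul_mem) | (with_reducible apply pow_mem) | (with_reducible apply neg_mem) | exact one_mem _ | exact zero_mem _ | exact ofNat_mem _ _))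
  have j_HC : F k / fb k ∈ chart k .C :=
    mem_of_eq (e := 1 - ((fb k) * ((s k / fb k) ^ 2)))
      (by field_simp; (try simp only [F_eq]); (try ring)) (by repeat' (first | (with_reducible assumption) | (with_reducible apply sub_mem) | (with_reducible apply add_mem) | (with_reducible apply mul_mem) | (with_reducible apply pow_mem) | (with_reducible apply neg_mem) | exact one_mem _ | exact zero_mem _ | exact ofNat_mem _ _))
  have i_f : (-(((s k * fb k) * F k) * z1 k)) / (v k ^ 4) ∈ chart k .V :=
    mem_of_eq (e := (((s k / v k) * (fb k / v k)) * (F k / v k)) * ((-z1 k) / v k))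
      (by (field_simp <;> ring)) (by repeat' (first | (with_reducible assumption) | (with_reducible apply sub_mem) | (with_reducible apply add_mem) | (with_reducible apply mul_mem) | (with_reducible apply pow_mem) | (with_reducible apply neg_mem) | exact one_mem _ | exact zero_mem _ | exact ofNat_mem _ _))
  have j_g : (-(v k * F k)) / (z1 k ^ 2) ∈ chart k .C :=
    mem_of_eq (e := (v k / z1 k) * ((-F k) / z1 k))
      (by (field_simp <;> ring)) (by repeat' (first | (with_reducible assumption) | (with_reducible apply sub_mem) | (with_reducible apply add_mem) | (with_reducible apply mul_mem) | (with_reducible apply pow_mem) | (with_reducible apply neg_mem) | exact one_mem _ | exact zero_mem _ | exact ofNat_mem _ _))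
  have hi : chart k .V ≤ chart k .V ⊔ chart k .C := le_sup_left
  have hj : chart k .C ≤ chart k .V ⊔ chart k .C := le_sup_right
  have u_i_y := hi i_y
  have u_i_v := hi i_v
  have u_i_sp := hi i_sp
  have u_i_fp := hi i_fp
  have u_i_sV := hi i_sV
  have u_i_E1 := hi i_E1
  have u_i_E2 := hi i_E2
  have u_j_C1 := hj j_C1
  have u_j_C2 := hj j_C2
  have u_j_C3 := hj j_C3
  have u_j_Hi := hj j_Hi
  have u_j_fC := hj j_fC
  have u_j_sC := hj j_sC
  have u_j_bqC := hj j_bqC
  have u_j_bC := hj j_bC
  have u_j_NC := hj j_NC
  have u_j_HC := hj j_HC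
  have u_iN : (-z1 k) / F k ∈ chart k .V ⊔ chart k .C :=
    mem_of_eq (e := 1 + (((((v k) ^ 2) * ((s k / fb k) ^ 2)) * ((fb k / F k) ^ 2)) * (F k / v k)))
      (by field_simp; (try simp only [z1_eq, F_eq]); (try ring)) (by repeat' (first | (with_reducible assumption) | (with_reducible apply sub_mem) | (with_reducible apply add_mem) | (with_reducible apply mul_mem) | (with_reducible apply pow_mem) | (with_reducible apply neg_mem) | exact one_mem _ | exact zero_mem _ | exact ofNat_mem _ _))
  have u_iE1 : v k / F k ∈ chart k .V ⊔ chart k .C :=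
    mem_of_eq (e := -((v k / z1 k) * ((-z1 k) / F k)))
      (by (field_simp <;> ring)) (by repeat' (first | (with_reducible assumption) | (with_reducible apply sub_mem) | (with_reducible apply add_mem) | (with_reducible apply mul_mem) | (with_reducible apply pow_mem) | (with_reducible apply neg_mem) | exact one_mem _ | exact zero_mem _ | exact ofNat_mem _ _))
  have u_ifp : v k / fb k ∈ chart k .V ⊔ chart k .C :=
    mem_of_eq (e := (F k / fb k) * (v k / F k))
      (by (field_simp <;> ring)) (by repeat' (first | (with_reducible assumption) | (with_reducible apply sub_mem) | (with_reducible apply add_mem) | (with_reducible apply mul_mem) | (with_reducible apply pow_mem) | (with_reducible apply neg_mem) | exact one_mem _ | exact zero_mem _ | exact ofNat_mem _ _))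
  have u_iq : fb k / s k ∈ chart k .V ⊔ chart k .C :=
    mem_of_eq (e := -(((fb k * v k) / (s k * z1 k)) * ((-z1 k) / v k)))
      (by (field_simp <;> ring)) (by repeat' (first | (with_reducible assumption) | (with_reducible apply sub_mem) | (with_reducible apply add_mem) | (with_reducible apply mul_mem) | (with_reducible apply pow_mem) | (with_reducible apply neg_mem) | exact one_mem _ | exact zero_mem _ | exact ofNat_mem _ _))
  have ef : ((-(((s k * fb k) * F k) * z1 k)) / (v k ^ 4)) * (((((fb k / s k) * (v k / fb k)) * (v k / fb k)) * (v k / F k)) * (-(v k / z1 k))) = 1 := by (field_simp <;> ring)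
  have eg : ((-(v k * F k)) / (z1 k ^ 2)) * (-(((-z1 k) / v k) * ((-z1 k) / F k))) = 1 := by (field_simp <;> ring)
  have u_fi : ((-(((s k * fb k) * F k) * z1 k)) / (v k ^ 4))⁻¹ ∈ chart k .V ⊔ chart k .C := by
    rw [(ne_inv_of_mul ef).2]; repeat' (first | (with_reducible assumption) | (with_reducible apply sub_mem) | (with_reducible apply add_mem) | (with_reducible apply mul_mem) | (with_reducible apply pow_mem) | (with_reducible apply neg_mem) | exact one_mem _ | exact zero_mem _ | exact ofNat_mem _ _)
  have u_gi : ((-(v k * F k)) / (z1 k ^ 2))⁻¹ ∈ chart k .V ⊔ chart k .C := by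
    rw [(ne_inv_of_mul eg).2]; repeat' (first | (with_reducible assumption) | (with_reducible apply sub_mem) | (with_reducible apply add_mem) | (with_reducible apply mul_mem) | (with_reducible apply pow_mem) | (with_reducible apply neg_mem) | exact one_mem _ | exact zero_mem _ | exact ofNat_mem _ _)
  refine good_chart ((-(((s k * fb k) * F k) * z1 k)) / (v k ^ 4)) ((-(v k * F k)) / (z1 k ^ 2)) i_f j_g
    (ne_inv_of_mul ef).1 (ne_inv_of_mul eg).1 u_fi u_gi ?_ ?_
  · have hle : chart k .V ≤ chart k .V ⊔ Algebra.adjoin k {((-(((s k * fb k) * F k) * z1 k)) / (v k ^ 4))⁻¹} := le_sup_left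
    have w_y := hle i_y
    have w_v := hle i_v
    have w_sp := hle i_sp
    have w_fp := hle i_fp
    have w_sV := hle i_sV
    have w_E1 := hle i_E1
    have w_E2 := hle i_E2
    have w_inv : ((-(((s k * fb k) * F k) * z1 k)) / (v k ^ 4))⁻¹ ∈ chart k .V ⊔ Algebra.adjoin k {((-(((s k * fb k) * F k) * z1 k)) / (v k ^ 4))⁻¹} := mem_adjoin_inv _
    intro x hx
    simp only [gens, Set.mem_insert_iff, Set.mem_singleton_iff] at hx
    rcases hx with rfl | rfl | rfl | rfl
    · exact mem_of_eq (e := y k)
        (by (field_simp <;> ring)) (by repeat' (first | (with_reducible assumption) | (with_reducible apply sub_mem) | (with_reducible apply add_mem) | (with_reducible apply mul_mem) | (with_reducible apply pow_mem) | (with_reducible apply neg_mem) | exact one_mem _ | exact zero_mem _ | exact ofNat_mem _ _))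
    · exact mem_of_eq (e := (-((y k) ^ 2)) + (((fb k / v k) * ((fb k / v k) * (F k / v k))) * ((-(((s k * fb k) * F k) * z1 k)) / (v k ^ 4))⁻¹))
        (by field_simp; (try simp only [P0_eq, z0_eq, fb_eq]); (try ring)) (by repeat' (first | (with_reducible assumption) | (with_reducible apply sub_mem) | (with_reducible apply add_mem) | (with_reducible apply mul_mem) | (with_reducible apply pow_mem) | (with_reducible apply neg_mem) | exact one_mem _ | exact zero_mem _ | exact ofNat_mem _ _))
    · exact mem_of_eq (e := ((s k / v k) * (((s k / v k) * (F k / v k)) * ((-z1 k) / v k))) * ((-(((s k * fb k) * F k) * z1 k)) / (v k ^ 4))⁻¹)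
        (by (field_simp <;> ring)) (by repeat' (first | (with_reducible assumption) | (with_reducible apply sub_mem) | (with_reducible apply add_mem) | (with_reducible apply mul_mem) | (with_reducible apply pow_mem) | (with_reducible apply neg_mem) | exact one_mem _ | exact zero_mem _ | exact ofNat_mem _ _))
    · exact mem_of_eq (e := ((fb k / v k) * (((s k / v k) * (fb k / v k)) * ((-z1 k) / v k))) * ((-(((s k * fb k) * F k) * z1 k)) / (v k ^ 4))⁻¹)
        (by (field_simp <;> ring)) (by repeat' (first | (with_reducible assumption) | (with_reducible apply sub_mem) | (with_reducible apply add_mem) | (with_reducible apply mul_mem) | (with_reducible apply pow_mem) | (with_reducible apply neg_mem) | exact one_mem _ | exact zero_mem _ | exact ofNat_mem _ _))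
  · have hle : chart k .C ≤ chart k .C ⊔ Algebra.adjoin k {((-(v k * F k)) / (z1 k ^ 2))⁻¹} := le_sup_left
    have w_C1 := hle j_C1
    have w_C2 := hle j_C2
    have w_C3 := hle j_C3
    have w_Hi := hle j_Hi
    have w_fC := hle j_fC
    have w_sC := hle j_sC
    have w_bqC := hle j_bqC
    have w_bC := hle j_bC
    have w_NC := hle j_NC
    have w_HC := hle j_HC
    have w_inv : ((-(v k * F k)) / (z1 k ^ 2))⁻¹ ∈ chart k .C ⊔ Algebra.adjoin k {((-(v k * F k)) / (z1 k ^ 2))⁻¹} := mem_adjoin_inv _
    intro x hx
    simp only [gens, Set.mem_insert_iff, Set.mem_singleton_iff] at hx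
    rcases hx with rfl | rfl | rfl | rfl
    · exact mem_of_eq (e := y k)
        (by (field_simp <;> ring)) (by repeat' (first | (with_reducible assumption) | (with_reducible apply sub_mem) | (with_reducible apply add_mem) | (with_reducible apply mul_mem) | (with_reducible apply pow_mem) | (with_reducible apply neg_mem) | exact one_mem _ | exact zero_mem _ | exact ofNat_mem _ _))
    · exact mem_of_eq (e := (-(((v k / z1 k) * (fb k)) * (F k / fb k))) * ((v k / z1 k) * ((-(v k * F k)) / (z1 k ^ 2))⁻¹))
        (by (field_simp <;> ring)) (by repeat' (first | (with_reducible assumption) | (with_reducible apply sub_mem) | (with_reducible apply add_mem) | (with_reducible apply mul_mem) | (with_reducible apply pow_mem) | (with_reducible apply neg_mem) | exact one_mem _ | exact zero_mem _ | exact ofNat_mem _ _))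
    · exact mem_of_eq (e := -((((s k / fb k) * ((-F k) / z1 k)) * (fb k / F k)) * (((-F k) / z1 k) * ((-(v k * F k)) / (z1 k ^ 2))⁻¹)))
        (by (field_simp <;> ring)) (by repeat' (first | (with_reducible assumption) | (with_reducible apply sub_mem) | (with_reducible apply add_mem) | (with_reducible apply mul_mem) | (with_reducible apply pow_mem) | (with_reducible apply neg_mem) | exact one_mem _ | exact zero_mem _ | exact ofNat_mem _ _))
    · exact mem_of_eq (e := -((((-F k) / z1 k) * (fb k / F k)) * (((-F k) / z1 k) * ((-(v k * F k)) / (z1 k ^ 2))⁻¹)))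
        (by (field_simp <;> ring)) (by repeat' (first | (with_reducible assumption) | (with_reducible apply sub_mem) | (with_reducible apply add_mem) | (with_reducible apply mul_mem) | (with_reducible apply pow_mem) | (with_reducible apply neg_mem) | exact one_mem _ | exact zero_mem _ | exact ofNat_mem _ _))

theorem good_V_A : Good (chart k .V) (chart k .A) := by
  have hs := s_ne k; have hy := y_ne k; have hv := v_ne k; have hfb := fb_ne k
  have hF := F_ne k; have hz1 := z1_ne k; have hz0 := z0_ne k; have hP0 := P0_ne k
  have hdd := dd_ne k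
  have i_y : y k ∈ chart k .V := Algebra.subset_adjoin (by simp [gens])
  have i_v : v k ∈ chart k .V := Algebra.subset_adjoin (by simp [gens])
  have i_sp : s k / v k ∈ chart k .V := Algebra.subset_adjoin (by simp [gens])
  have i_fp : fb k / v k ∈ chart k .V := Algebra.subset_adjoin (by simp [gens])
  have i_sV : s k ∈ chart k .V :=
    mem_of_eq (e := (v k) * (s k / v k))
      (by (field_simp <;> ring)) (by repeat' (first | (with_reducible assumption) | (with_reducible apply sub_mem) | (with_reducible apply add_mem) | (with_reducible apply mul_mem) | (with_reducible apply pow_mem) | (with_reducible apply neg_mem) | exact one_mem _ | exact zero_mem _ | exact ofNat_mem _ _))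
  have i_E1 : F k / v k ∈ chart k .V :=
    mem_of_eq (e := (fb k / v k) - ((s k) * (s k / v k)))
      (by field_simp; (try simp only [F_eq]); (try ring)) (by repeat' (first | (with_reducible assumption) | (with_reducible apply sub_mem) | (with_reducible apply add_mem) | (with_reducible apply mul_mem) | (with_reducible apply pow_mem) | (with_reducible apply neg_mem) | exact one_mem _ | exact zero_mem _ | exact ofNat_mem _ _))
  have i_E2 : (-z1 k) / v k ∈ chart k .V :=
    mem_of_eq (e := ((s k) ^ 2) + (F k / v k))
      (by field_simp; (try simp only [z1_eq]); (try ring)) (by repeat' (first | (with_reducible assumption) | (with_reducible apply sub_mem) | (with_reducible apply add_mem) | (with_reducible apply mul_mem) | (with_reducible apply pow_mem) | (with_reducible apply neg_mem) | exact one_mem _ | exact zero_mem _ | exact ofNat_mem _ _))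
  have i_PV : P0 k / (v k ^ 2) ∈ chart k .V :=
    mem_of_eq (e := ((((y k) ^ 2) * (s k / v k)) * ((-z1 k) / v k)) - (fb k / v k))
      (by field_simp; (try simp only [P0_eq, z0_eq, fb_eq]); (try ring)) (by repeat' (first | (with_reducible assumption) | (with_reducible apply sub_mem) | (with_reducible apply add_mem) | (with_reducible apply mul_mem) | (with_reducible apply pow_mem) | (with_reducible apply neg_mem) | exact one_mem _ | exact zero_mem _ | exact ofNat_mem _ _))
  have j_A1 : (y k * P0 k) / (fb k * z1 k) ∈ chart k .A := Algebra.subset_adjoin (by simp [gens])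
  have j_A2 : P0 k / (fb k * z1 k) ∈ chart k .A := Algebra.subset_adjoin (by simp [gens])
  have j_A3 : ((s k * fb k) * (z1 k ^ 2)) / (P0 k ^ 2) ∈ chart k .A := Algebra.subset_adjoin (by simp [gens])
  have j_Hi : fb k / F k ∈ chart k .A := Algebra.subset_adjoin (by simp [gens])
  have j_gA : (P0 k ^ 3) / ((fb k ^ 2) * (z1 k ^ 3)) ∈ chart k .A :=
    mem_of_eq (e := (((y k * P0 k) / (fb k * z1 k)) ^ 3) - ((P0 k / (fb k * z1 k)) ^ 3))
      (by field_simp; (try simp only [fb_eq]); (try ring)) (by repeat' (first | (with_reducible assumption) | (with_reducible apply sub_mem) | (with_reducible apply add_mem) | (with_reducible apply mul_mem) | (with_reducible apply pow_mem) | (with_reducible apply neg_mem) | exact one_mem _ | exact zero_mem _ | exact ofNat_mem _ _))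
  have j_bA : v k / z1 k ∈ chart k .A :=
    mem_of_eq (e := -((P0 k / (fb k * z1 k)) + ((((y k * P0 k) / (fb k * z1 k)) ^ 2) * (((s k * fb k) * (z1 k ^ 2)) / (P0 k ^ 2)))))
      (by field_simp; (try simp only [P0_eq, z0_eq, fb_eq]); (try ring)) (by repeat' (first | (with_reducible assumption) | (with_reducible apply sub_mem) | (with_reducible apply add_mem) | (with_reducible apply mul_mem) | (with_reducible apply pow_mem) | (with_reducible apply neg_mem) | exact one_mem _ | exact zero_mem _ | exact ofNat_mem _ _))
  have j_NA : (-(F k * (P0 k ^ 2))) / ((fb k ^ 2) * (z1 k ^ 3)) ∈ chart k .A :=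
    mem_of_eq (e := ((P0 k / (fb k * z1 k)) ^ 2) + (((((P0 k ^ 3) / ((fb k ^ 2) * (z1 k ^ 3))) ^ 2) * ((((s k * fb k) * (z1 k ^ 2)) / (P0 k ^ 2)) ^ 2)) * (v k / z1 k)))
      (by field_simp; (try simp only [z1_eq]); (try ring)) (by repeat' (first | (with_reducible assumption) | (with_reducible apply sub_mem) | (with_reducible apply add_mem) | (with_reducible apply mul_mem) | (with_reducible apply pow_mem) | (with_reducible apply neg_mem) | exact one_mem _ | exact zero_mem _ | exact ofNat_mem _ _))
  have j_HA : F k / fb k ∈ chart k .A :=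
    mem_of_eq (e := (1 - (((((y k * P0 k) / (fb k * z1 k)) ^ 3) * (P0 k / (fb k * z1 k))) * ((((s k * fb k) * (z1 k ^ 2)) / (P0 k ^ 2)) ^ 2))) + (((P0 k / (fb k * z1 k)) ^ 4) * ((((s k * fb k) * (z1 k ^ 2)) / (P0 k ^ 2)) ^ 2)))
      (by field_simp; (try simp only [F_eq, fb_eq]); (try ring)) (by repeat' (first | (with_reducible assumption) | (with_reducible apply sub_mem) | (with_reducible apply add_mem) | (with_reducible apply mul_mem) | (with_reducible apply pow_mem) | (with_reducible apply neg_mem) | exact one_mem _ | exact zero_mem _ | exact ofNat_mem _ _))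
  have i_f : (-(((fb k * F k) * z1 k) * P0 k)) / (v k ^ 5) ∈ chart k .V :=
    mem_of_eq (e := (((fb k / v k) * (F k / v k)) * ((-z1 k) / v k)) * (P0 k / (v k ^ 2)))
      (by (field_simp <;> ring)) (by repeat' (first | (with_reducible assumption) | (with_reducible apply sub_mem) | (with_reducible apply add_mem) | (with_reducible apply mul_mem) | (with_reducible apply pow_mem) | (with_reducible apply neg_mem) | exact one_mem _ | exact zero_mem _ | exact ofNat_mem _ _))
  have j_g : (-((v k * F k) * (P0 k ^ 3))) / ((fb k ^ 3) * (z1 k ^ 5)) ∈ chart k .A :=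
    mem_of_eq (e := ((P0 k / (fb k * z1 k)) * (v k / z1 k)) * ((-(F k * (P0 k ^ 2))) / ((fb k ^ 2) * (z1 k ^ 3))))
      (by (field_simp <;> ring)) (by repeat' (first | (with_reducible assumption) | (with_reducible apply sub_mem) | (with_reducible apply add_mem) | (with_reducible apply mul_mem) | (with_reducible apply pow_mem) | (with_reducible apply neg_mem) | exact one_mem _ | exact zero_mem _ | exact ofNat_mem _ _))
  have hi : chart k .V ≤ chart k .V ⊔ chart k .A := le_sup_left
  have hj : chart k .A ≤ chart k .V ⊔ chart k .A := le_sup_right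
  have u_i_y := hi i_y
  have u_i_v := hi i_v
  have u_i_sp := hi i_sp
  have u_i_fp := hi i_fp
  have u_i_sV := hi i_sV
  have u_i_E1 := hi i_E1
  have u_i_E2 := hi i_E2
  have u_i_PV := hi i_PV
  have u_j_A1 := hj j_A1
  have u_j_A2 := hj j_A2
  have u_j_A3 := hj j_A3
  have u_j_Hi := hj j_Hi
  have u_j_gA := hj j_gA
  have u_j_bA := hj j_bA
  have u_j_NA := hj j_NA
  have u_j_HA := hj j_HA
  have u_iN : (-z1 k) / F k ∈ chart k .V ⊔ chart k .A :=
    mem_of_eq (e := 1 + (((((v k) ^ 2) * (((((s k * fb k) * (z1 k ^ 2)) / (P0 k ^ 2)) * ((P0 k / (fb k * z1 k)) ^ 2)) ^ 2)) * ((fb k / F k) ^ 2)) * (F k / v k)))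
      (by field_simp; (try simp only [z1_eq, F_eq]); (try ring)) (by repeat' (first | (with_reducible assumption) | (with_reducible apply sub_mem) | (with_reducible apply add_mem) | (with_reducible apply mul_mem) | (with_reducible apply pow_mem) | (with_reducible apply neg_mem) | exact one_mem _ | exact zero_mem _ | exact ofNat_mem _ _))
  have u_iE1 : v k / F k ∈ chart k .V ⊔ chart k .A :=
    mem_of_eq (e := -((v k / z1 k) * ((-z1 k) / F k)))
      (by (field_simp <;> ring)) (by repeat' (first | (with_reducible assumption) | (with_reducible apply sub_mem) | (with_reducible apply add_mem) | (with_reducible apply mul_mem) | (with_reducible apply pow_mem) | (with_reducible apply neg_mem) | exact one_mem _ | exact zero_mem _ | exact ofNat_mem _ _))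
  have u_ifp : v k / fb k ∈ chart k .V ⊔ chart k .A :=
    mem_of_eq (e := (F k / fb k) * (v k / F k))
      (by (field_simp <;> ring)) (by repeat' (first | (with_reducible assumption) | (with_reducible apply sub_mem) | (with_reducible apply add_mem) | (with_reducible apply mul_mem) | (with_reducible apply pow_mem) | (with_reducible apply neg_mem) | exact one_mem _ | exact zero_mem _ | exact ofNat_mem _ _))
  have u_ip : (fb k * z1 k) / P0 k ∈ chart k .V ⊔ chart k .A :=
    mem_of_eq (e := (1 + ((y k) * (((y k * P0 k) / (fb k * z1 k)) * (((s k * fb k) * (z1 k ^ 2)) / (P0 k ^ 2))))) * ((-z1 k) / v k))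
      (by field_simp; (try simp only [P0_eq, z0_eq, fb_eq]); (try ring)) (by repeat' (first | (with_reducible assumption) | (with_reducible apply sub_mem) | (with_reducible apply add_mem) | (with_reducible apply mul_mem) | (with_reducible apply pow_mem) | (with_reducible apply neg_mem) | exact one_mem _ | exact zero_mem _ | exact ofNat_mem _ _))
  have u_iPV : (v k ^ 2) / P0 k ∈ chart k .V ⊔ chart k .A :=
    mem_of_eq (e := (((fb k * z1 k) / P0 k) * (v k / fb k)) * (v k / z1 k))
      (by (field_simp <;> ring)) (by repeat' (first | (with_reducible assumption) | (with_reducible apply sub_mem) | (with_reducible apply add_mem) | (with_reducible apply mul_mem) | (with_reducible apply pow_mem) | (with_reducible apply neg_mem) | exact one_mem _ | exact zero_mem _ | exact ofNat_mem _ _))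
  have ef : ((-(((fb k * F k) * z1 k) * P0 k)) / (v k ^ 5)) * ((((v k / fb k) * (v k / F k)) * (-(v k / z1 k))) * ((v k ^ 2) / P0 k)) = 1 := by (field_simp <;> ring)
  have eg : ((-((v k * F k) * (P0 k ^ 3))) / ((fb k ^ 3) * (z1 k ^ 5))) * (((((fb k * z1 k) / P0 k) ^ 3) * (-((-z1 k) / v k))) * ((-z1 k) / F k)) = 1 := by (field_simp <;> ring)
  have u_fi : ((-(((fb k * F k) * z1 k) * P0 k)) / (v k ^ 5))⁻¹ ∈ chart k .V ⊔ chart k .A := by
    rw [(ne_inv_of_mul ef).2]; repeat' (first | (with_reducible assumption) | (with_reducible apply sub_mem) | (with_reducible apply add_mem) | (with_reducible apply mul_mem) | (with_reducible apply pow_mem) | (with_reducible apply neg_mem) | exact one_mem _ | exact zero_mem _ | exact ofNat_mem _ _)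
  have u_gi : ((-((v k * F k) * (P0 k ^ 3))) / ((fb k ^ 3) * (z1 k ^ 5)))⁻¹ ∈ chart k .V ⊔ chart k .A := by
    rw [(ne_inv_of_mul eg).2]; repeat' (first | (with_reducible assumption) | (with_reducible apply sub_mem) | (with_reducible apply add_mem) | (with_reducible apply mul_mem) | (with_reducible apply pow_mem) | (with_reducible apply neg_mem) | exact one_mem _ | exact zero_mem _ | exact ofNat_mem _ _)
  refine good_chart ((-(((fb k * F k) * z1 k) * P0 k)) / (v k ^ 5)) ((-((v k * F k) * (P0 k ^ 3))) / ((fb k ^ 3) * (z1 k ^ 5))) i_f j_g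
    (ne_inv_of_mul ef).1 (ne_inv_of_mul eg).1 u_fi u_gi ?_ ?_
  · have hle : chart k .V ≤ chart k .V ⊔ Algebra.adjoin k {((-(((fb k * F k) * z1 k) * P0 k)) / (v k ^ 5))⁻¹} := le_sup_left
    have w_y := hle i_y
    have w_v := hle i_v
    have w_sp := hle i_sp
    have w_fp := hle i_fp
    have w_sV := hle i_sV
    have w_E1 := hle i_E1
    have w_E2 := hle i_E2
    have w_PV := hle i_PV
    have w_inv : ((-(((fb k * F k) * z1 k) * P0 k)) / (v k ^ 5))⁻¹ ∈ chart k .V ⊔ Algebra.adjoin k {((-(((fb k * F k) * z1 k) * P0 k)) / (v k ^ 5))⁻¹} := mem_adjoin_inv _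
    intro x hx
    simp only [gens, Set.mem_insert_iff, Set.mem_singleton_iff] at hx
    rcases hx with rfl | rfl | rfl | rfl
    · exact mem_of_eq (e := -((y k) * (((F k / v k) * ((P0 k / (v k ^ 2)) ^ 2)) * ((-(((fb k * F k) * z1 k) * P0 k)) / (v k ^ 5))⁻¹)))
        (by (field_simp <;> ring)) (by repeat' (first | (with_reducible assumption) | (with_reducible apply sub_mem) | (with_reducible apply add_mem) | (with_reducible apply mul_mem) | (with_reducible apply pow_mem) | (with_reducible apply neg_mem) | exact one_mem _ | exact zero_mem _ | exact ofNat_mem _ _))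
    · exact mem_of_eq (e := -(((F k / v k) * ((P0 k / (v k ^ 2)) ^ 2)) * ((-(((fb k * F k) * z1 k) * P0 k)) / (v k ^ 5))⁻¹))
        (by (field_simp <;> ring)) (by repeat' (first | (with_reducible assumption) | (with_reducible apply sub_mem) | (with_reducible apply add_mem) | (with_reducible apply mul_mem) | (with_reducible apply pow_mem) | (with_reducible apply neg_mem) | exact one_mem _ | exact zero_mem _ | exact ofNat_mem _ _))
    · exact mem_of_eq (e := (((s k / v k) * (fb k / v k)) * (((-z1 k) / v k) ^ 2)) * (((((fb k / v k) * (F k / v k)) * ((-z1 k) / v k)) * ((-(((fb k * F k) * z1 k) * P0 k)) / (v k ^ 5))⁻¹) ^ 2))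
        (by (field_simp <;> ring)) (by repeat' (first | (with_reducible assumption) | (with_reducible apply sub_mem) | (with_reducible apply add_mem) | (with_reducible apply mul_mem) | (with_reducible apply pow_mem) | (with_reducible apply neg_mem) | exact one_mem _ | exact zero_mem _ | exact ofNat_mem _ _))
    · exact mem_of_eq (e := ((fb k / v k) * (((fb k / v k) * ((-z1 k) / v k)) * (P0 k / (v k ^ 2)))) * ((-(((fb k * F k) * z1 k) * P0 k)) / (v k ^ 5))⁻¹)
        (by (field_simp <;> ring)) (by repeat' (first | (with_reducible assumption) | (with_reducible apply sub_mem) | (with_reducible apply add_mem) | (with_reducible apply mul_mem) | (with_reducible apply pow_mem) | (with_reducible apply neg_mem) | exact one_mem _ | exact zero_mem _ | exact ofNat_mem _ _))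
  · have hle : chart k .A ≤ chart k .A ⊔ Algebra.adjoin k {((-((v k * F k) * (P0 k ^ 3))) / ((fb k ^ 3) * (z1 k ^ 5)))⁻¹} := le_sup_left
    have w_A1 := hle j_A1
    have w_A2 := hle j_A2
    have w_A3 := hle j_A3
    have w_Hi := hle j_Hi
    have w_gA := hle j_gA
    have w_bA := hle j_bA
    have w_NA := hle j_NA
    have w_HA := hle j_HA
    have w_inv : ((-((v k * F k) * (P0 k ^ 3))) / ((fb k ^ 3) * (z1 k ^ 5)))⁻¹ ∈ chart k .A ⊔ Algebra.adjoin k {((-((v k * F k) * (P0 k ^ 3))) / ((fb k ^ 3) * (z1 k ^ 5)))⁻¹} := mem_adjoin_inv _
    intro x hx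
    simp only [gens, Set.mem_insert_iff, Set.mem_singleton_iff] at hx
    rcases hx with rfl | rfl | rfl | rfl
    · exact mem_of_eq (e := (((y k * P0 k) / (fb k * z1 k)) * ((v k / z1 k) * ((-(F k * (P0 k ^ 2))) / ((fb k ^ 2) * (z1 k ^ 3))))) * ((-((v k * F k) * (P0 k ^ 3))) / ((fb k ^ 3) * (z1 k ^ 5)))⁻¹)
        (by (field_simp <;> ring)) (by repeat' (first | (with_reducible assumption) | (with_reducible apply sub_mem) | (with_reducible apply add_mem) | (with_reducible apply mul_mem) | (with_reducible apply pow_mem) | (with_reducible apply neg_mem) | exact one_mem _ | exact zero_mem _ | exact ofNat_mem _ _))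
    · exact mem_of_eq (e := (-((((v k / z1 k) * ((P0 k ^ 3) / ((fb k ^ 2) * (z1 k ^ 3)))) * (F k / fb k)) * (v k / z1 k))) * ((-((v k * F k) * (P0 k ^ 3))) / ((fb k ^ 3) * (z1 k ^ 5)))⁻¹)
        (by (field_simp <;> ring)) (by repeat' (first | (with_reducible assumption) | (with_reducible apply sub_mem) | (with_reducible apply add_mem) | (with_reducible apply mul_mem) | (with_reducible apply pow_mem) | (with_reducible apply neg_mem) | exact one_mem _ | exact zero_mem _ | exact ofNat_mem _ _))
    · exact mem_of_eq (e := -(((((((s k * fb k) * (z1 k ^ 2)) / (P0 k ^ 2)) * ((-(F k * (P0 k ^ 2))) / ((fb k ^ 2) * (z1 k ^ 3)))) * (fb k / F k)) * ((P0 k / (fb k * z1 k)) * ((-(F k * (P0 k ^ 2))) / ((fb k ^ 2) * (z1 k ^ 3))))) * ((-((v k * F k) * (P0 k ^ 3))) / ((fb k ^ 3) * (z1 k ^ 5)))⁻¹))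
        (by (field_simp <;> ring)) (by repeat' (first | (with_reducible assumption) | (with_reducible apply sub_mem) | (with_reducible apply add_mem) | (with_reducible apply mul_mem) | (with_reducible apply pow_mem) | (with_reducible apply neg_mem) | exact one_mem _ | exact zero_mem _ | exact ofNat_mem _ _))
    · exact mem_of_eq (e := -(((((-(F k * (P0 k ^ 2))) / ((fb k ^ 2) * (z1 k ^ 3))) * (fb k / F k)) * ((((v k / z1 k) * ((-(F k * (P0 k ^ 2))) / ((fb k ^ 2) * (z1 k ^ 3)))) * ((-((v k * F k) * (P0 k ^ 3))) / ((fb k ^ 3) * (z1 k ^ 5)))⁻¹) ^ 2)) * (((P0 k / (fb k * z1 k)) * ((-(F k * (P0 k ^ 2))) / ((fb k ^ 2) * (z1 k ^ 3)))) * ((-((v k * F k) * (P0 k ^ 3))) / ((fb k ^ 3) * (z1 k ^ 5)))⁻¹)))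
        (by (field_simp <;> ring)) (by repeat' (first | (with_reducible assumption) | (with_reducible apply sub_mem) | (with_reducible apply add_mem) | (with_reducible apply mul_mem) | (with_reducible apply pow_mem) | (with_reducible apply neg_mem) | exact one_mem _ | exact zero_mem _ | exact ofNat_mem _ _))

end Helper50.D71
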