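import Pool.Agent.Helper50.D71.Tac

/-!
# Pairs of charts (generated)
-/

universe u

namespace Helper50.D71

variable (k : Type u) [Field k]

set_option maxHeartbeats 1000000

attribute [local irreducible] s y v fb F z1 z0 P0 dd

theorem good_S_Pa : Good (chart k .S) (chart k .Pa) := by
  have hs := s_ne k; have hy := y_ne k; have hv := v_ne k; have hfb := fb_ne k
  have hF := F_ne k; have hz1 := z1_ne k; have hz0 := z0_ne k; have hP0 := P0_ne k
  have hdd := dd_ne k
  have i_y : y k ∈ chart k .S := Algebra.subset_adjoin (by simp [gens])
  have i_s : s k ∈ chart k .S := Algebra.subset_adjoin (by simp [gens])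
  have i_ft : fb k / s k ∈ chart k .S := Algebra.subset_adjoin (by simp [gens])
  have i_vt : v k / s k ∈ chart k .S := Algebra.subset_adjoin (by simp [gens])
  have i_dS : dd k ∈ chart k .S :=
    mem_of_eq (e := ((s k) ^ 3) - (y k))
      (by field_simp; (try simp only [dd_eq]); (try ring)) (by repeat' (first | (with_reducible assumption) | (with_reducible apply sub_mem) | (with_reducible apply add_mem) | (with_reducible apply mul_mem) | (with_reducible apply pow_mem) | (with_reducible apply neg_mem) | exact one_mem _ | exact zero_mem _ | exact ofNat_mem _ _))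
  have i_v3S : z0 k / s k ∈ chart k .S :=
    mem_of_eq (e := ((s k) * (((((s k) ^ 2) * (v k / s k)) + (fb k / s k)) - (s k))) - ((y k) * (v k / s k)))
      (by field_simp; (try simp only [z0_eq, z1_eq, F_eq]); (try ring)) (by repeat' (first | (with_reducible assumption) | (with_reducible apply sub_mem) | (with_reducible apply add_mem) | (with_reducible apply mul_mem) | (with_reducible apply pow_mem) | (with_reducible apply neg_mem) | exact one_mem _ | exact zero_mem _ | exact ofNat_mem _ _))
  have j_X1 : 1 / s k ∈ chart k .Pa := Algebra.subset_adjoin (by simp [gens])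
  have j_Z : y k / s k ∈ chart k .Pa := Algebra.subset_adjoin (by simp [gens])
  have j_v3 : z0 k / s k ∈ chart k .Pa := Algebra.subset_adjoin (by simp [gens])
  have j_ui : (s k ^ 3) / dd k ∈ chart k .Pa := Algebra.subset_adjoin (by simp [gens])
  have j_vtP : v k / s k ∈ chart k .Pa :=
    mem_of_eq (e := ((((1 / s k) ^ 3) * (z0 k / s k)) - ((((y k / s k) ^ 3) - (1 / s k)) - ((1 / s k) ^ 3))) * ((s k ^ 3) / dd k))
      (by field_simp; (try simp only [z0_eq, z1_eq, F_eq, fb_eq, dd_eq]); (try ring)) (by repeat' (first | (with_reducible assumption) | (with_reducible apply sub_mem) | (with_reducible apply add_mem) | (with_reducible apply mul_mem) | (with_reducible apply pow_mem) | (with_reducible apply neg_mem) | exact one_mem _ | exact zero_mem _ | exact ofNat_mem _ _))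
  have i_f : s k * dd k ∈ chart k .S :=
    mem_of_eq (e := (s k) * (dd k))
      (by (field_simp <;> ring)) (by repeat' (first | (with_reducible assumption) | (with_reducible apply sub_mem) | (with_reducible apply add_mem) | (with_reducible apply mul_mem) | (with_reducible apply pow_mem) | (with_reducible apply neg_mem) | exact one_mem _ | exact zero_mem _ | exact ofNat_mem _ _))
  have j_g : 1 / s k ∈ chart k .Pa :=
    mem_of_eq (e := 1 / s k)
      (by (field_simp <;> ring)) (by repeat' (first | (with_reducible assumption) | (with_reducible apply sub_mem) | (with_reducible apply add_mem) | (with_reducible apply mul_mem) | (with_reducible apply pow_mem) | (with_reducible apply neg_mem) | exact one_mem _ | exact zero_mem _ | exact ofNat_mem _ _))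
  have hi : chart k .S ≤ chart k .S ⊔ chart k .Pa := le_sup_left
  have hj : chart k .Pa ≤ chart k .S ⊔ chart k .Pa := le_sup_right
  have u_i_y := hi i_y
  have u_i_s := hi i_s
  have u_i_ft := hi i_ft
  have u_i_vt := hi i_vt
  have u_i_dS := hi i_dS
  have u_i_v3S := hi i_v3S
  have u_j_X1 := hj j_X1
  have u_j_Z := hj j_Z
  have u_j_v3 := hj j_v3
  have u_j_ui := hj j_ui
  have u_j_vtP := hj j_vtP
  have ef : (s k * dd k) * (((1 / s k) ^ 4) * ((s k ^ 3) / dd k)) = 1 := by (field_simp <;> ring)
  have eg : (1 / s k) * (s k) = 1 := by (field_simp <;> ring)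
  have u_fi : (s k * dd k)⁻¹ ∈ chart k .S ⊔ chart k .Pa := by
    rw [(ne_inv_of_mul ef).2]; repeat' (first | (with_reducible assumption) | (with_reducible apply sub_mem) | (with_reducible apply add_mem) | (with_reducible apply mul_mem) | (with_reducible apply pow_mem) | (with_reducible apply neg_mem) | exact one_mem _ | exact zero_mem _ | exact ofNat_mem _ _)
  have u_gi : (1 / s k)⁻¹ ∈ chart k .S ⊔ chart k .Pa := by
    rw [(ne_inv_of_mul eg).2]; repeat' (first | (with_reducible assumption) | (with_reducible apply sub_mem) | (with_reducible apply add_mem) | (with_reducible apply mul_mem) | (with_reducible apply pow_mem) | (with_reducible apply neg_mem) | exact one_mem _ | exact zero_mem _ | exact ofNat_mem _ _)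
  refine good_chart (s k * dd k) (1 / s k) i_f j_g
    (ne_inv_of_mul ef).1 (ne_inv_of_mul eg).1 u_fi u_gi ?_ ?_
  · have hle : chart k .S ≤ chart k .S ⊔ Algebra.adjoin k {(s k * dd k)⁻¹} := le_sup_left
    have w_y := hle i_y
    have w_s := hle i_s
    have w_ft := hle i_ft
    have w_vt := hle i_vt
    have w_dS := hle i_dS
    have w_v3S := hle i_v3S
    have w_inv : (s k * dd k)⁻¹ ∈ chart k .S ⊔ Algebra.adjoin k {(s k * dd k)⁻¹} := mem_adjoin_inv _
    intro x hx
    simp only [gens, Set.mem_insert_iff, Set.mem_singleton_iff] at hx
    rcases hx with rfl | rfl | rfl | rfl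
    · exact mem_of_eq (e := (dd k) * (s k * dd k)⁻¹)
        (by (field_simp <;> ring)) (by repeat' (first | (with_reducible assumption) | (with_reducible apply sub_mem) | (with_reducible apply add_mem) | (with_reducible apply mul_mem) | (with_reducible apply pow_mem) | (with_reducible apply neg_mem) | exact one_mem _ | exact zero_mem _ | exact ofNat_mem _ _))
    · exact mem_of_eq (e := (y k) * ((dd k) * (s k * dd k)⁻¹))
        (by (field_simp <;> ring)) (by repeat' (first | (with_reducible assumption) | (with_reducible apply sub_mem) | (with_reducible apply add_mem) | (with_reducible apply mul_mem) | (with_reducible apply pow_mem) | (with_reducible apply neg_mem) | exact one_mem _ | exact zero_mem _ | exact ofNat_mem _ _))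
    · exact mem_of_eq (e := z0 k / s k)
        (by (field_simp <;> ring)) (by repeat' (first | (with_reducible assumption) | (with_reducible apply sub_mem) | (with_reducible apply add_mem) | (with_reducible apply mul_mem) | (with_reducible apply pow_mem) | (with_reducible apply neg_mem) | exact one_mem _ | exact zero_mem _ | exact ofNat_mem _ _))
    · exact mem_of_eq (e := ((s k) ^ 4) * (s k * dd k)⁻¹)
        (by (field_simp <;> ring)) (by repeat' (first | (with_reducible assumption) | (with_reducible apply sub_mem) | (with_reducible apply add_mem) | (with_reducible apply mul_mem) | (with_reducible apply pow_mem) | (with_reducible apply neg_mem) | exact one_mem _ | exact zero_mem _ | exact ofNat_mem _ _))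
  · have hle : chart k .Pa ≤ chart k .Pa ⊔ Algebra.adjoin k {(1 / s k)⁻¹} := le_sup_left
    have w_X1 := hle j_X1
    have w_Z := hle j_Z
    have w_v3 := hle j_v3
    have w_ui := hle j_ui
    have w_vtP := hle j_vtP
    have w_inv : (1 / s k)⁻¹ ∈ chart k .Pa ⊔ Algebra.adjoin k {(1 / s k)⁻¹} := mem_adjoin_inv _
    intro x hx
    simp only [gens, Set.mem_insert_iff, Set.mem_singleton_iff] at hx
    rcases hx with rfl | rfl | rfl | rfl
    · exact mem_of_eq (e := (y k / s k) * (1 / s k)⁻¹)
        (by (field_simp <;> ring)) (by repeat' (first | (with_reducible assumption) | (with_reducible apply sub_mem) | (with_reducible apply add_mem) | (with_reducible apply mul_mem) | (with_reducible apply pow_mem) | (with_reducible apply neg_mem) | exact one_mem _ | exact zero_mem _ | exact ofNat_mem _ _))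
    · exact mem_of_eq (e := (1 / s k)⁻¹)
        (by (field_simp <;> ring)) (by repeat' (first | (with_reducible assumption) | (with_reducible apply sub_mem) | (with_reducible apply add_mem) | (with_reducible apply mul_mem) | (with_reducible apply pow_mem) | (with_reducible apply neg_mem) | exact one_mem _ | exact zero_mem _ | exact ofNat_mem _ _))
    · exact mem_of_eq (e := ((((y k / s k) * (1 / s k)⁻¹) ^ 3) - 1) * (1 / s k))
        (by field_simp; (try simp only [fb_eq]); (try ring)) (by repeat' (first | (with_reducible assumption) | (with_reducible apply sub_mem) | (with_reducible apply add_mem) | (with_reducible apply mul_mem) | (with_reducible apply pow_mem) | (with_reducible apply neg_mem) | exact one_mem _ | exact zero_mem _ | exact ofNat_mem _ _))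
    · exact mem_of_eq (e := v k / s k)
        (by (field_simp <;> ring)) (by repeat' (first | (with_reducible assumption) | (with_reducible apply sub_mem) | (with_reducible apply add_mem) | (with_reducible apply mul_mem) | (with_reducible apply pow_mem) | (with_reducible apply neg_mem) | exact one_mem _ | exact zero_mem _ | exact ofNat_mem _ _))

theorem good_Pa_Pb : Good (chart k .Pa) (chart k .Pb) := by
  have hs := s_ne k; have hy := y_ne k; have hv := v_ne k; have hfb := fb_ne k
  have hF := F_ne k; have hz1 := z1_ne k; have hz0 := z0_ne k; have hP0 := P0_ne k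
  have hdd := dd_ne k
  have i_X1 : 1 / s k ∈ chart k .Pa := Algebra.subset_adjoin (by simp [gens])
  have i_Z : y k / s k ∈ chart k .Pa := Algebra.subset_adjoin (by simp [gens])
  have i_v3 : z0 k / s k ∈ chart k .Pa := Algebra.subset_adjoin (by simp [gens])
  have i_ui : (s k ^ 3) / dd k ∈ chart k .Pa := Algebra.subset_adjoin (by simp [gens])
  have j_X1 : 1 / s k ∈ chart k .Pb := Algebra.subset_adjoin (by simp [gens])
  have j_Z : y k / s k ∈ chart k .Pb := Algebra.subset_adjoin (by simp [gens])
  have j_w3 : s k / z0 k ∈ chart k .Pb := Algebra.subset_adjoin (by simp [gens])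
  have j_ui : (s k ^ 3) / dd k ∈ chart k .Pb := Algebra.subset_adjoin (by simp [gens])
  have i_f : z0 k / s k ∈ chart k .Pa :=
    mem_of_eq (e := z0 k / s k)
      (by (field_simp <;> ring)) (by repeat' (first | (with_reducible assumption) | (with_reducible apply sub_mem) | (with_reducible apply add_mem) | (with_reducible apply mul_mem) | (with_reducible apply pow_mem) | (with_reducible apply neg_mem) | exact one_mem _ | exact zero_mem _ | exact ofNat_mem _ _))
  have j_g : s k / z0 k ∈ chart k .Pb :=
    mem_of_eq (e := s k / z0 k)
      (by (field_simp <;> ring)) (by repeat' (first | (with_reducible assumption) | (with_reducible apply sub_mem) | (with_reducible apply add_mem) | (with_reducible apply mul_mem) | (with_reducible apply pow_mem) | (with_reducible apply neg_mem) | exact one_mem _ | exact zero_mem _ | exact ofNat_mem _ _))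
  have hi : chart k .Pa ≤ chart k .Pa ⊔ chart k .Pb := le_sup_left
  have hj : chart k .Pb ≤ chart k .Pa ⊔ chart k .Pb := le_sup_right
  have u_i_X1 := hi i_X1
  have u_i_Z := hi i_Z
  have u_i_v3 := hi i_v3
  have u_i_ui := hi i_ui
  have u_j_X1 := hj j_X1
  have u_j_Z := hj j_Z
  have u_j_w3 := hj j_w3
  have u_j_ui := hj j_ui
  have ef : (z0 k / s k) * (s k / z0 k) = 1 := by (field_simp <;> ring)
  have eg : (s k / z0 k) * (z0 k / s k) = 1 := by (field_simp <;> ring)
  have u_fi : (z0 k / s k)⁻¹ ∈ chart k .Pa ⊔ chart k .Pb := by
    rw [(ne_inv_of_mul ef).2]; repeat' (first | (with_reducible assumption) | (with_reducible apply sub_mem) | (with_reducible apply add_mem) | (with_reducible apply mul_mem) | (with_reducible apply pow_mem) | (with_reducible apply neg_mem) | exact one_mem _ | exact zero_mem _ | exact ofNat_mem _ _)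
  have u_gi : (s k / z0 k)⁻¹ ∈ chart k .Pa ⊔ chart k .Pb := by
    rw [(ne_inv_of_mul eg).2]; repeat' (first | (with_reducible assumption) | (with_reducible apply sub_mem) | (with_reducible apply add_mem) | (with_reducible apply mul_mem) | (with_reducible apply pow_mem) | (with_reducible apply neg_mem) | exact one_mem _ | exact zero_mem _ | exact ofNat_mem _ _)
  refine good_chart (z0 k / s k) (s k / z0 k) i_f j_g
    (ne_inv_of_mul ef).1 (ne_inv_of_mul eg).1 u_fi u_gi ?_ ?_
  · have hle : chart k .Pa ≤ chart k .Pa ⊔ Algebra.adjoin k {(z0 k / s k)⁻¹} := le_sup_left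
    have w_X1 := hle i_X1
    have w_Z := hle i_Z
    have w_v3 := hle i_v3
    have w_ui := hle i_ui
    have w_inv : (z0 k / s k)⁻¹ ∈ chart k .Pa ⊔ Algebra.adjoin k {(z0 k / s k)⁻¹} := mem_adjoin_inv _
    intro x hx
    simp only [gens, Set.mem_insert_iff, Set.mem_singleton_iff] at hx
    rcases hx with rfl | rfl | rfl | rfl
    · exact mem_of_eq (e := 1 / s k)
        (by (field_simp <;> ring)) (by repeat' (first | (with_reducible assumption) | (with_reducible apply sub_mem) | (with_reducible apply add_mem) | (with_reducible apply mul_mem) | (with_reducible apply pow_mem) | (with_reducible apply neg_mem) | exact one_mem _ | exact zero_mem _ | exact ofNat_mem _ _))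
    · exact mem_of_eq (e := y k / s k)
        (by (field_simp <;> ring)) (by repeat' (first | (with_reducible assumption) | (with_reducible apply sub_mem) | (with_reducible apply add_mem) | (with_reducible apply mul_mem) | (with_reducible apply pow_mem) | (with_reducible apply neg_mem) | exact one_mem _ | exact zero_mem _ | exact ofNat_mem _ _))
    · exact mem_of_eq (e := (z0 k / s k)⁻¹)
        (by (field_simp <;> ring)) (by repeat' (first | (with_reducible assumption) | (with_reducible apply sub_mem) | (with_reducible apply add_mem) | (with_reducible apply mul_mem) | (with_reducible apply pow_mem) | (with_reducible apply neg_mem) | exact one_mem _ | exact zero_mem _ | exact ofNat_mem _ _))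
    · exact mem_of_eq (e := (s k ^ 3) / dd k)
        (by (field_simp <;> ring)) (by repeat' (first | (with_reducible assumption) | (with_reducible apply sub_mem) | (with_reducible apply add_mem) | (with_reducible apply mul_mem) | (with_reducible apply pow_mem) | (with_reducible apply neg_mem) | exact one_mem _ | exact zero_mem _ | exact ofNat_mem _ _))
  · have hle : chart k .Pb ≤ chart k .Pb ⊔ Algebra.adjoin k {(s k / z0 k)⁻¹} := le_sup_left
    have w_X1 := hle j_X1
    have w_Z := hle j_Z
    have w_w3 := hle j_w3
    have w_ui := hle j_ui
    have w_inv : (s k / z0 k)⁻¹ ∈ chart k .Pb ⊔ Algebra.adjoin k {(s k / z0 k)⁻¹} := mem_adjoin_inv _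
    intro x hx
    simp only [gens, Set.mem_insert_iff, Set.mem_singleton_iff] at hx
    rcases hx with rfl | rfl | rfl | rfl
    · exact mem_of_eq (e := 1 / s k)
        (by (field_simp <;> ring)) (by repeat' (first | (with_reducible assumption) | (with_reducible apply sub_mem) | (with_reducible apply add_mem) | (with_reducible apply mul_mem) | (with_reducible apply pow_mem) | (with_reducible apply neg_mem) | exact one_mem _ | exact zero_mem _ | exact ofNat_mem _ _))
    · exact mem_of_eq (e := y k / s k)
        (by (field_simp <;> ring)) (by repeat' (first | (with_reducible assumption) | (with_reducible apply sub_mem) | (with_reducible apply add_mem) | (with_reducible apply mul_mem) | (with_reducible apply pow_mem) | (with_reducible apply neg_mem) | exact one_mem _ | exact zero_mem _ | exact ofNat_mem _ _))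
    · exact mem_of_eq (e := (s k / z0 k)⁻¹)
        (by (field_simp <;> ring)) (by repeat' (first | (with_reducible assumption) | (with_reducible apply sub_mem) | (with_reducible apply add_mem) | (with_reducible apply mul_mem) | (with_reducible apply pow_mem) | (with_reducible apply neg_mem) | exact one_mem _ | exact zero_mem _ | exact ofNat_mem _ _))
    · exact mem_of_eq (e := (s k ^ 3) / dd k)
        (by (field_simp <;> ring)) (by repeat' (first | (with_reducible assumption) | (with_reducible apply sub_mem) | (with_reducible apply add_mem) | (with_reducible apply mul_mem) | (with_reducible apply pow_mem) | (with_reducible apply neg_mem) | exact one_mem _ | exact zero_mem _ | exact ofNat_mem _ _))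

end Helper50.D71
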