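import Pool.Agent.Helper50.D71.Tac

/-!
# Pairs of charts (generated)
-/

universe u

namespace Helper50.D71

variable (k : Type u) [Field k]

set_option maxHeartbeats 1000000

attribute [local irreducible] s y v fb F z1 z0 P0 dd

theorem good_W_Pb : Good (chart k .W) (chart k .Pb) := by
  have hs := s_ne k; have hy := y_ne k; have hv := v_ne k; have hfb := fb_ne k
  have hF := F_ne k; have hz1 := z1_ne k; have hz0 := z0_ne k; have hP0 := P0_ne k
  have hdd := dd_ne k
  have i_s : s k ∈ chart k .W := Algebra.subset_adjoin (by simp [gens])
  have i_y : y k ∈ chart k .W := Algebra.subset_adjoin (by simp [gens])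
  have i_w : 1 / v k ∈ chart k .W := Algebra.subset_adjoin (by simp [gens])
  have i_dW : dd k ∈ chart k .W :=
    mem_of_eq (e := ((s k) ^ 3) - (y k))
      (by field_simp; (try simp only [dd_eq]); (try ring)) (by repeat' (first | (with_reducible assumption) | (with_reducible apply sub_mem) | (with_reducible apply add_mem) | (with_reducible apply mul_mem) | (with_reducible apply pow_mem) | (with_reducible apply neg_mem) | exact one_mem _ | exact zero_mem _ | exact ofNat_mem _ _))
  have i_cW : z0 k / v k ∈ chart k .W :=
    mem_of_eq (e := (((s k) ^ 3) - (y k)) + (((s k) * ((((y k) ^ 3) - 1) - ((s k) ^ 2))) * (1 / v k)))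
      (by field_simp; (try simp only [z0_eq, z1_eq, F_eq, fb_eq]); (try ring)) (by repeat' (first | (with_reducible assumption) | (with_reducible apply sub_mem) | (with_reducible apply add_mem) | (with_reducible apply mul_mem) | (with_reducible apply pow_mem) | (with_reducible apply neg_mem) | exact one_mem _ | exact zero_mem _ | exact ofNat_mem _ _))
  have j_X1 : 1 / s k ∈ chart k .Pb := Algebra.subset_adjoin (by simp [gens])
  have j_Z : y k / s k ∈ chart k .Pb := Algebra.subset_adjoin (by simp [gens])
  have j_w3 : s k / z0 k ∈ chart k .Pb := Algebra.subset_adjoin (by simp [gens])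
  have j_ui : (s k ^ 3) / dd k ∈ chart k .Pb := Algebra.subset_adjoin (by simp [gens])
  have j_tP : v k / z0 k ∈ chart k .Pb :=
    mem_of_eq (e := (((1 / s k) ^ 3) - (((((y k / s k) ^ 3) - (1 / s k)) - ((1 / s k) ^ 3)) * (s k / z0 k))) * ((s k ^ 3) / dd k))
      (by field_simp; (try simp only [z0_eq, z1_eq, F_eq, fb_eq, dd_eq]); (try ring)) (by repeat' (first | (with_reducible assumption) | (with_reducible apply sub_mem) | (with_reducible apply add_mem) | (with_reducible apply mul_mem) | (with_reducible apply pow_mem) | (with_reducible apply neg_mem) | exact one_mem _ | exact zero_mem _ | exact ofNat_mem _ _))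
  have j_eP : (v k * dd k) / ((s k ^ 3) * z0 k) ∈ chart k .Pb :=
    mem_of_eq (e := ((1 / s k) ^ 3) - (((((y k / s k) ^ 3) - (1 / s k)) - ((1 / s k) ^ 3)) * (s k / z0 k)))
      (by field_simp; (try simp only [z0_eq, z1_eq, F_eq, fb_eq, dd_eq]); (try ring)) (by repeat' (first | (with_reducible assumption) | (with_reducible apply sub_mem) | (with_reducible apply add_mem) | (with_reducible apply mul_mem) | (with_reducible apply pow_mem) | (with_reducible apply neg_mem) | exact one_mem _ | exact zero_mem _ | exact ofNat_mem _ _))
  have j_uP : dd k / (s k ^ 3) ∈ chart k .Pb :=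
    mem_of_eq (e := 1 - (((1 / s k) ^ 2) * (y k / s k)))
      (by field_simp; (try simp only [dd_eq]); (try ring)) (by repeat' (first | (with_reducible assumption) | (with_reducible apply sub_mem) | (with_reducible apply add_mem) | (with_reducible apply mul_mem) | (with_reducible apply pow_mem) | (with_reducible apply neg_mem) | exact one_mem _ | exact zero_mem _ | exact ofNat_mem _ _))
  have i_f : ((s k * dd k) * z0 k) / v k ∈ chart k .W :=
    mem_of_eq (e := ((s k) * (dd k)) * (z0 k / v k))
      (by (field_simp <;> ring)) (by repeat' (first | (with_reducible assumption) | (with_reducible apply sub_mem) | (with_reducible apply add_mem) | (with_reducible apply mul_mem) | (with_reducible apply pow_mem) | (with_reducible apply neg_mem) | exact one_mem _ | exact zero_mem _ | exact ofNat_mem _ _))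
  have j_g : (v k * dd k) / ((s k ^ 4) * z0 k) ∈ chart k .Pb :=
    mem_of_eq (e := (1 / s k) * ((v k * dd k) / ((s k ^ 3) * z0 k)))
      (by (field_simp <;> ring)) (by repeat' (first | (with_reducible assumption) | (with_reducible apply sub_mem) | (with_reducible apply add_mem) | (with_reducible apply mul_mem) | (with_reducible apply pow_mem) | (with_reducible apply neg_mem) | exact one_mem _ | exact zero_mem _ | exact ofNat_mem _ _))
  have hi : chart k .W ≤ chart k .W ⊔ chart k .Pb := le_sup_left
  have hj : chart k .Pb ≤ chart k .W ⊔ chart k .Pb := le_sup_right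
  have u_i_s := hi i_s
  have u_i_y := hi i_y
  have u_i_w := hi i_w
  have u_i_dW := hi i_dW
  have u_i_cW := hi i_cW
  have u_j_X1 := hj j_X1
  have u_j_Z := hj j_Z
  have u_j_w3 := hj j_w3
  have u_j_ui := hj j_ui
  have u_j_tP := hj j_tP
  have u_j_eP := hj j_eP
  have u_j_uP := hj j_uP
  have ef : (((s k * dd k) * z0 k) / v k) * ((((1 / s k) ^ 4) * ((s k ^ 3) / dd k)) * (v k / z0 k)) = 1 := by (field_simp <;> ring)
  have eg : ((v k * dd k) / ((s k ^ 4) * z0 k)) * (((s k) * ((s k ^ 3) / dd k)) * (z0 k / v k)) = 1 := by (field_simp <;> ring)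
  have u_fi : (((s k * dd k) * z0 k) / v k)⁻¹ ∈ chart k .W ⊔ chart k .Pb := by
    rw [(ne_inv_of_mul ef).2]; repeat' (first | (with_reducible assumption) | (with_reducible apply sub_mem) | (with_reducible apply add_mem) | (with_reducible apply mul_mem) | (with_reducible apply pow_mem) | (with_reducible apply neg_mem) | exact one_mem _ | exact zero_mem _ | exact ofNat_mem _ _)
  have u_gi : ((v k * dd k) / ((s k ^ 4) * z0 k))⁻¹ ∈ chart k .W ⊔ chart k .Pb := by
    rw [(ne_inv_of_mul eg).2]; repeat' (first | (with_reducible assumption) | (with_reducible apply sub_mem) | (with_reducible apply add_mem) | (with_reducible apply mul_mem) | (with_reducible apply pow_mem) | (with_reducible apply neg_mem) | exact one_mem _ | exact zero_mem _ | exact ofNat_mem _ _)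
  refine good_chart (((s k * dd k) * z0 k) / v k) ((v k * dd k) / ((s k ^ 4) * z0 k)) i_f j_g
    (ne_inv_of_mul ef).1 (ne_inv_of_mul eg).1 u_fi u_gi ?_ ?_
  · have hle : chart k .W ≤ chart k .W ⊔ Algebra.adjoin k {(((s k * dd k) * z0 k) / v k)⁻¹} := le_sup_left
    have w_s := hle i_s
    have w_y := hle i_y
    have w_w := hle i_w
    have w_dW := hle i_dW
    have w_cW := hle i_cW
    have w_inv : (((s k * dd k) * z0 k) / v k)⁻¹ ∈ chart k .W ⊔ Algebra.adjoin k {(((s k * dd k) * z0 k) / v k)⁻¹} := mem_adjoin_inv _
    intro x hx
    simp only [gens, Set.mem_insert_iff, Set.mem_singleton_iff] at hx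
    rcases hx with rfl | rfl | rfl | rfl
    · exact mem_of_eq (e := ((dd k) * (z0 k / v k)) * (((s k * dd k) * z0 k) / v k)⁻¹)
        (by (field_simp <;> ring)) (by repeat' (first | (with_reducible assumption) | (with_reducible apply sub_mem) | (with_reducible apply add_mem) | (with_reducible apply mul_mem) | (with_reducible apply pow_mem) | (with_reducible apply neg_mem) | exact one_mem _ | exact zero_mem _ | exact ofNat_mem _ _))
    · exact mem_of_eq (e := (y k) * (((dd k) * (z0 k / v k)) * (((s k * dd k) * z0 k) / v k)⁻¹))
        (by (field_simp <;> ring)) (by repeat' (first | (with_reducible assumption) | (with_reducible apply sub_mem) | (with_reducible apply add_mem) | (with_reducible apply mul_mem) | (with_reducible apply pow_mem) | (with_reducible apply neg_mem) | exact one_mem _ | exact zero_mem _ | exact ofNat_mem _ _))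
    · exact mem_of_eq (e := ((((s k) ^ 2) * (1 / v k)) * (dd k)) * (((s k * dd k) * z0 k) / v k)⁻¹)
        (by (field_simp <;> ring)) (by repeat' (first | (with_reducible assumption) | (with_reducible apply sub_mem) | (with_reducible apply add_mem) | (with_reducible apply mul_mem) | (with_reducible apply pow_mem) | (with_reducible apply neg_mem) | exact one_mem _ | exact zero_mem _ | exact ofNat_mem _ _))
    · exact mem_of_eq (e := (((s k) ^ 4) * (z0 k / v k)) * (((s k * dd k) * z0 k) / v k)⁻¹)
        (by (field_simp <;> ring)) (by repeat' (first | (with_reducible assumption) | (with_reducible apply sub_mem) | (with_reducible apply add_mem) | (with_reducible apply mul_mem) | (with_reducible apply pow_mem) | (with_reducible apply neg_mem) | exact one_mem _ | exact zero_mem _ | exact ofNat_mem _ _))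
  · have hle : chart k .Pb ≤ chart k .Pb ⊔ Algebra.adjoin k {((v k * dd k) / ((s k ^ 4) * z0 k))⁻¹} := le_sup_left
    have w_X1 := hle j_X1
    have w_Z := hle j_Z
    have w_w3 := hle j_w3
    have w_ui := hle j_ui
    have w_tP := hle j_tP
    have w_eP := hle j_eP
    have w_uP := hle j_uP
    have w_inv : ((v k * dd k) / ((s k ^ 4) * z0 k))⁻¹ ∈ chart k .Pb ⊔ Algebra.adjoin k {((v k * dd k) / ((s k ^ 4) * z0 k))⁻¹} := mem_adjoin_inv _
    intro x hx
    simp only [gens, Set.mem_insert_iff, Set.mem_singleton_iff] at hx
    rcases hx with rfl | rfl | rfl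
    · exact mem_of_eq (e := ((v k * dd k) / ((s k ^ 3) * z0 k)) * ((v k * dd k) / ((s k ^ 4) * z0 k))⁻¹)
        (by (field_simp <;> ring)) (by repeat' (first | (with_reducible assumption) | (with_reducible apply sub_mem) | (with_reducible apply add_mem) | (with_reducible apply mul_mem) | (with_reducible apply pow_mem) | (with_reducible apply neg_mem) | exact one_mem _ | exact zero_mem _ | exact ofNat_mem _ _))
    · exact mem_of_eq (e := (y k / s k) * (((v k * dd k) / ((s k ^ 3) * z0 k)) * ((v k * dd k) / ((s k ^ 4) * z0 k))⁻¹))
        (by (field_simp <;> ring)) (by repeat' (first | (with_reducible assumption) | (with_reducible apply sub_mem) | (with_reducible apply add_mem) | (with_reducible apply mul_mem) | (with_reducible apply pow_mem) | (with_reducible apply neg_mem) | exact one_mem _ | exact zero_mem _ | exact ofNat_mem _ _))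
    · exact mem_of_eq (e := ((((1 / s k) ^ 2) * (dd k / (s k ^ 3))) * (s k / z0 k)) * ((v k * dd k) / ((s k ^ 4) * z0 k))⁻¹)
        (by (field_simp <;> ring)) (by repeat' (first | (with_reducible assumption) | (with_reducible apply sub_mem) | (with_reducible apply add_mem) | (with_reducible apply mul_mem) | (with_reducible apply pow_mem) | (with_reducible apply neg_mem) | exact one_mem _ | exact zero_mem _ | exact ofNat_mem _ _))

theorem good_Q_S : Good (chart k .Q) (chart k .S) := by
  have hs := s_ne k; have hy := y_ne k; have hv := v_ne k; have hfb := fb_ne k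
  have hF := F_ne k; have hz1 := z1_ne k; have hz0 := z0_ne k; have hP0 := P0_ne k
  have hdd := dd_ne k
  have i_X : 1 / y k ∈ chart k .Q := Algebra.subset_adjoin (by simp [gens])
  have i_Y : s k / y k ∈ chart k .Q := Algebra.subset_adjoin (by simp [gens])
  have i_bp : z1 k / z0 k ∈ chart k .Q := Algebra.subset_adjoin (by simp [gens])
  have i_Fi : (y k ^ 3) / F k ∈ chart k .Q := Algebra.subset_adjoin (by simp [gens])
  have i_G0 : F k / ((y k ^ 2) * z0 k) ∈ chart k .Q :=
    mem_of_eq (e := ((1 / y k) * ((s k / y k) ^ 2)) - ((((1 / y k) ^ 2) - ((s k / y k) ^ 3)) * (z1 k / z0 k)))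
      (by field_simp; (try simp only [z0_eq, z1_eq, F_eq, fb_eq]); (try ring)) (by repeat' (first | (with_reducible assumption) | (with_reducible apply sub_mem) | (with_reducible apply add_mem) | (with_reducible apply mul_mem) | (with_reducible apply pow_mem) | (with_reducible apply neg_mem) | exact one_mem _ | exact zero_mem _ | exact ofNat_mem _ _))
  have i_tQ : v k / z0 k ∈ chart k .Q :=
    mem_of_eq (e := -((1 / y k) + ((s k / y k) * (z1 k / z0 k))))
      (by field_simp; (try simp only [z0_eq]); (try ring)) (by repeat' (first | (with_reducible assumption) | (with_reducible apply sub_mem) | (with_reducible apply add_mem) | (with_reducible apply mul_mem) | (with_reducible apply pow_mem) | (with_reducible apply neg_mem) | exact one_mem _ | exact zero_mem _ | exact ofNat_mem _ _))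
  have i_FY : F k / (y k ^ 3) ∈ chart k .Q :=
    mem_of_eq (e := (1 - ((1 / y k) * ((s k / y k) ^ 2))) - ((1 / y k) ^ 3))
      (by field_simp; (try simp only [F_eq, fb_eq]); (try ring)) (by repeat' (first | (with_reducible assumption) | (with_reducible apply sub_mem) | (with_reducible apply add_mem) | (with_reducible apply mul_mem) | (with_reducible apply pow_mem) | (with_reducible apply neg_mem) | exact one_mem _ | exact zero_mem _ | exact ofNat_mem _ _))
  have j_y : y k ∈ chart k .S := Algebra.subset_adjoin (by simp [gens])
  have j_s : s k ∈ chart k .S := Algebra.subset_adjoin (by simp [gens])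
  have j_ft : fb k / s k ∈ chart k .S := Algebra.subset_adjoin (by simp [gens])
  have j_vt : v k / s k ∈ chart k .S := Algebra.subset_adjoin (by simp [gens])
  have j_FS : F k / s k ∈ chart k .S :=
    mem_of_eq (e := (fb k / s k) - (s k))
      (by field_simp; (try simp only [F_eq]); (try ring)) (by repeat' (first | (with_reducible assumption) | (with_reducible apply sub_mem) | (with_reducible apply add_mem) | (with_reducible apply mul_mem) | (with_reducible apply pow_mem) | (with_reducible apply neg_mem) | exact one_mem _ | exact zero_mem _ | exact ofNat_mem _ _))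
  have j_v3S : z0 k / s k ∈ chart k .S :=
    mem_of_eq (e := ((s k) * (((((s k) ^ 2) * (v k / s k)) + (fb k / s k)) - (s k))) - ((y k) * (v k / s k)))
      (by field_simp; (try simp only [z0_eq, z1_eq, F_eq]); (try ring)) (by repeat' (first | (with_reducible assumption) | (with_reducible apply sub_mem) | (with_reducible apply add_mem) | (with_reducible apply mul_mem) | (with_reducible apply pow_mem) | (with_reducible apply neg_mem) | exact one_mem _ | exact zero_mem _ | exact ofNat_mem _ _))
  have j_z1S : z1 k / s k ∈ chart k .S :=
    mem_of_eq (e := -(((((s k) ^ 2) * (v k / s k)) + (fb k / s k)) - (s k)))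
      (by field_simp; (try simp only [z1_eq, F_eq]); (try ring)) (by repeat' (first | (with_reducible assumption) | (with_reducible apply sub_mem) | (with_reducible apply add_mem) | (with_reducible apply mul_mem) | (with_reducible apply pow_mem) | (with_reducible apply neg_mem) | exact one_mem _ | exact zero_mem _ | exact ofNat_mem _ _))
  have i_f : (s k * F k) / ((y k ^ 4) * z0 k) ∈ chart k .Q :=
    mem_of_eq (e := ((1 / y k) * (s k / y k)) * (F k / ((y k ^ 2) * z0 k)))
      (by (field_simp <;> ring)) (by repeat' (first | (with_reducible assumption) | (with_reducible apply sub_mem) | (with_reducible apply add_mem) | (with_reducible apply mul_mem) | (with_reducible apply pow_mem) | (with_reducible apply neg_mem) | exact one_mem _ | exact zero_mem _ | exact ofNat_mem _ _))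
  have j_g : ((y k * F k) * z0 k) / s k ∈ chart k .S :=
    mem_of_eq (e := (((y k) * (s k)) * (F k / s k)) * (z0 k / s k))
      (by (field_simp <;> ring)) (by repeat' (first | (with_reducible assumption) | (with_reducible apply sub_mem) | (with_reducible apply add_mem) | (with_reducible apply mul_mem) | (with_reducible apply pow_mem) | (with_reducible apply neg_mem) | exact one_mem _ | exact zero_mem _ | exact ofNat_mem _ _))
  have hi : chart k .Q ≤ chart k .Q ⊔ chart k .S := le_sup_left
  have hj : chart k .S ≤ chart k .Q ⊔ chart k .S := le_sup_right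
  have u_i_X := hi i_X
  have u_i_Y := hi i_Y
  have u_i_bp := hi i_bp
  have u_i_Fi := hi i_Fi
  have u_i_G0 := hi i_G0
  have u_i_tQ := hi i_tQ
  have u_i_FY := hi i_FY
  have u_j_y := hj j_y
  have u_j_s := hj j_s
  have u_j_ft := hj j_ft
  have u_j_vt := hj j_vt
  have u_j_FS := hj j_FS
  have u_j_v3S := hj j_v3S
  have u_j_z1S := hj j_z1S
  have ef : ((s k * F k) / ((y k ^ 4) * z0 k)) * (((y k) * (z0 k / s k)) * ((y k ^ 3) / F k)) = 1 := by (field_simp <;> ring)
  have eg : (((y k * F k) * z0 k) / s k) * (((((1 / y k) ^ 4) * (s k / y k)) * (F k / ((y k ^ 2) * z0 k))) * (((y k ^ 3) / F k) ^ 2)) = 1 := by (field_simp <;> ring)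
  have u_fi : ((s k * F k) / ((y k ^ 4) * z0 k))⁻¹ ∈ chart k .Q ⊔ chart k .S := by
    rw [(ne_inv_of_mul ef).2]; repeat' (first | (with_reducible assumption) | (with_reducible apply sub_mem) | (with_reducible apply add_mem) | (with_reducible apply mul_mem) | (with_reducible apply pow_mem) | (with_reducible apply neg_mem) | exact one_mem _ | exact zero_mem _ | exact ofNat_mem _ _)
  have u_gi : (((y k * F k) * z0 k) / s k)⁻¹ ∈ chart k .Q ⊔ chart k .S := by
    rw [(ne_inv_of_mul eg).2]; repeat' (first | (with_reducible assumption) | (with_reducible apply sub_mem) | (with_reducible apply add_mem) | (with_reducible apply mul_mem) | (with_reducible apply pow_mem) | (with_reducible apply neg_mem) | exact one_mem _ | exact zero_mem _ | exact ofNat_mem _ _)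
  refine good_chart ((s k * F k) / ((y k ^ 4) * z0 k)) (((y k * F k) * z0 k) / s k) i_f j_g
    (ne_inv_of_mul ef).1 (ne_inv_of_mul eg).1 u_fi u_gi ?_ ?_
  · have hle : chart k .Q ≤ chart k .Q ⊔ Algebra.adjoin k {((s k * F k) / ((y k ^ 4) * z0 k))⁻¹} := le_sup_left
    have w_X := hle i_X
    have w_Y := hle i_Y
    have w_bp := hle i_bp
    have w_Fi := hle i_Fi
    have w_G0 := hle i_G0
    have w_tQ := hle i_tQ
    have w_FY := hle i_FY
    have w_inv : ((s k * F k) / ((y k ^ 4) * z0 k))⁻¹ ∈ chart k .Q ⊔ Algebra.adjoin k {((s k * F k) / ((y k ^ 4) * z0 k))⁻¹} := mem_adjoin_inv _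
    intro x hx
    simp only [gens, Set.mem_insert_iff, Set.mem_singleton_iff] at hx
    rcases hx with rfl | rfl | rfl | rfl
    · exact mem_of_eq (e := ((s k / y k) * (F k / ((y k ^ 2) * z0 k))) * ((s k * F k) / ((y k ^ 4) * z0 k))⁻¹)
        (by (field_simp <;> ring)) (by repeat' (first | (with_reducible assumption) | (with_reducible apply sub_mem) | (with_reducible apply add_mem) | (with_reducible apply mul_mem) | (with_reducible apply pow_mem) | (with_reducible apply neg_mem) | exact one_mem _ | exact zero_mem _ | exact ofNat_mem _ _))
    · exact mem_of_eq (e := (s k / y k) * (((s k / y k) * (F k / ((y k ^ 2) * z0 k))) * ((s k * F k) / ((y k ^ 4) * z0 k))⁻¹))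
        (by (field_simp <;> ring)) (by repeat' (first | (with_reducible assumption) | (with_reducible apply sub_mem) | (with_reducible apply add_mem) | (with_reducible apply mul_mem) | (with_reducible apply pow_mem) | (with_reducible apply neg_mem) | exact one_mem _ | exact zero_mem _ | exact ofNat_mem _ _))
    · exact mem_of_eq (e := (((((s k / y k) * (F k / ((y k ^ 2) * z0 k))) * ((s k * F k) / ((y k ^ 4) * z0 k))⁻¹) ^ 3) - 1) * ((((1 / y k) ^ 2) * (F k / ((y k ^ 2) * z0 k))) * ((s k * F k) / ((y k ^ 4) * z0 k))⁻¹))
        (by field_simp; (try simp only [fb_eq]); (try ring)) (by repeat' (first | (with_reducible assumption) | (with_reducible apply sub_mem) | (with_reducible apply add_mem) | (with_reducible apply mul_mem) | (with_reducible apply pow_mem) | (with_reducible apply neg_mem) | exact one_mem _ | exact zero_mem _ | exact ofNat_mem _ _))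
    · exact mem_of_eq (e := (v k / z0 k) * (((F k / (y k ^ 3)) * (1 / y k)) * ((s k * F k) / ((y k ^ 4) * z0 k))⁻¹))
        (by (field_simp <;> ring)) (by repeat' (first | (with_reducible assumption) | (with_reducible apply sub_mem) | (with_reducible apply add_mem) | (with_reducible apply mul_mem) | (with_reducible apply pow_mem) | (with_reducible apply neg_mem) | exact one_mem _ | exact zero_mem _ | exact ofNat_mem _ _))
  · have hle : chart k .S ≤ chart k .S ⊔ Algebra.adjoin k {(((y k * F k) * z0 k) / s k)⁻¹} := le_sup_left
    have w_y := hle j_y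
    have w_s := hle j_s
    have w_ft := hle j_ft
    have w_vt := hle j_vt
    have w_FS := hle j_FS
    have w_v3S := hle j_v3S
    have w_z1S := hle j_z1S
    have w_inv : (((y k * F k) * z0 k) / s k)⁻¹ ∈ chart k .S ⊔ Algebra.adjoin k {(((y k * F k) * z0 k) / s k)⁻¹} := mem_adjoin_inv _
    intro x hx
    simp only [gens, Set.mem_insert_iff, Set.mem_singleton_iff] at hx
    rcases hx with rfl | rfl | rfl | rfl
    · exact mem_of_eq (e := (((s k) * (F k / s k)) * (z0 k / s k)) * (((y k * F k) * z0 k) / s k)⁻¹)
        (by (field_simp <;> ring)) (by repeat' (first | (with_reducible assumption) | (with_reducible apply sub_mem) | (with_reducible apply add_mem) | (with_reducible apply mul_mem) | (with_reducible apply pow_mem) | (with_reducible apply neg_mem) | exact one_mem _ | exact zero_mem _ | exact ofNat_mem _ _))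
    · exact mem_of_eq (e := (s k) * ((((s k) * (F k / s k)) * (z0 k / s k)) * (((y k * F k) * z0 k) / s k)⁻¹))
        (by (field_simp <;> ring)) (by repeat' (first | (with_reducible assumption) | (with_reducible apply sub_mem) | (with_reducible apply add_mem) | (with_reducible apply mul_mem) | (with_reducible apply pow_mem) | (with_reducible apply neg_mem) | exact one_mem _ | exact zero_mem _ | exact ofNat_mem _ _))
    · exact mem_of_eq (e := (z1 k / s k) * ((((y k) * (s k)) * (F k / s k)) * (((y k * F k) * z0 k) / s k)⁻¹))
        (by (field_simp <;> ring)) (by repeat' (first | (with_reducible assumption) | (with_reducible apply sub_mem) | (with_reducible apply add_mem) | (with_reducible apply mul_mem) | (with_reducible apply pow_mem) | (with_reducible apply neg_mem) | exact one_mem _ | exact zero_mem _ | exact ofNat_mem _ _))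
    · exact mem_of_eq (e := (((y k) ^ 4) * (z0 k / s k)) * (((y k * F k) * z0 k) / s k)⁻¹)
        (by (field_simp <;> ring)) (by repeat' (first | (with_reducible assumption) | (with_reducible apply sub_mem) | (with_reducible apply add_mem) | (with_reducible apply mul_mem) | (with_reducible apply pow_mem) | (with_reducible apply neg_mem) | exact one_mem _ | exact zero_mem _ | exact ofNat_mem _ _))

end Helper50.D71
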