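import Pool.Agent.Helper50.D71.PairsX1
import Pool.Agent.Helper50.D71.PairsX2
import Pool.Agent.Helper50.D71.PairsX3
import Pool.Agent.Helper50.D71.PairsX4
import Pool.Agent.Helper50.D71.PairsT1
import Pool.Agent.Helper50.D71.PairsT2
import Pool.Agent.Helper50.D71.PairsT3
import Pool.Agent.Helper50.D71.PairsT4
import Pool.Agent.Helper50.D71.PairsP1
import Pool.Agent.Helper50.D71.PairsP2
import Pool.Agent.Helper50.D71.PairsP3
import Pool.Agent.Helper50.D71.PairsP4

/-!
# Pairs of charts (generated)
-/

universe u

namespace Helper50.D71

variable (k : Type u) [Field k]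

set_option maxHeartbeats 1000000

attribute [local irreducible] s y v fb F z1 z0 P0 dd

theorem good_A_C : Good (chart k .A) (chart k .C) := by
  have hs := s_ne k; have hy := y_ne k; have hv := v_ne k; have hfb := fb_ne k
  have hF := F_ne k; have hz1 := z1_ne k; have hz0 := z0_ne k; have hP0 := P0_ne k
  have hdd := dd_ne k
  have u_i_A1 : (y k * P0 k) / (fb k * z1 k) ∈ chart k .A ⊔ chart k .C :=
    (le_sup_left : chart k .A ≤ _) (Algebra.subset_adjoin (by simp [gens]))
  have u_i_A2 : P0 k / (fb k * z1 k) ∈ chart k .A ⊔ chart k .C :=
    (le_sup_left : chart k .A ≤ _) (Algebra.subset_adjoin (by simp [gens]))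
  have u_i_A3 : ((s k * fb k) * (z1 k ^ 2)) / (P0 k ^ 2) ∈ chart k .A ⊔ chart k .C :=
    (le_sup_left : chart k .A ≤ _) (Algebra.subset_adjoin (by simp [gens]))
  have u_i_Hi : fb k / F k ∈ chart k .A ⊔ chart k .C :=
    (le_sup_left : chart k .A ≤ _) (Algebra.subset_adjoin (by simp [gens]))
  have u_j_C1 : y k ∈ chart k .A ⊔ chart k .C :=
    (le_sup_right : chart k .C ≤ _) (Algebra.subset_adjoin (by simp [gens]))
  have u_j_C2 : P0 k / (s k * z1 k) ∈ chart k .A ⊔ chart k .C :=
    (le_sup_right : chart k .C ≤ _) (Algebra.subset_adjoin (by simp [gens]))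
  have u_j_C3 : s k / fb k ∈ chart k .A ⊔ chart k .C :=
    (le_sup_right : chart k .C ≤ _) (Algebra.subset_adjoin (by simp [gens]))
  have u_j_Hi : fb k / F k ∈ chart k .A ⊔ chart k .C :=
    (le_sup_right : chart k .C ≤ _) (Algebra.subset_adjoin (by simp [gens]))
  refine good_via .B (good_A_B k) (good_B_C k) ?_
  intro x hx
  simp only [gens, Set.mem_insert_iff, Set.mem_singleton_iff] at hx
  rcases hx with rfl | rfl | rfl | rfl
  · exact mem_of_eq (e := ((y k * P0 k) / (fb k * z1 k)) * (((s k * fb k) * (z1 k ^ 2)) / (P0 k ^ 2)))
      (by (field_simp <;> ring)) (by repeat' (first | (with_reducible assumption) | (with_reducible apply sub_mem) | (with_reducible apply add_mem) | (with_reducible apply mul_mem) | (with_reducible apply pow_mem) | (with_reducible apply neg_mem) | exact one_mem _ | exact zero_mem _ | exact ofNat_mem _ _))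
  · exact mem_of_eq (e := (P0 k / (fb k * z1 k)) * (((s k * fb k) * (z1 k ^ 2)) / (P0 k ^ 2)))
      (by (field_simp <;> ring)) (by repeat' (first | (with_reducible assumption) | (with_reducible apply sub_mem) | (with_reducible apply add_mem) | (with_reducible apply mul_mem) | (with_reducible apply pow_mem) | (with_reducible apply neg_mem) | exact one_mem _ | exact zero_mem _ | exact ofNat_mem _ _))
  · exact mem_of_eq (e := (P0 k / (fb k * z1 k)) * (P0 k / (s k * z1 k)))
      (by (field_simp <;> ring)) (by repeat' (first | (with_reducible assumption) | (with_reducible apply sub_mem) | (with_reducible apply add_mem) | (with_reducible apply mul_mem) | (with_reducible apply pow_mem) | (with_reducible apply neg_mem) | exact one_mem _ | exact zero_mem _ | exact ofNat_mem _ _))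
  · exact mem_of_eq (e := fb k / F k)
      (by (field_simp <;> ring)) (by repeat' (first | (with_reducible assumption) | (with_reducible apply sub_mem) | (with_reducible apply add_mem) | (with_reducible apply mul_mem) | (with_reducible apply pow_mem) | (with_reducible apply neg_mem) | exact one_mem _ | exact zero_mem _ | exact ofNat_mem _ _))

theorem good_A_D : Good (chart k .A) (chart k .D) := by
  have hs := s_ne k; have hy := y_ne k; have hv := v_ne k; have hfb := fb_ne k
  have hF := F_ne k; have hz1 := z1_ne k; have hz0 := z0_ne k; have hP0 := P0_ne k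
  have hdd := dd_ne k
  have u_i_A1 : (y k * P0 k) / (fb k * z1 k) ∈ chart k .A ⊔ chart k .D :=
    (le_sup_left : chart k .A ≤ _) (Algebra.subset_adjoin (by simp [gens]))
  have u_i_A2 : P0 k / (fb k * z1 k) ∈ chart k .A ⊔ chart k .D :=
    (le_sup_left : chart k .A ≤ _) (Algebra.subset_adjoin (by simp [gens]))
  have u_i_A3 : ((s k * fb k) * (z1 k ^ 2)) / (P0 k ^ 2) ∈ chart k .A ⊔ chart k .D :=
    (le_sup_left : chart k .A ≤ _) (Algebra.subset_adjoin (by simp [gens]))
  have u_i_Hi : fb k / F k ∈ chart k .A ⊔ chart k .D :=
    (le_sup_left : chart k .A ≤ _) (Algebra.subset_adjoin (by simp [gens]))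
  have u_j_D1 : 1 / y k ∈ chart k .A ⊔ chart k .D :=
    (le_sup_right : chart k .D ≤ _) (Algebra.subset_adjoin (by simp [gens]))
  have u_j_D2 : P0 k / ((y k * s k) * z1 k) ∈ chart k .A ⊔ chart k .D :=
    (le_sup_right : chart k .D ≤ _) (Algebra.subset_adjoin (by simp [gens]))
  have u_j_D3 : ((y k ^ 2) * s k) / fb k ∈ chart k .A ⊔ chart k .D :=
    (le_sup_right : chart k .D ≤ _) (Algebra.subset_adjoin (by simp [gens]))
  have u_j_Hi : fb k / F k ∈ chart k .A ⊔ chart k .D :=
    (le_sup_right : chart k .D ≤ _) (Algebra.subset_adjoin (by simp [gens]))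
  refine good_via .B (good_A_B k) (good_B_D k) ?_
  intro x hx
  simp only [gens, Set.mem_insert_iff, Set.mem_singleton_iff] at hx
  rcases hx with rfl | rfl | rfl | rfl
  · exact mem_of_eq (e := ((y k * P0 k) / (fb k * z1 k)) * (((s k * fb k) * (z1 k ^ 2)) / (P0 k ^ 2)))
      (by (field_simp <;> ring)) (by repeat' (first | (with_reducible assumption) | (with_reducible apply sub_mem) | (with_reducible apply add_mem) | (with_reducible apply mul_mem) | (with_reducible apply pow_mem) | (with_reducible apply neg_mem) | exact one_mem _ | exact zero_mem _ | exact ofNat_mem _ _))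
  · exact mem_of_eq (e := (P0 k / (fb k * z1 k)) * (((s k * fb k) * (z1 k ^ 2)) / (P0 k ^ 2)))
      (by (field_simp <;> ring)) (by repeat' (first | (with_reducible assumption) | (with_reducible apply sub_mem) | (with_reducible apply add_mem) | (with_reducible apply mul_mem) | (with_reducible apply pow_mem) | (with_reducible apply neg_mem) | exact one_mem _ | exact zero_mem _ | exact ofNat_mem _ _))
  · exact mem_of_eq (e := ((y k * P0 k) / (fb k * z1 k)) * (P0 k / ((y k * s k) * z1 k)))
      (by (field_simp <;> ring)) (by repeat' (first | (with_reducible assumption) | (with_reducible apply sub_mem) | (with_reducible apply add_mem) | (with_reducible apply mul_mem) | (with_reducible apply pow_mem) | (with_reducible apply neg_mem) | exact one_mem _ | exact zero_mem _ | exact ofNat_mem _ _))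
  · exact mem_of_eq (e := fb k / F k)
      (by (field_simp <;> ring)) (by repeat' (first | (with_reducible assumption) | (with_reducible apply sub_mem) | (with_reducible apply add_mem) | (with_reducible apply mul_mem) | (with_reducible apply pow_mem) | (with_reducible apply neg_mem) | exact one_mem _ | exact zero_mem _ | exact ofNat_mem _ _))

theorem good_S_A : Good (chart k .S) (chart k .A) := by
  have hs := s_ne k; have hy := y_ne k; have hv := v_ne k; have hfb := fb_ne k
  have hF := F_ne k; have hz1 := z1_ne k; have hz0 := z0_ne k; have hP0 := P0_ne k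
  have hdd := dd_ne k
  have u_i_y : y k ∈ chart k .S ⊔ chart k .A :=
    (le_sup_left : chart k .S ≤ _) (Algebra.subset_adjoin (by simp [gens]))
  have u_i_s : s k ∈ chart k .S ⊔ chart k .A :=
    (le_sup_left : chart k .S ≤ _) (Algebra.subset_adjoin (by simp [gens]))
  have u_i_ft : fb k / s k ∈ chart k .S ⊔ chart k .A :=
    (le_sup_left : chart k .S ≤ _) (Algebra.subset_adjoin (by simp [gens]))
  have u_i_vt : v k / s k ∈ chart k .S ⊔ chart k .A :=
    (le_sup_left : chart k .S ≤ _) (Algebra.subset_adjoin (by simp [gens]))
  have u_j_A1 : (y k * P0 k) / (fb k * z1 k) ∈ chart k .S ⊔ chart k .A :=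
    (le_sup_right : chart k .A ≤ _) (Algebra.subset_adjoin (by simp [gens]))
  have u_j_A2 : P0 k / (fb k * z1 k) ∈ chart k .S ⊔ chart k .A :=
    (le_sup_right : chart k .A ≤ _) (Algebra.subset_adjoin (by simp [gens]))
  have u_j_A3 : ((s k * fb k) * (z1 k ^ 2)) / (P0 k ^ 2) ∈ chart k .S ⊔ chart k .A :=
    (le_sup_right : chart k .A ≤ _) (Algebra.subset_adjoin (by simp [gens]))
  have u_j_Hi : fb k / F k ∈ chart k .S ⊔ chart k .A :=
    (le_sup_right : chart k .A ≤ _) (Algebra.subset_adjoin (by simp [gens]))
  refine good_via .C (good_S_C k) (good_A_C k).symm ?_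
  intro x hx
  simp only [gens, Set.mem_insert_iff, Set.mem_singleton_iff] at hx
  rcases hx with rfl | rfl | rfl | rfl
  · exact mem_of_eq (e := y k)
      (by (field_simp <;> ring)) (by repeat' (first | (with_reducible assumption) | (with_reducible apply sub_mem) | (with_reducible apply add_mem) | (with_reducible apply mul_mem) | (with_reducible apply pow_mem) | (with_reducible apply neg_mem) | exact one_mem _ | exact zero_mem _ | exact ofNat_mem _ _))
  · exact mem_of_eq (e := (P0 k / (fb k * z1 k)) * (fb k / s k))
      (by (field_simp <;> ring)) (by repeat' (first | (with_reducible assumption) | (with_reducible apply sub_mem) | (with_reducible apply add_mem) | (with_reducible apply mul_mem) | (with_reducible apply pow_mem) | (with_reducible apply neg_mem) | exact one_mem _ | exact zero_mem _ | exact ofNat_mem _ _))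
  · exact mem_of_eq (e := (((s k * fb k) * (z1 k ^ 2)) / (P0 k ^ 2)) * ((P0 k / (fb k * z1 k)) ^ 2))
      (by (field_simp <;> ring)) (by repeat' (first | (with_reducible assumption) | (with_reducible apply sub_mem) | (with_reducible apply add_mem) | (with_reducible apply mul_mem) | (with_reducible apply pow_mem) | (with_reducible apply neg_mem) | exact one_mem _ | exact zero_mem _ | exact ofNat_mem _ _))
  · exact mem_of_eq (e := fb k / F k)
      (by (field_simp <;> ring)) (by repeat' (first | (with_reducible assumption) | (with_reducible apply sub_mem) | (with_reducible apply add_mem) | (with_reducible apply mul_mem) | (with_reducible apply pow_mem) | (with_reducible apply neg_mem) | exact one_mem _ | exact zero_mem _ | exact ofNat_mem _ _))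

theorem good_S_B : Good (chart k .S) (chart k .B) := by
  have hs := s_ne k; have hy := y_ne k; have hv := v_ne k; have hfb := fb_ne k
  have hF := F_ne k; have hz1 := z1_ne k; have hz0 := z0_ne k; have hP0 := P0_ne k
  have hdd := dd_ne k
  have u_i_y : y k ∈ chart k .S ⊔ chart k .B :=
    (le_sup_left : chart k .S ≤ _) (Algebra.subset_adjoin (by simp [gens]))
  have u_i_s : s k ∈ chart k .S ⊔ chart k .B :=
    (le_sup_left : chart k .S ≤ _) (Algebra.subset_adjoin (by simp [gens]))
  have u_i_ft : fb k / s k ∈ chart k .S ⊔ chart k .B :=
    (le_sup_left : chart k .S ≤ _) (Algebra.subset_adjoin (by simp [gens]))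
  have u_i_vt : v k / s k ∈ chart k .S ⊔ chart k .B :=
    (le_sup_left : chart k .S ≤ _) (Algebra.subset_adjoin (by simp [gens]))
  have u_j_B1 : ((y k * s k) * z1 k) / P0 k ∈ chart k .S ⊔ chart k .B :=
    (le_sup_right : chart k .B ≤ _) (Algebra.subset_adjoin (by simp [gens]))
  have u_j_B2 : (s k * z1 k) / P0 k ∈ chart k .S ⊔ chart k .B :=
    (le_sup_right : chart k .B ≤ _) (Algebra.subset_adjoin (by simp [gens]))
  have u_j_B3 : (P0 k ^ 2) / ((s k * fb k) * (z1 k ^ 2)) ∈ chart k .S ⊔ chart k .B :=
    (le_sup_right : chart k .B ≤ _) (Algebra.subset_adjoin (by simp [gens]))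
  have u_j_Hi : fb k / F k ∈ chart k .S ⊔ chart k .B :=
    (le_sup_right : chart k .B ≤ _) (Algebra.subset_adjoin (by simp [gens]))
  refine good_via .C (good_S_C k) (good_B_C k).symm ?_
  intro x hx
  simp only [gens, Set.mem_insert_iff, Set.mem_singleton_iff] at hx
  rcases hx with rfl | rfl | rfl | rfl
  · exact mem_of_eq (e := y k)
      (by (field_simp <;> ring)) (by repeat' (first | (with_reducible assumption) | (with_reducible apply sub_mem) | (with_reducible apply add_mem) | (with_reducible apply mul_mem) | (with_reducible apply pow_mem) | (with_reducible apply neg_mem) | exact one_mem _ | exact zero_mem _ | exact ofNat_mem _ _))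
  · exact mem_of_eq (e := (((s k * z1 k) / P0 k) * ((P0 k ^ 2) / ((s k * fb k) * (z1 k ^ 2)))) * (fb k / s k))
      (by (field_simp <;> ring)) (by repeat' (first | (with_reducible assumption) | (with_reducible apply sub_mem) | (with_reducible apply add_mem) | (with_reducible apply mul_mem) | (with_reducible apply pow_mem) | (with_reducible apply neg_mem) | exact one_mem _ | exact zero_mem _ | exact ofNat_mem _ _))
  · exact mem_of_eq (e := (((s k * z1 k) / P0 k) ^ 2) * ((P0 k ^ 2) / ((s k * fb k) * (z1 k ^ 2))))
      (by (field_simp <;> ring)) (by repeat' (first | (with_reducible assumption) | (with_reducible apply sub_mem) | (with_reducible apply add_mem) | (with_reducible apply mul_mem) | (with_reducible apply pow_mem) | (with_reducible apply neg_mem) | exact one_mem _ | exact zero_mem _ | exact ofNat_mem _ _))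
  · exact mem_of_eq (e := fb k / F k)
      (by (field_simp <;> ring)) (by repeat' (first | (with_reducible assumption) | (with_reducible apply sub_mem) | (with_reducible apply add_mem) | (with_reducible apply mul_mem) | (with_reducible apply pow_mem) | (with_reducible apply neg_mem) | exact one_mem _ | exact zero_mem _ | exact ofNat_mem _ _))

theorem good_S_D : Good (chart k .S) (chart k .D) := by
  have hs := s_ne k; have hy := y_ne k; have hv := v_ne k; have hfb := fb_ne k
  have hF := F_ne k; have hz1 := z1_ne k; have hz0 := z0_ne k; have hP0 := P0_ne k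
  have hdd := dd_ne k
  have u_i_y : y k ∈ chart k .S ⊔ chart k .D :=
    (le_sup_left : chart k .S ≤ _) (Algebra.subset_adjoin (by simp [gens]))
  have u_i_s : s k ∈ chart k .S ⊔ chart k .D :=
    (le_sup_left : chart k .S ≤ _) (Algebra.subset_adjoin (by simp [gens]))
  have u_i_ft : fb k / s k ∈ chart k .S ⊔ chart k .D :=
    (le_sup_left : chart k .S ≤ _) (Algebra.subset_adjoin (by simp [gens]))
  have u_i_vt : v k / s k ∈ chart k .S ⊔ chart k .D :=
    (le_sup_left : chart k .S ≤ _) (Algebra.subset_adjoin (by simp [gens]))
  have u_j_D1 : 1 / y k ∈ chart k .S ⊔ chart k .D :=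
    (le_sup_right : chart k .D ≤ _) (Algebra.subset_adjoin (by simp [gens]))
  have u_j_D2 : P0 k / ((y k * s k) * z1 k) ∈ chart k .S ⊔ chart k .D :=
    (le_sup_right : chart k .D ≤ _) (Algebra.subset_adjoin (by simp [gens]))
  have u_j_D3 : ((y k ^ 2) * s k) / fb k ∈ chart k .S ⊔ chart k .D :=
    (le_sup_right : chart k .D ≤ _) (Algebra.subset_adjoin (by simp [gens]))
  have u_j_Hi : fb k / F k ∈ chart k .S ⊔ chart k .D :=
    (le_sup_right : chart k .D ≤ _) (Algebra.subset_adjoin (by simp [gens]))
  refine good_via .C (good_S_C k) (good_C_D k) ?_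
  intro x hx
  simp only [gens, Set.mem_insert_iff, Set.mem_singleton_iff] at hx
  rcases hx with rfl | rfl | rfl | rfl
  · exact mem_of_eq (e := y k)
      (by (field_simp <;> ring)) (by repeat' (first | (with_reducible assumption) | (with_reducible apply sub_mem) | (with_reducible apply add_mem) | (with_reducible apply mul_mem) | (with_reducible apply pow_mem) | (with_reducible apply neg_mem) | exact one_mem _ | exact zero_mem _ | exact ofNat_mem _ _))
  · exact mem_of_eq (e := (P0 k / ((y k * s k) * z1 k)) * (y k))
      (by (field_simp <;> ring)) (by repeat' (first | (with_reducible assumption) | (with_reducible apply sub_mem) | (with_reducible apply add_mem) | (with_reducible apply mul_mem) | (with_reducible apply pow_mem) | (with_reducible apply neg_mem) | exact one_mem _ | exact zero_mem _ | exact ofNat_mem _ _))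
  · exact mem_of_eq (e := (((y k ^ 2) * s k) / fb k) * ((1 / y k) ^ 2))
      (by (field_simp <;> ring)) (by repeat' (first | (with_reducible assumption) | (with_reducible apply sub_mem) | (with_reducible apply add_mem) | (with_reducible apply mul_mem) | (with_reducible apply pow_mem) | (with_reducible apply neg_mem) | exact one_mem _ | exact zero_mem _ | exact ofNat_mem _ _))
  · exact mem_of_eq (e := fb k / F k)
      (by (field_simp <;> ring)) (by repeat' (first | (with_reducible assumption) | (with_reducible apply sub_mem) | (with_reducible apply add_mem) | (with_reducible apply mul_mem) | (with_reducible apply pow_mem) | (with_reducible apply neg_mem) | exact one_mem _ | exact zero_mem _ | exact ofNat_mem _ _))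

theorem good_V_B : Good (chart k .V) (chart k .B) := by
  have hs := s_ne k; have hy := y_ne k; have hv := v_ne k; have hfb := fb_ne k
  have hF := F_ne k; have hz1 := z1_ne k; have hz0 := z0_ne k; have hP0 := P0_ne k
  have hdd := dd_ne k
  have u_i_y : y k ∈ chart k .V ⊔ chart k .B :=
    (le_sup_left : chart k .V ≤ _) (Algebra.subset_adjoin (by simp [gens]))
  have u_i_v : v k ∈ chart k .V ⊔ chart k .B :=
    (le_sup_left : chart k .V ≤ _) (Algebra.subset_adjoin (by simp [gens]))
  have u_i_sp : s k / v k ∈ chart k .V ⊔ chart k .B :=
    (le_sup_left : chart k .V ≤ _) (Algebra.subset_adjoin (by simp [gens]))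
  have u_i_fp : fb k / v k ∈ chart k .V ⊔ chart k .B :=
    (le_sup_left : chart k .V ≤ _) (Algebra.subset_adjoin (by simp [gens]))
  have u_j_B1 : ((y k * s k) * z1 k) / P0 k ∈ chart k .V ⊔ chart k .B :=
    (le_sup_right : chart k .B ≤ _) (Algebra.subset_adjoin (by simp [gens]))
  have u_j_B2 : (s k * z1 k) / P0 k ∈ chart k .V ⊔ chart k .B :=
    (le_sup_right : chart k .B ≤ _) (Algebra.subset_adjoin (by simp [gens]))
  have u_j_B3 : (P0 k ^ 2) / ((s k * fb k) * (z1 k ^ 2)) ∈ chart k .V ⊔ chart k .B :=
    (le_sup_right : chart k .B ≤ _) (Algebra.subset_adjoin (by simp [gens]))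
  have u_j_Hi : fb k / F k ∈ chart k .V ⊔ chart k .B :=
    (le_sup_right : chart k .B ≤ _) (Algebra.subset_adjoin (by simp [gens]))
  have u_sV : s k ∈ chart k .V ⊔ chart k .B :=
    mem_of_eq (e := (v k) * (s k / v k))
      (by (field_simp <;> ring)) (by repeat' (first | (with_reducible assumption) | (with_reducible apply sub_mem) | (with_reducible apply add_mem) | (with_reducible apply mul_mem) | (with_reducible apply pow_mem) | (with_reducible apply neg_mem) | exact one_mem _ | exact zero_mem _ | exact ofNat_mem _ _))
  have u_E1 : F k / v k ∈ chart k .V ⊔ chart k .B :=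
    mem_of_eq (e := (fb k / v k) - ((s k) * (s k / v k)))
      (by field_simp; (try simp only [F_eq]); (try ring)) (by repeat' (first | (with_reducible assumption) | (with_reducible apply sub_mem) | (with_reducible apply add_mem) | (with_reducible apply mul_mem) | (with_reducible apply pow_mem) | (with_reducible apply neg_mem) | exact one_mem _ | exact zero_mem _ | exact ofNat_mem _ _))
  have u_E2 : (-z1 k) / v k ∈ chart k .V ⊔ chart k .B :=
    mem_of_eq (e := ((s k) ^ 2) + (F k / v k))
      (by field_simp; (try simp only [z1_eq]); (try ring)) (by repeat' (first | (with_reducible assumption) | (with_reducible apply sub_mem) | (with_reducible apply add_mem) | (with_reducible apply mul_mem) | (with_reducible apply pow_mem) | (with_reducible apply neg_mem) | exact one_mem _ | exact zero_mem _ | exact ofNat_mem _ _))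
  have u_ip : (fb k * z1 k) / P0 k ∈ chart k .V ⊔ chart k .B :=
    mem_of_eq (e := (1 + ((y k) * (((y k * s k) * z1 k) / P0 k))) * ((-z1 k) / v k))
      (by field_simp; (try simp only [P0_eq, z0_eq, fb_eq]); (try ring)) (by repeat' (first | (with_reducible assumption) | (with_reducible apply sub_mem) | (with_reducible apply add_mem) | (with_reducible apply mul_mem) | (with_reducible apply pow_mem) | (with_reducible apply neg_mem) | exact one_mem _ | exact zero_mem _ | exact ofNat_mem _ _))
  refine good_via .A (good_V_A k) (good_A_B k) ?_
  intro x hx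
  simp only [gens, Set.mem_insert_iff, Set.mem_singleton_iff] at hx
  rcases hx with rfl | rfl | rfl | rfl
  · exact mem_of_eq (e := (((y k * s k) * z1 k) / P0 k) * ((P0 k ^ 2) / ((s k * fb k) * (z1 k ^ 2))))
      (by (field_simp <;> ring)) (by repeat' (first | (with_reducible assumption) | (with_reducible apply sub_mem) | (with_reducible apply add_mem) | (with_reducible apply mul_mem) | (with_reducible apply pow_mem) | (with_reducible apply neg_mem) | exact one_mem _ | exact zero_mem _ | exact ofNat_mem _ _))
  · exact mem_of_eq (e := ((s k * z1 k) / P0 k) * ((P0 k ^ 2) / ((s k * fb k) * (z1 k ^ 2))))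
      (by (field_simp <;> ring)) (by repeat' (first | (with_reducible assumption) | (with_reducible apply sub_mem) | (with_reducible apply add_mem) | (with_reducible apply mul_mem) | (with_reducible apply pow_mem) | (with_reducible apply neg_mem) | exact one_mem _ | exact zero_mem _ | exact ofNat_mem _ _))
  · exact mem_of_eq (e := ((s k * z1 k) / P0 k) * ((fb k * z1 k) / P0 k))
      (by (field_simp <;> ring)) (by repeat' (first | (with_reducible assumption) | (with_reducible apply sub_mem) | (with_reducible apply add_mem) | (with_reducible apply mul_mem) | (with_reducible apply pow_mem) | (with_reducible apply neg_mem) | exact one_mem _ | exact zero_mem _ | exact ofNat_mem _ _))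
  · exact mem_of_eq (e := fb k / F k)
      (by (field_simp <;> ring)) (by repeat' (first | (with_reducible assumption) | (with_reducible apply sub_mem) | (with_reducible apply add_mem) | (with_reducible apply mul_mem) | (with_reducible apply pow_mem) | (with_reducible apply neg_mem) | exact one_mem _ | exact zero_mem _ | exact ofNat_mem _ _))

theorem good_V_D : Good (chart k .V) (chart k .D) := by
  have hs := s_ne k; have hy := y_ne k; have hv := v_ne k; have hfb := fb_ne k
  have hF := F_ne k; have hz1 := z1_ne k; have hz0 := z0_ne k; have hP0 := P0_ne k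
  have hdd := dd_ne k
  have u_i_y : y k ∈ chart k .V ⊔ chart k .D :=
    (le_sup_left : chart k .V ≤ _) (Algebra.subset_adjoin (by simp [gens]))
  have u_i_v : v k ∈ chart k .V ⊔ chart k .D :=
    (le_sup_left : chart k .V ≤ _) (Algebra.subset_adjoin (by simp [gens]))
  have u_i_sp : s k / v k ∈ chart k .V ⊔ chart k .D :=
    (le_sup_left : chart k .V ≤ _) (Algebra.subset_adjoin (by simp [gens]))
  have u_i_fp : fb k / v k ∈ chart k .V ⊔ chart k .D :=
    (le_sup_left : chart k .V ≤ _) (Algebra.subset_adjoin (by simp [gens]))
  have u_j_D1 : 1 / y k ∈ chart k .V ⊔ chart k .D :=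
    (le_sup_right : chart k .D ≤ _) (Algebra.subset_adjoin (by simp [gens]))
  have u_j_D2 : P0 k / ((y k * s k) * z1 k) ∈ chart k .V ⊔ chart k .D :=
    (le_sup_right : chart k .D ≤ _) (Algebra.subset_adjoin (by simp [gens]))
  have u_j_D3 : ((y k ^ 2) * s k) / fb k ∈ chart k .V ⊔ chart k .D :=
    (le_sup_right : chart k .D ≤ _) (Algebra.subset_adjoin (by simp [gens]))
  have u_j_Hi : fb k / F k ∈ chart k .V ⊔ chart k .D :=
    (le_sup_right : chart k .D ≤ _) (Algebra.subset_adjoin (by simp [gens]))
  refine good_via .C (good_V_C k) (good_C_D k) ?_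
  intro x hx
  simp only [gens, Set.mem_insert_iff, Set.mem_singleton_iff] at hx
  rcases hx with rfl | rfl | rfl | rfl
  · exact mem_of_eq (e := y k)
      (by (field_simp <;> ring)) (by repeat' (first | (with_reducible assumption) | (with_reducible apply sub_mem) | (with_reducible apply add_mem) | (with_reducible apply mul_mem) | (with_reducible apply pow_mem) | (with_reducible apply neg_mem) | exact one_mem _ | exact zero_mem _ | exact ofNat_mem _ _))
  · exact mem_of_eq (e := (P0 k / ((y k * s k) * z1 k)) * (y k))
      (by (field_simp <;> ring)) (by repeat' (first | (with_reducible assumption) | (with_reducible apply sub_mem) | (with_reducible apply add_mem) | (with_reducible apply mul_mem) | (with_reducible apply pow_mem) | (with_reducible apply neg_mem) | exact one_mem _ | exact zero_mem _ | exact ofNat_mem _ _))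
  · exact mem_of_eq (e := (((y k ^ 2) * s k) / fb k) * ((1 / y k) ^ 2))
      (by (field_simp <;> ring)) (by repeat' (first | (with_reducible assumption) | (with_reducible apply sub_mem) | (with_reducible apply add_mem) | (with_reducible apply mul_mem) | (with_reducible apply pow_mem) | (with_reducible apply neg_mem) | exact one_mem _ | exact zero_mem _ | exact ofNat_mem _ _))
  · exact mem_of_eq (e := fb k / F k)
      (by (field_simp <;> ring)) (by repeat' (first | (with_reducible assumption) | (with_reducible apply sub_mem) | (with_reducible apply add_mem) | (with_reducible apply mul_mem) | (with_reducible apply pow_mem) | (with_reducible apply neg_mem) | exact one_mem _ | exact zero_mem _ | exact ofNat_mem _ _))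

end Helper50.D71
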