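import Pool.Agent.Helper50.D71.PairsV1
import Pool.Agent.Helper50.D71.PairsV2
import Pool.Agent.Helper50.D71.PairsV3

/-!
# All pairs of charts; the enlarged family of twelve algebras
-/

universe u

namespace Helper50.D71

variable (k : Type u) [Field k]

/-- any two of the ten charts have a common principal localization -/
theorem good_all (c d : Ch) : Good (chart k c) (chart k d) := by
  cases c <;> cases d
  · exact Good.refl _
  · exact good_S_V k
  · exact good_S_W k
  · exact good_S_Pa k
  · exact good_S_Pb k
  · exact (good_Q_S k).symm
  · exact good_S_A k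
  · exact good_S_B k
  · exact good_S_C k
  · exact good_S_D k
  · exact (good_S_V k).symm
  · exact Good.refl _
  · exact good_V_W k
  · exact good_V_Pa k
  · exact good_V_Pb k
  · exact (good_Q_V k).symm
  · exact good_V_A k
  · exact good_V_B k
  · exact good_V_C k
  · exact good_V_D k
  · exact (good_S_W k).symm
  · exact (good_V_W k).symm
  · exact Good.refl _
  · exact good_W_Pa k
  · exact good_W_Pb k
  · exact (good_Q_W k).symm
  · exact good_W_A k
  · exact good_W_B k
  · exact good_W_C k
  · exact good_W_D k
  · exact (good_S_Pa k).symm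
  · exact (good_V_Pa k).symm
  · exact (good_W_Pa k).symm
  · exact Good.refl _
  · exact good_Pa_Pb k
  · exact good_Pa_Q k
  · exact good_Pa_A k
  · exact good_Pa_B k
  · exact good_Pa_C k
  · exact good_Pa_D k
  · exact (good_S_Pb k).symm
  · exact (good_V_Pb k).symm
  · exact (good_W_Pb k).symm
  · exact (good_Pa_Pb k).symm
  · exact Good.refl _
  · exact (good_Q_Pb k).symm
  · exact good_Pb_A k
  · exact good_Pb_B k
  · exact good_Pb_C k
  · exact good_Pb_D k
  · exact good_Q_S k
  · exact good_Q_V k
  · exact good_Q_W k
  · exact (good_Pa_Q k).symm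
  · exact good_Q_Pb k
  · exact Good.refl _
  · exact good_Q_A k
  · exact good_Q_B k
  · exact good_Q_C k
  · exact good_Q_D k
  · exact (good_S_A k).symm
  · exact (good_V_A k).symm
  · exact (good_W_A k).symm
  · exact (good_Pa_A k).symm
  · exact (good_Pb_A k).symm
  · exact (good_Q_A k).symm
  · exact Good.refl _
  · exact good_A_B k
  · exact good_A_C k
  · exact good_A_D k
  · exact (good_S_B k).symm
  · exact (good_V_B k).symm
  · exact (good_W_B k).symm
  · exact (good_Pa_B k).symm
  · exact (good_Pb_B k).symm
  · exact (good_Q_B k).symm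
  · exact (good_A_B k).symm
  · exact Good.refl _
  · exact good_B_C k
  · exact good_B_D k
  · exact (good_S_C k).symm
  · exact (good_V_C k).symm
  · exact (good_W_C k).symm
  · exact (good_Pa_C k).symm
  · exact (good_Pb_C k).symm
  · exact (good_Q_C k).symm
  · exact (good_A_C k).symm
  · exact (good_B_C k).symm
  · exact Good.refl _
  · exact good_C_D k
  · exact (good_S_D k).symm
  · exact (good_V_D k).symm
  · exact (good_W_D k).symm
  · exact (good_Pa_D k).symm
  · exact (good_Pb_D k).symm
  · exact (good_Q_D k).symm
  · exact (good_A_D k).symm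
  · exact (good_B_D k).symm
  · exact (good_C_D k).symm
  · exact Good.refl _

end Helper50.D71
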