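import Pool.Agent.Helper50.D71.All
import Pool.Agent.Helper64.D71.U
import Pool.Agent.Helper64.D71.Smooth
import Pool.Agent.Helper60.D71.D9
import Pool.Agent.Helper96.D71.NonRat
import Pool.Agent.Helper83.D71.Proper
import Pool.Agent.Helper12.D71.G3
import Pool.Agent.Helper12.D71.P
import Pool.Agent.Helper31.D71.RDim
import Pool.Agent.Helper56.D71.QPAffine
import Pool.Agent.Helper56.D71.QPPair
import Pool.Agent.Helper60.D71.KeyLemma
import Pool.Agent.Helper31.D71.F1

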