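import Mathlib

/-!
# MP_d71e86_ag : the function field and the ten charts

`K = k(s,y,v)`.  All charts of the threefold are `k`-subalgebras of `K`.

Geometric meaning: `x = (1:s:y)`, `z = (z₀:z₁:v)`, and `p = P₀/(f̄ z₁)`, `q = s/f̄`.
-/

open MvPolynomial

universe u

namespace Helper50.D71

/-- Names of the ten charts. -/
inductive Ch | S | V | W | Pa | Pb | Q | A | B | C | D
  deriving DecidableEq

instance : Fintype Ch :=
  ⟨{.S, .V, .W, .Pa, .Pb, .Q, .A, .B, .C, .D}, by intro x; cases x <;> simp⟩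

noncomputable section

variable (k : Type u) [Field k]

/-- The function field `k(s,y,v)` of the threefold. -/
abbrev KK : Type u := FractionRing (MvPolynomial (Fin 3) k)

/-- the coordinate `s` -/
def s : KK k := algebraMap (MvPolynomial (Fin 3) k) (KK k) (X 0)
/-- the coordinate `y` -/
def y : KK k := algebraMap (MvPolynomial (Fin 3) k) (KK k) (X 1)
/-- the coordinate `v` -/
def v : KK k := algebraMap (MvPolynomial (Fin 3) k) (KK k) (X 2)
/-- `f̄ = y³ - 1` -/
def fb : KK k := y k ^ 3 - 1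
/-- `F = y³ - 1 - s²` -/
def F : KK k := fb k - s k ^ 2
/-- `z₁ = -(s² v + F)` -/
def z1 : KK k := -(s k ^ 2 * v k + F k)
/-- `z₀ = -s z₁ - y v` -/
def z0 : KK k := -(s k * z1 k) - y k * v k
/-- `P₀ = v + y² z₀` -/
def P0 : KK k := v k + y k ^ 2 * z0 k
/-- `s³ - y` -/
def dd : KK k := s k ^ 3 - y k

/-- Generators of the ten charts. -/
def gens : Ch → Set (KK k)
  | .S => {y k, s k, fb k / s k, v k / s k}
  | .V => {y k, v k, s k / v k, fb k / v k}
  | .W => {s k, y k, 1 / v k}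
  | .Pa => {1 / s k, y k / s k, z0 k / s k, s k ^ 3 / dd k}
  | .Pb => {1 / s k, y k / s k, s k / z0 k, s k ^ 3 / dd k}
  | .Q => {1 / y k, s k / y k, z1 k / z0 k, y k ^ 3 / F k}
  | .A => {y k * P0 k / (fb k * z1 k), P0 k / (fb k * z1 k),
      s k * fb k * z1 k ^ 2 / P0 k ^ 2, fb k / F k}
  | .B => {y k * s k * z1 k / P0 k, s k * z1 k / P0 k,
      P0 k ^ 2 / (s k * fb k * z1 k ^ 2), fb k / F k}
  | .C => {y k, P0 k / (s k * z1 k), s k / fb k, fb k / F k}
  | .D => {1 / y k, P0 k / (y k * s k * z1 k), y k ^ 2 * s k / fb k, fb k / F k}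

/-- The ten charts, as `k`-subalgebras of `K = k(s,y,v)`. -/
def chart (c : Ch) : Subalgebra k (KK k) := Algebra.adjoin k (gens k c)

end

section Loc

variable {k : Type u} [Field k] {K : Type u} [Field K] [Algebra k K]

/-- `C = B[1/f]` for some nonzero `f ∈ B` (inside the field `K`). -/
def IsLocOf (B C : Subalgebra k K) : Prop :=
  ∃ f ∈ B, f ≠ 0 ∧ f⁻¹ ∈ C ∧ B ≤ C ∧ C ≤ B ⊔ Algebra.adjoin k {f⁻¹}

/-- `B ⊔ C` is a principal localization both of `B` and of `C`. -/
def Good (B C : Subalgebra k K) : Prop := IsLocOf B (B ⊔ C) ∧ IsLocOf C (B ⊔ C)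

end Loc

end Helper50.D71
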