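import Pool.Agent.Helper50.D71.Blocks

/-!
# The enlarged family of twelve algebras
-/

open AlgebraicGeometry CategoryTheory MvPolynomial

universe u

namespace Helper50.D71

section General

variable {k : Type u} [Field k] {K : Type u} [Field K] [Algebra k K]

lemma Good.loc_left {B B' C : Subalgebra k K} (h : Good B C) (hl : IsLocOf B B') : Good B' C := by
  have e : (B ⊔ C) ⊔ B' = B' ⊔ C := by
    rw [sup_comm B C, sup_assoc, sup_eq_right.mpr hl.le, sup_comm]
  constructor
  · have h1 := h.1.sup hl.le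
    rwa [e] at h1
  · have h1 := hl.sup (le_sup_left : B ≤ B ⊔ C)
    have e2 : B' ⊔ (B ⊔ C) = B' ⊔ C := by rw [sup_comm, e]
    rw [e2] at h1
    exact h.2.trans h1

lemma IsLocOf.fg {B C : Subalgebra k K} (h : IsLocOf B C) (hB : B.FG) : C.FG := by
  obtain ⟨f, hfB, hf0, hfC, hBC, hCB⟩ := h
  have : C = B ⊔ Algebra.adjoin k {f⁻¹} := by
    refine le_antisymm hCB (sup_le hBC ?_)
    rw [Algebra.adjoin_le_iff]
    rintro x rfl
    exact hfC
  rw [this]
  exact hB.sup (Subalgebra.fg_def.mpr ⟨_, Set.finite_singleton _, rfl⟩)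

lemma IsLocOf.smooth {B C : Subalgebra k K} (h : IsLocOf B C) (hB : Algebra.Smooth k B) :
    Algebra.Smooth k C := by
  obtain ⟨f, hfB, hf0, hfC, hBC, hCB⟩ := h
  let : Algebra B C := (Subalgebra.inclusion hBC).toRingHom.toAlgebra
  have : IsLocalization.Away (⟨f, hfB⟩ : B) C :=
    isLocalizationAway_of hBC f hfB hf0 hfC hCB
  have : IsScalarTower k B C := IsScalarTower.of_algebraMap_eq fun x => rfl
  have : Algebra.Smooth B C := Algebra.Smooth.of_isLocalization_Away (⟨f, hfB⟩ : B)
  exact Algebra.Smooth.comp k B C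

lemma IsLocOf.dim_le {B C : Subalgebra k K} (h : IsLocOf B C) :
    ringKrullDim C ≤ ringKrullDim B := by
  have := isOpenImmersion_specIncl h h.le
  rw [← PrimeSpectrum.topologicalKrullDim_eq_ringKrullDim,
    ← PrimeSpectrum.topologicalKrullDim_eq_ringKrullDim]
  exact (specIncl h.le).isOpenEmbedding.isInducing.topologicalKrullDim_le

lemma isFractionRing_of_le {B C : Subalgebra k K} (h : B ≤ C) (hB : IsFractionRing B K) :
    IsFractionRing C K := by
  have hsurj := IsLocalization.surj (S := K) (nonZeroDivisors B)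
  refine (isLocalization_iff _ _).mpr ⟨fun y => ?_, ?_, ?_⟩
  · exact isUnit_iff_ne_zero.mpr fun h0 => nonZeroDivisors.ne_zero y.2 (Subtype.val_injective h0)
  · intro z
    obtain ⟨⟨a, b⟩, hab⟩ := hsurj z
    refine ⟨⟨⟨a, h a.2⟩, ⟨⟨b, h b.1.2⟩, ?_⟩⟩, ?_⟩
    · rw [mem_nonZeroDivisors_iff_ne_zero]
      intro h0
      have h1 : ((b : B) : K) = 0 := congrArg Subtype.val h0
      exact nonZeroDivisors.ne_zero b.2 (Subtype.val_injective h1)
    · exact hab
  · intro a b hab
    exact ⟨1, by rw [Subtype.val_injective hab]⟩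

end General

section Special

variable (k : Type u) [Field k]

/-- indices of the enlarged family: ten charts, `A_x` (false) and `A_r` (true). -/
abbrev Idx : Type := Ch ⊕ Bool

/-- the enlarged family -/
noncomputable def AA (w : k) : Idx → Subalgebra k (KK k)
  | .inl c => chart k c
  | .inr false => Ax k w
  | .inr true => Ar k

variable {k}

lemma AA_good [CharZero k] (w : k) (hw : w ^ 2 + w + 1 = 0) (i j : Idx) :
    Good (AA k w i) (AA k w j) := by
  have hx := isLocOf_Ax k w hw
  have hr := isLocOf_Ar k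
  rcases i with c | (_ | _) <;> rcases j with d | (_ | _)
  · exact good_all k c d
  · exact ((good_all k .B c).loc_left hx).symm
  · exact ((good_all k .W c).loc_left hr).symm
  · exact (good_all k .B d).loc_left hx
  · exact Good.refl _
  · exact ((((good_all k .B .W).loc_left hx).symm).loc_left hr).symm
  · exact (good_all k .W d).loc_left hr
  · exact (((good_all k .B .W).loc_left hx).symm).loc_left hr
  · exact Good.refl _

lemma chart_fg (c : Ch) : (chart k c).FG :=
  Subalgebra.fg_def.mpr ⟨_, by cases c <;> simp [gens], rfl⟩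

lemma AA_fg [CharZero k] (w : k) (hw : w ^ 2 + w + 1 = 0) (i : Idx) : (AA k w i).FG := by
  rcases i with c | (_ | _)
  · exact chart_fg c
  · exact (isLocOf_Ax k w hw).fg (chart_fg .B)
  · exact (isLocOf_Ar k).fg (chart_fg .W)

lemma AA_smooth [CharZero k] (w : k) (hw : w ^ 2 + w + 1 = 0) (i : Idx) :
    Algebra.Smooth k (AA k w i) := by
  rcases i with c | (_ | _)
  · exact chart_smooth k c
  · exact (isLocOf_Ax k w hw).smooth (chart_smooth k .B)
  · exact (isLocOf_Ar k).smooth (chart_smooth k .W)

lemma AA_dim_le [CharZero k] (w : k) (hw : w ^ 2 + w + 1 = 0) (i : Idx) :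
    ringKrullDim (AA k w i) ≤ (3 : ℕ) := by
  rcases i with c | (_ | _)
  · exact chart_dim_le k c
  · exact (isLocOf_Ax k w hw).dim_le.trans (chart_dim_le k .B)
  · exact (isLocOf_Ar k).dim_le.trans (chart_dim_le k .W)

lemma AA_frac [CharZero k] (w : k) (hw : w ^ 2 + w + 1 = 0) (i : Idx) :
    IsFractionRing (AA k w i) (KK k) := by
  rcases i with c | (_ | _)
  · exact chart_isFractionRing k c
  · exact isFractionRing_of_le (isLocOf_Ax k w hw).le (chart_isFractionRing k .B)
  · exact isFractionRing_of_le (isLocOf_Ar k).le (chart_isFractionRing k .W)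

end Special

end Helper50.D71
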