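import Pool.Agent.Helper50.D71.NotQP

/-!
# Generizations of the generic point of `E`; maximal quasi-projective open subsets
-/

open AlgebraicGeometry CategoryTheory MvPolynomial TopologicalSpace

universe u

namespace Helper50.D71

section Gen

variable {k : Type u} [Field k] {K : Type u} [Field K] [Algebra k K] {tW : Fin 3 → K}
variable {ι : Type} {A : ι → Subalgebra k K}
variable {Y : Scheme.{u}} {f : Y ⟶ Spec (.of k)} {c : ∀ i, Spec (.of (A i)) ⟶ Y}

/-- evaluation of polynomials in the subalgebra `B` -/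
noncomputable def evB (B : Subalgebra k K) (h : ∀ P : MvPolynomial (Fin 3) k, aeval tW P ∈ B) :
    MvPolynomial (Fin 3) k →ₐ[k] B :=
  (aeval tW).codRestrict B h

/-- every proper generization of the generic point of `E` lies in `U₀`. -/
theorem generization_aux (hM : IsModel A Y f c) (hG : ∀ i j, Good (A i) (A j)) (hW : Inj k tW)
    (iS : ι) (U : Set Y) (hS : A iS ≤ OO tW (pE k))
    (hpoly : ∀ P : MvPolynomial (Fin 3) k, aeval tW P ∈ A iS)
    (hgen : ∀ 𝔭 : Ideal (MvPolynomial (Fin 3) k), ∀ [𝔭.IsPrime], 𝔭 < pE k →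
      ∃ j, A j ≤ OO tW 𝔭 ∧ Set.range (c j) ⊆ U)
    (q : PrimeSpectrum (A iS)) (hq : q ≤ locPt hW (A iS) hS) (hzU : c iS q ∉ U) :
    q = locPt hW (A iS) hS := by
  set E : MvPolynomial (Fin 3) k →ₐ[k] A iS := evB (A iS) hpoly with hE
  have hEval : ∀ P, ((E P : A iS) : K) = aeval tW P := fun P => rfl
  set 𝔮 : Ideal (MvPolynomial (Fin 3) k) := Ideal.comap E q.asIdeal with h𝔮
  have hqp : q.asIdeal.IsPrime := q.isPrime
  have h𝔮p : 𝔮.IsPrime := Ideal.comap_isPrime _ _
  have h𝔮le : 𝔮 ≤ pE k := by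
    intro P hP
    have h1 : E P ∈ (locPt hW (A iS) hS).asIdeal := hq hP
    refine (mem_locPt_iff (G := 1) one_notMem ?_).mp h1
    rw [hEval, map_one, mul_one]
  by_cases heq : 𝔮 = pE k
  · refine le_antisymm hq ?_
    intro x hx
    obtain ⟨P, G, hG', hP, h⟩ := mem_locPt.mp hx
    have h1 : x * E G = E P := Subtype.ext h
    have h2 : E P ∈ q.asIdeal := by
      have : P ∈ 𝔮 := heq ▸ hP
      exact this
    rw [← h1] at h2
    refine (hqp.mem_or_mem h2).resolve_right fun h3 => hG' ?_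
    rw [← heq]
    exact h3
  · exfalso
    obtain ⟨j, hj, hjU⟩ := hgen 𝔮 (lt_of_le_of_ne h𝔮le heq)
    refine hzU (hjU (hM.mem_range (hG iS j) q ?_))
    intro x hx
    obtain ⟨P, G, hG', h⟩ := hj hx
    exact ⟨E P, E G, hG', h⟩

/-- every proper generization of the generic point of `E` lies in `U₀`. -/
theorem generization_mem (hM : IsModel A Y f c) (hG : ∀ i j, Good (A i) (A j)) (hW : Inj k tW)
    (iS : ι) (U : Set Y) (hS : A iS ≤ OO tW (pE k))
    (hpoly : ∀ P : MvPolynomial (Fin 3) k, aeval tW P ∈ A iS)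
    (hgen : ∀ 𝔭 : Ideal (MvPolynomial (Fin 3) k), ∀ [𝔭.IsPrime], 𝔭 < pE k →
      ∃ j, A j ≤ OO tW 𝔭 ∧ Set.range (c j) ⊆ U)
    (z : Y) (hz : z ⤳ c iS (locPt hW (A iS) hS)) (hzU : z ∉ U) :
    z = c iS (locPt hW (A iS) hS) := by
  have hopen := hM.isOpenImmersion
  have hzr : z ∈ Set.range (c iS) :=
    hz.mem_open (c iS).isOpenEmbedding.isOpen_range ⟨_, rfl⟩
  obtain ⟨q, rfl⟩ := hzr
  have := generization_aux hM hG hW iS U hS hpoly hgen q (hM.le_of_specializes iS hz) hzU
  rw [← this]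

end Gen

section Max

variable {k : Type u} [Field k]

/-- existence of maximal quasi-projective open subsets -/
theorem exists_maximal_qp {Y : Scheme.{u}} [NoetherianSpace Y] (f : Y ⟶ Spec (.of k))
    (U₀ : Y.Opens) (h : IsQuasiProjective (U₀.ι ≫ f)) :
    ∃ U : Y.Opens, U₀ ≤ U ∧ Maximal (fun U : Y.Opens => IsQuasiProjective (U.ι ≫ f)) U := by
  have hwf : WellFoundedGT (Opens Y) := inferInstance
  obtain ⟨U, ⟨hU0, hU⟩, hmax⟩ := WellFounded.has_min
    (r := fun a b : Opens Y => a > b) hwf.wf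
    {U : Opens Y | U₀ ≤ U ∧ IsQuasiProjective (Scheme.Opens.ι (X := Y) U ≫ f)} ⟨U₀, le_rfl, h⟩
  refine ⟨U, hU0, hU, ?_⟩
  intro V hV hUV
  by_contra hlt
  exact hmax V ⟨hU0.trans hUV, hV⟩ (lt_of_le_not_ge hUV hlt)

/-- the closure of the generic point is a maximal irreducible subset of the complement -/
theorem maximal_closure {Y : Type*} [TopologicalSpace Y] [QuasiSober Y] (U : Set Y)
    (hU : IsOpen U) (x : Y) (hx : x ∉ U) (hgen : ∀ z, z ⤳ x → z ∉ U → z = x) :
    Maximal (fun Z : Set Y => IsIrreducible Z ∧ Z ⊆ Uᶜ) (closure {x}) := by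
  refine ⟨⟨isIrreducible_singleton.closure, ?_⟩, ?_⟩
  · exact closure_minimal (Set.singleton_subset_iff.mpr hx) hU.isClosed_compl
  · rintro Z ⟨hZ, hZU⟩ hle
    obtain ⟨z, hz⟩ := QuasiSober.sober hZ.closure isClosed_closure
    have hzx : z ⤳ x := by
      rw [specializes_iff_mem_closure, hz]
      exact subset_closure (hle (subset_closure rfl))
    have hzU : z ∉ U := by
      have h1 : closure Z ⊆ Uᶜ := closure_minimal hZU hU.isClosed_compl
      exact h1 (hz ▸ subset_closure rfl)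
    have := hgen z hzx hzU
    subst this
    intro w hw
    rw [hz]
    exact subset_closure hw

end Max

end Helper50.D71
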