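import Pool.Agent.Helper50.D71.NZ

/-!
# MP_d71e86_ag : scheme-theoretic definitions
-/

open AlgebraicGeometry CategoryTheory

universe u

namespace Helper50.D71

attribute [local instance] MvPolynomial.gradedAlgebra

section QP

variable (k : Type u) [Field k]

/-- Projective space `ℙⁿ` over the field `k`. -/
noncomputable def PP (n : ℕ) : Scheme.{u} :=
  Proj (MvPolynomial.homogeneousSubmodule (Fin (n + 1)) k)

/-- The structure morphism `ℙⁿ ⟶ Spec k`. -/
noncomputable def PP.toSpec (n : ℕ) : PP k n ⟶ Spec (.of k) :=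
  Proj.toSpecZero (MvPolynomial.homogeneousSubmodule (Fin (n + 1)) k) ≫
    Spec.map (CommRingCat.ofHom
      (algebraMap k (MvPolynomial.homogeneousSubmodule (Fin (n + 1)) k 0)))

variable {k}

/-- A scheme over `k` is quasi-projective if it has an immersion over `k` into some `ℙⁿ`. -/
def IsQuasiProjective {X : Scheme.{u}} (f : X ⟶ Spec (.of k)) : Prop :=
  ∃ (n : ℕ) (i : X ⟶ PP k n), IsImmersion i ∧ i ≫ PP.toSpec k n = f

/-- A scheme over `k` is projective if it has a closed immersion over `k` into some `ℙⁿ`. -/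
def IsProjective {X : Scheme.{u}} (f : X ⟶ Spec (.of k)) : Prop :=
  ∃ (n : ℕ) (i : X ⟶ PP k n), IsClosedImmersion i ∧ i ≫ PP.toSpec k n = f

end QP

section Model

variable {k : Type u} [Field k] {K : Type u} [Field K] [Algebra k K]

/-- `Spec` of the inclusion `A ≤ B` of subalgebras. -/
noncomputable def specIncl {A B : Subalgebra k K} (h : A ≤ B) :
    Spec (.of B) ⟶ Spec (.of A) :=
  Spec.map (CommRingCat.ofHom (Subalgebra.inclusion h).toRingHom)

/-- `X` is glued from the affine schemes `Spec (A i)`, with intersections `Spec (A i ⊔ A j)`. -/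
structure IsModel {ι : Type} (A : ι → Subalgebra k K) (X : Scheme.{u}) (f : X ⟶ Spec (.of k))
    (c : ∀ i, Spec (.of (A i)) ⟶ X) : Prop where
  isOpenImmersion : ∀ i, IsOpenImmersion (c i)
  cover : ∀ x : X, ∃ i, x ∈ Set.range (c i)
  over_base : ∀ i, c i ≫ f = Spec.map (CommRingCat.ofHom (algebraMap k (A i)))
  compat : ∀ i j, specIncl (le_sup_left : A i ≤ A i ⊔ A j) ≫ c i =
    specIncl (le_sup_right : A j ≤ A i ⊔ A j) ≫ c j
  inter : ∀ i j, Set.range (c i) ∩ Set.range (c j) ⊆
    Set.range (specIncl (le_sup_left : A i ≤ A i ⊔ A j) ≫ c i)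

end Model

end Helper50.D71
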