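import Pool.Agent.Helper50.D71.Gen
import Pool.Agent.Helper83.D71.F2
import Pool.Agent.Helper12.D71.F3
import Pool.Agent.Helper56.D71.DimCurve

/-!
# The concrete data in the form used by the abstract theorems
-/

open AlgebraicGeometry CategoryTheory MvPolynomial TopologicalSpace

universe u

namespace Helper50.D71

section

variable (k : Type u) [Field k]

lemma inj_tW : Inj k (tW k) := fun _ _ h => aeval_tW_injective h

lemma inj_tB : Inj k (tB k) := fun _ _ h => aeval_tB_injective h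

lemma quo_iff (t : Fin 3 → KK k) (φ : KK k) (P G : MvPolynomial (Fin 3) k) :
    Quo t φ P G ↔ IsQuot k t φ P G := Iff.rfl

lemma notMem_pR_of (ω : k) {G : MvPolynomial (Fin 3) k} (h : G ∉ pR k ω) :
    G ∉ Ideal.span {X 0, X 1 - C ω} := fun h' => h (span_le_pR ω h')

/-- the key lemma in the form used by `ptE_notMem` -/
lemma key_quo [IsAlgClosed k] [CharZero k] (φ : KK k)
    (h1 : ∃ P G, Quo (tW k) φ P G ∧ G ∉ pE k)
    (h2 : ∀ ω : k, ω ^ 3 = 1 → ∃ P G, Quo (tW k) φ P G ∧ G ∉ pR k ω)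
    (h3 : ∃ P G, Quo (tB k) φ P G ∧ G ∉ p0 k ∧ P ∈ p0 k) :
    ∃ P G, Quo (tB k) φ P G ∧ G ∉ pC k ∧ P ∈ pC k := by
  have h1' : ∃ P G, IsQuot k (tW k) φ P G ∧ G ∉ Ideal.span {X 2, X 1 ^ 3 - 1 - X 0 ^ 2} := by
    obtain ⟨P, G, h, hG⟩ := h1
    exact ⟨P, G, (quo_iff k _ _ _ _).mp h, hG⟩
  have h2' : ∀ ω : k, ω ^ 3 = 1 → ∃ P G, IsQuot k (tW k) φ P G ∧
      G ∉ Ideal.span {X 0, X 1 - C ω} := by
    intro ω hω
    obtain ⟨P, G, h, hG⟩ := h2 ω hω
    exact ⟨P, G, (quo_iff k _ _ _ _).mp h, notMem_pR_of k ω hG⟩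
  have h3' : ∃ P G, IsQuot k (tB k) φ P G ∧ constantCoeff G ≠ 0 ∧ constantCoeff P = 0 := by
    obtain ⟨P, G, h, hG, hP⟩ := h3
    exact ⟨P, G, (quo_iff k _ _ _ _).mp h, hG, hP⟩
  obtain ⟨P, G, h, hG, hP⟩ := key_lemma k φ h1' h2' h3'
  exact ⟨P, G, (quo_iff k _ _ _ _).mpr h, notMem_pC hG, span_le_pC hP⟩

/-- `k[s,y,v]` is contained in the chart `S` -/
lemma aeval_tW_mem_S (P : MvPolynomial (Fin 3) k) : aeval (tW k) P ∈ chart k .S := by
  have hs : s k ∈ chart k .S := Algebra.subset_adjoin (by simp [gens])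
  have hy : y k ∈ chart k .S := Algebra.subset_adjoin (by simp [gens])
  have hvs : v k / s k ∈ chart k .S := Algebra.subset_adjoin (by simp [gens])
  have hv : v k ∈ chart k .S := by
    have : v k = s k * (v k / s k) := by have := s_ne k; field_simp
    rw [this]
    exact mul_mem hs hvs
  induction P using MvPolynomial.induction_on with
  | C a => rw [aeval_C]; exact Subalgebra.algebraMap_mem _ _
  | add p q hp hq => rw [map_add]; exact add_mem hp hq
  | mul_X p i hp =>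
    rw [map_mul, aeval_X]
    refine mul_mem hp ?_
    fin_cases i
    · exact hs
    · exact hy
    · exact hv

end

end Helper50.D71
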