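import Pool.Agent.Helper50.D71.Defs

/-!
# Elementary properties of `IsLocOf` and `Good`
-/

universe u

namespace Helper50.D71

section Loc

variable {k : Type u} [Field k] {K : Type u} [Field K] [Algebra k K]

lemma IsLocOf.le {B C : Subalgebra k K} (h : IsLocOf B C) : B ≤ C := by
  obtain ⟨f, _, _, _, h, _⟩ := h
  exact h

lemma mem_adjoin_inv {B : Subalgebra k K} (f : K) : f⁻¹ ∈ B ⊔ Algebra.adjoin k {f⁻¹} :=
  (le_sup_right : Algebra.adjoin k {f⁻¹} ≤ B ⊔ Algebra.adjoin k {f⁻¹})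
    (Algebra.subset_adjoin rfl)

lemma IsLocOf.refl (B : Subalgebra k K) : IsLocOf B B :=
  ⟨1, one_mem _, one_ne_zero, by simp [one_mem], le_rfl, le_sup_left⟩

/-- every element of `B[1/f]` is `b / f ^ n`. -/
lemma exists_mul_pow_mem {B : Subalgebra k K} {f : K} (hf : f ∈ B) (hf0 : f ≠ 0) {x : K}
    (hx : x ∈ B ⊔ Algebra.adjoin k {f⁻¹}) : ∃ n : ℕ, x * f ^ n ∈ B := by
  have hle : B ⊔ Algebra.adjoin k {f⁻¹} ≤
      { carrier := {x | ∃ n : ℕ, x * f ^ n ∈ B}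
        mul_mem' := by
          rintro a b ⟨n, hn⟩ ⟨m, hm⟩
          refine ⟨n + m, ?_⟩
          have : a * b * f ^ (n + m) = (a * f ^ n) * (b * f ^ m) := by ring
          rw [this]
          exact mul_mem hn hm
        add_mem' := by
          rintro a b ⟨n, hn⟩ ⟨m, hm⟩
          refine ⟨n + m, ?_⟩
          have : (a + b) * f ^ (n + m) = (a * f ^ n) * f ^ m + (b * f ^ m) * f ^ n := by ring
          rw [this]
          exact add_mem (mul_mem hn (pow_mem hf m)) (mul_mem hm (pow_mem hf n))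
        algebraMap_mem' := fun r => ⟨0, by simpa using B.algebraMap_mem r⟩ :
        Subalgebra k K } := by
    refine sup_le (fun x hx => ⟨0, by simpa using hx⟩) ?_
    rw [Algebra.adjoin_le_iff]
    rintro x rfl
    exact ⟨1, by simp [hf0, one_mem]⟩
  exact hle hx

lemma IsLocOf.trans {B C D : Subalgebra k K} (h₁ : IsLocOf B C) (h₂ : IsLocOf C D) :
    IsLocOf B D := by
  obtain ⟨f, hfB, hf0, hfC, hBC, hCB⟩ := h₁
  obtain ⟨g, hgC, hg0, hgD, hCD, hDC⟩ := h₂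
  obtain ⟨n, hn⟩ := exists_mul_pow_mem hfB hf0 (hCB hgC)
  have hmem : ∀ x ∈ B ⊔ Algebra.adjoin k {(f * (g * f ^ n))⁻¹},
      x ∈ B ⊔ Algebra.adjoin k {(f * (g * f ^ n))⁻¹} := fun _ h => h
  have hinv : (f * (g * f ^ n))⁻¹ ∈ B ⊔ Algebra.adjoin k {(f * (g * f ^ n))⁻¹} :=
    mem_adjoin_inv _
  have hBle : B ≤ B ⊔ Algebra.adjoin k {(f * (g * f ^ n))⁻¹} := le_sup_left
  have hf' : f⁻¹ ∈ B ⊔ Algebra.adjoin k {(f * (g * f ^ n))⁻¹} := by
    have : f⁻¹ = (g * f ^ n) * (f * (g * f ^ n))⁻¹ := by field_simp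
    rw [this]
    exact mul_mem (hBle hn) hinv
  have hg' : g⁻¹ ∈ B ⊔ Algebra.adjoin k {(f * (g * f ^ n))⁻¹} := by
    have : g⁻¹ = f * f ^ n * (f * (g * f ^ n))⁻¹ := by field_simp
    rw [this]
    exact mul_mem (hBle (mul_mem hfB (pow_mem hfB n))) hinv
  refine ⟨f * (g * f ^ n), mul_mem hfB hn, by positivity, ?_, hBC.trans hCD, ?_⟩
  · rw [mul_inv, mul_inv, ← inv_pow]
    exact mul_mem (hCD hfC) (mul_mem hgD (pow_mem (hCD hfC) n))
  · refine hDC.trans (sup_le (hCB.trans (sup_le hBle ?_)) ?_)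
    · rw [Algebra.adjoin_le_iff]; rintro x rfl; exact hf'
    · rw [Algebra.adjoin_le_iff]; rintro x rfl; exact hg'

lemma IsLocOf.sup {B C D : Subalgebra k K} (h : IsLocOf B C) (hBD : B ≤ D) :
    IsLocOf D (C ⊔ D) := by
  obtain ⟨f, hfB, hf0, hfC, hBC, hCB⟩ := h
  refine ⟨f, hBD hfB, hf0, (le_sup_left : C ≤ C ⊔ D) hfC, le_sup_right,
    sup_le (hCB.trans (sup_le_sup_right hBD _)) le_sup_left⟩

/-- if `A ≤ C ≤ B` and `B` is a localization of `A`, then `B` is a localization of `C`. -/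
lemma IsLocOf.of_le {A B C : Subalgebra k K} (h : IsLocOf A B) (hAC : A ≤ C) (hCB : C ≤ B) :
    IsLocOf C B := by
  have := h.sup hAC
  rwa [sup_eq_left.mpr hCB] at this

lemma Good.symm {B C : Subalgebra k K} (h : Good B C) : Good C B := by
  unfold Good at *
  rw [sup_comm C B]
  exact ⟨h.2, h.1⟩

lemma Good.refl (B : Subalgebra k K) : Good B B := by
  simp [Good, IsLocOf.refl]

/-- transitivity through an algebra `D` whose spectrum contains the intersection. -/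
lemma Good.via {B C : Subalgebra k K} (D : Subalgebra k K) (h₁ : Good B D) (h₂ : Good D C)
    (hD : D ≤ B ⊔ C) : Good B C := by
  have e : (B ⊔ D) ⊔ (D ⊔ C) = B ⊔ C := by
    apply le_antisymm
    · exact sup_le (sup_le le_sup_left hD) (sup_le hD le_sup_right)
    · exact sup_le (le_sup_left.trans le_sup_left) (le_sup_right.trans le_sup_right)
  constructor
  · have h3 : IsLocOf (B ⊔ D) ((D ⊔ C) ⊔ (B ⊔ D)) := h₂.1.sup le_sup_right
    rw [sup_comm (D ⊔ C), e] at h3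
    exact h₁.1.trans h3
  · have h3 : IsLocOf (D ⊔ C) ((B ⊔ D) ⊔ (D ⊔ C)) := h₁.2.sup le_sup_left
    rw [e] at h3
    exact h₂.2.trans h3

/-- the main criterion to prove `Good`. -/
lemma good_of {B C : Subalgebra k K} (E : Subalgebra k K) (hB : IsLocOf B E) (hC : IsLocOf C E)
    (hE : E ≤ B ⊔ C) : Good B C := by
  have : E = B ⊔ C := le_antisymm hE (sup_le hB.le hC.le)
  subst this
  exact ⟨hB, hC⟩

/-- criterion with explicit elements -/
lemma good_mk {S T : Set K} (f g : K) (hf : f ∈ Algebra.adjoin k S) (hg : g ∈ Algebra.adjoin k T)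
    (hf0 : f ≠ 0) (hg0 : g ≠ 0)
    (hfi : f⁻¹ ∈ Algebra.adjoin k S ⊔ Algebra.adjoin k T)
    (hgi : g⁻¹ ∈ Algebra.adjoin k S ⊔ Algebra.adjoin k T)
    (hT : ∀ x ∈ T, x ∈ Algebra.adjoin k S ⊔ Algebra.adjoin k {f⁻¹})
    (hS : ∀ x ∈ S, x ∈ Algebra.adjoin k T ⊔ Algebra.adjoin k {g⁻¹}) :
    Good (Algebra.adjoin k S) (Algebra.adjoin k T) := by
  constructor
  · exact ⟨f, hf, hf0, hfi, le_sup_left, sup_le le_sup_left (Algebra.adjoin_le_iff.mpr hT)⟩
  · exact ⟨g, hg, hg0, hgi, le_sup_right, sup_le (Algebra.adjoin_le_iff.mpr hS) le_sup_left⟩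

end Loc

end Helper50.D71
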