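import Pool.Agent.Helper50.D71.Inst

/-!
# Assembly of the theorem
-/

open AlgebraicGeometry CategoryTheory MvPolynomial TopologicalSpace

universe u

namespace Helper50.D71

section Chain

variable {k : Type u} [Field k] {K : Type u} [Field K] [Algebra k K] {t : Fin 3 → K}

lemma locPt_mono {𝔭 𝔭' : Ideal (MvPolynomial (Fin 3) k)} [𝔭.IsPrime] [𝔭'.IsPrime]
    (hinj : Inj k t) {B : Subalgebra k K} (h : B ≤ OO t 𝔭) (h' : B ≤ OO t 𝔭') (hle : 𝔭 ≤ 𝔭') :
    locPt hinj B h ≤ locPt hinj B h' := by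
  intro x hx
  obtain ⟨P, G, hG, hPG⟩ := h' x.2
  have hP : P ∈ 𝔭 := (mem_locPt_iff (fun h1 => hG (hle h1)) hPG).mp hx
  exact (mem_locPt_iff hG hPG).mpr (hle hP)

lemma not_locPt_le {𝔭 𝔭' : Ideal (MvPolynomial (Fin 3) k)} [𝔭.IsPrime] [𝔭'.IsPrime]
    (hinj : Inj k t) {B : Subalgebra k K} (h : B ≤ OO t 𝔭) (h' : B ≤ OO t 𝔭')
    (P : MvPolynomial (Fin 3) k) (hPB : aeval t P ∈ B) (hP : P ∉ 𝔭) (hP' : P ∈ 𝔭') :
    ¬ locPt hinj B h' ≤ locPt hinj B h := by
  intro hle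
  have e : ((⟨aeval t P, hPB⟩ : B) : K) * aeval t (1 : MvPolynomial (Fin 3) k) = aeval t P := by
    rw [map_one, mul_one]
  have h1 : (⟨aeval t P, hPB⟩ : B) ∈ (locPt hinj B h').asIdeal :=
    (mem_locPt_iff one_notMem e).mpr hP'
  exact hP ((mem_locPt_iff one_notMem e).mp (hle h1))

end Chain

section Primes

variable (k : Type u) [Field k]

/-- the ideal of the point `(s₀, 2, 0)` of `E` -/
noncomputable def p3 (s₀ : k) : Ideal (MvPolynomial (Fin 3) k) :=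
  RingHom.ker (MvPolynomial.eval ![s₀, 2, 0] : MvPolynomial (Fin 3) k →+* k)

instance (s₀ : k) : (p3 k s₀).IsPrime := RingHom.ker_isPrime _

variable {k}

lemma pE_le_p3 {s₀ : k} (h : s₀ ^ 2 = 7) : pE k ≤ p3 k s₀ := by
  rw [pE, Ideal.span_le]
  rintro x (rfl | rfl)
  · show MvPolynomial.eval _ _ = _
    simp
  · show MvPolynomial.eval _ _ = _
    simp [h]
    norm_num

lemma X0_sub_notMem_pE [CharZero k] [IsAlgClosed k] (r : k) :
    (X 0 - C r : MvPolynomial (Fin 3) k) ∉ pE k := by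
  intro h
  obtain ⟨s₀, hs₀⟩ := IsAlgClosed.exists_pow_nat_eq (7 : k) (n := 2) (by norm_num)
  have h1 : MvPolynomial.eval ![s₀, 2, 0] (X 0 - C r) = 0 := pE_le_p3 hs₀ h
  have h2 : MvPolynomial.eval ![-s₀, 2, 0] (X 0 - C r) = 0 :=
    pE_le_p3 (by rw [neg_pow]; simpa using hs₀) h
  simp at h1 h2
  have h3 : (2 : k) * s₀ = 0 := by linear_combination h1 - h2
  have h4 : s₀ = 0 := by simpa using h3
  rw [h4] at hs₀
  norm_num at hs₀

lemma Fpoly_mem_pE : (X 1 ^ 3 - (X 0 ^ 2 + 1) : MvPolynomial (Fin 3) k) ∈ pE k := by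
  have : (X 1 ^ 3 - (X 0 ^ 2 + 1) : MvPolynomial (Fin 3) k) = X 1 ^ 3 - 1 - X 0 ^ 2 := by ring
  rw [this]
  exact Ideal.subset_span (by simp)

end Primes

section Final

variable {k : Type u} [Field k] [IsAlgClosed k] [CharZero k]
variable {Y : Scheme.{u}} {f : Y ⟶ Spec (.of k)} {w : k}
  {c : ∀ i, Spec (.of (AA k w i)) ⟶ Y}

omit [IsAlgClosed k] [CharZero k] in
lemma S_le : ∀ (𝔭 : Ideal (MvPolynomial (Fin 3) k)) [𝔭.IsPrime],
    (X 0 : MvPolynomial (Fin 3) k) ∉ 𝔭 → AA k w (.inl .S) ≤ OO (tW k) 𝔭 :=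
  fun 𝔭 _ h => chartS_le_OO 𝔭 h

/-- the generic point of `E` in the chart `S` -/
noncomputable def etaE (k : Type u) [Field k] [IsAlgClosed k] [CharZero k] (w : k) :
    PrimeSpectrum (AA k w (.inl .S)) :=
  locPt (inj_tW k) (AA k w (.inl .S)) (S_le (pE k) X0_notMem_pE)

lemma range_aux {w : k} (hw : w ^ 2 + w + 1 = 0) (𝔭 : Ideal (MvPolynomial (Fin 3) k))
    [h𝔭 : 𝔭.IsPrime] (hlt : 𝔭 < pE k) :
    AA k w (.inr false) ≤ OO (tW k) 𝔭 ∨ AA k w (.inr true) ≤ OO (tW k) 𝔭 := by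
  rcases generization k 𝔭 hlt with ⟨h1, h2⟩ | ⟨h1, h2, h3, h4, h5, h6⟩
  · exact Or.inr (Ar_le_OO 𝔭 h1 h2)
  · exact Or.inl (Ax_le_OO_W w hw 𝔭 h1 h2 h3 h4 h5 h6)

/-- the generic point of `E` is not in a quasi-projective open subset containing `U₀` -/
lemma etaE_notMem (hw : w ^ 2 + w + 1 = 0) (hM : IsModel (AA k w) Y f c) (V : Y.Opens)
    (hV : IsQuasiProjective (V.ι ≫ f)) (hx : Set.range (c (.inr false)) ⊆ V)
    (hr : Set.range (c (.inr true)) ⊆ V) : c (.inl .S) (etaE k w) ∉ V := by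
  have : Infinite k := IsAlgClosed.instInfinite
  have : Nonempty Idx := ⟨.inl .S⟩
  exact ptE_notMem hM (inj_tW k) (inj_tB k) (key_quo k) (.inl .S) (.inr false) (.inr true)
    (S_le (pE k) X0_notMem_pE) (Ax_le_OO_B w hw (p0 k) fun _ h => h)
    (Ax_le_OO_B w hw (pC k) pC_le)
    ((le_sup_left : chart k .B ≤ Ax k w) (Algebra.subset_adjoin (by simp [gens, tB])))
    (fun ω => Ar_le_OO _ (X2_notMem_pR ω) (Yrp_notMem_pR ω)) V hV hx hr

/-- every generization of the generic point of `E` outside `V ⊇ U₀` is trivial -/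
lemma etaE_gen (hw : w ^ 2 + w + 1 = 0) (hM : IsModel (AA k w) Y f c) (V : Set Y)
    (hx : Set.range (c (.inr false)) ⊆ V) (hr : Set.range (c (.inr true)) ⊆ V) (z : Y)
    (hz : z ⤳ c (.inl .S) (etaE k w)) (hzV : z ∉ V) : z = c (.inl .S) (etaE k w) := by
  refine generization_mem hM (AA_good w hw) (inj_tW k) (.inl .S) V
    (S_le (pE k) X0_notMem_pE) (aeval_tW_mem_S k) ?_ z hz hzV
  intro 𝔭 h𝔭 hlt
  rcases range_aux hw 𝔭 hlt with h | h
  · exact ⟨_, h, hx⟩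
  · exact ⟨_, h, hr⟩

/-- the closure of the generic point of `E` has dimension one -/
lemma dim_E (hM : IsModel (AA k w) Y f c) (hY : topologicalKrullDim Y = 3)
    {Z : Scheme.{u}} (j : Z ⟶ Y) [IsClosedImmersion j]
    (hj : Set.range j = closure {c (.inl .S) (etaE k w)}) : topologicalKrullDim Z = 1 := by
  obtain ⟨s₀, hs₀⟩ := IsAlgClosed.exists_pow_nat_eq (7 : k) (n := 2) (by norm_num)
  have hs₀' : s₀ ≠ 0 := by
    rintro rfl
    norm_num at hs₀
  have hmem : ∀ P : MvPolynomial (Fin 3) k, aeval (tW k) P ∈ AA k w (.inl .S) :=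
    aeval_tW_mem_S k
  have hE := S_le (w := w) (pE k) X0_notMem_pE
  -- the prime `0`
  have hp0 : (⊥ : Ideal (MvPolynomial (Fin 3) k)).IsPrime := Ideal.isPrime_bot
  have h0 : AA k w (.inl .S) ≤ OO (tW k) (⊥ : Ideal (MvPolynomial (Fin 3) k)) :=
    S_le _ (by simp)
  -- the prime `(v)`
  have hp1 : (Ideal.span {(X 2 : MvPolynomial (Fin 3) k)}).IsPrime :=
    (Ideal.span_singleton_prime (X_ne_zero 2)).mpr X_prime
  have hle1 : Ideal.span {(X 2 : MvPolynomial (Fin 3) k)} ≤ pE k :=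
    Ideal.span_mono (by simp)
  have h1 : AA k w (.inl .S) ≤ OO (tW k) (Ideal.span {(X 2 : MvPolynomial (Fin 3) k)}) :=
    S_le _ fun h => X0_notMem_pE (hle1 h)
  -- the point `(s₀, 2, 0)`
  have hX3 : (X 0 : MvPolynomial (Fin 3) k) ∉ p3 k s₀ := by
    intro h
    have h' : MvPolynomial.eval ![s₀, 2, 0] (X 0) = 0 := h
    simp at h'
    exact hs₀' h'
  have h3 : AA k w (.inl .S) ≤ OO (tW k) (p3 k s₀) := S_le _ hX3
  have hF : (X 1 ^ 3 - 1 - X 0 ^ 2 : MvPolynomial (Fin 3) k) ∉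
      Ideal.span {(X 2 : MvPolynomial (Fin 3) k)} := by
    intro h
    have hle : Ideal.span {(X 2 : MvPolynomial (Fin 3) k)} ≤
        RingHom.ker (MvPolynomial.eval ![0, 0, 0] : MvPolynomial (Fin 3) k →+* k) := by
      rw [Ideal.span_le]
      rintro x rfl
      show MvPolynomial.eval _ _ = _
      simp
    have h' : MvPolynomial.eval ![0, 0, 0] (X 1 ^ 3 - 1 - X 0 ^ 2 : MvPolynomial (Fin 3) k) = 0 :=
      hle h
    simp at h'
  refine dim_curve hY
    (c (.inl .S) (locPt (inj_tW k) _ h0)) (c (.inl .S) (locPt (inj_tW k) _ h1))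
    (c (.inl .S) (etaE k w)) (c (.inl .S) (locPt (inj_tW k) _ h3))
    (IsModel.specializes_of_le _ (locPt_mono _ _ _ bot_le))
    (IsModel.specializes_of_le _ (locPt_mono _ _ _ hle1))
    (IsModel.specializes_of_le _ (locPt_mono _ _ _ (pE_le_p3 hs₀)))
    (fun h => ?_) (fun h => ?_) (fun h => ?_) j (IsClosedImmersion.isClosedEmbedding j) hj
  · refine not_locPt_le (inj_tW k) h0 h1 (X 2) (hmem _) ?_ (Ideal.subset_span rfl)
      (hM.le_of_specializes _ h)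
    simp
  · exact not_locPt_le (inj_tW k) h1 hE (X 1 ^ 3 - 1 - X 0 ^ 2) (hmem _) hF
      (Ideal.subset_span (by simp)) (hM.le_of_specializes _ h)
  · refine not_locPt_le (inj_tW k) hE h3 (X 0 - C s₀) (hmem _) (X0_sub_notMem_pE s₀) ?_
      (hM.le_of_specializes _ h)
    show MvPolynomial.eval _ _ = _
    simp

/-- `E` is not rational -/
lemma E_not_rational (hM : IsModel (AA k w) Y f c) {Z : Scheme.{u}} (j : Z ⟶ Y)
    [IsClosedImmersion j] [IsIntegral Z]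
    (hj : Set.range j = closure {c (.inl .S) (etaE k w)}) :
    ¬ Scheme.IsRationalOver (j ≫ f) := by
  have hs : aeval (tW k) (X 0 : MvPolynomial (Fin 3) k) ∈ AA k w (.inl .S) := aeval_tW_mem_S k _
  have hy : aeval (tW k) (X 1 : MvPolynomial (Fin 3) k) ∈ AA k w (.inl .S) := aeval_tW_mem_S k _
  refine hM.curve_not_rational (.inl .S) (etaE k w) j hj ⟨_, hs⟩ ⟨_, hy⟩ ?_ ?_
  · refine (mem_locPt_iff (P := X 1 ^ 3 - (X 0 ^ 2 + 1)) (G := 1) one_notMem ?_).mpr Fpoly_mem_pE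
    simp only [map_one, map_sub, map_add, map_pow, mul_one]
    rfl
  · intro r h
    refine X0_sub_notMem_pE r ((mem_locPt_iff (P := X 0 - C r) (G := 1) one_notMem ?_).mp h)
    simp only [map_one, map_sub, mul_one, aeval_C]
    rfl

end Final

end Helper50.D71
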