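import Pool.Agent.Helper50.D71.Loc

/-!
# Nonvanishing of the basic elements
-/

open MvPolynomial

universe u

namespace Helper50.D71

section

variable {k : Type u} [Field k]

/-- evaluation of a polynomial at `(s,y,v)` is the canonical map -/
lemma aeval_syv (f : MvPolynomial (Fin 3) k) :
    aeval ![s k, y k, v k] f = algebraMap (MvPolynomial (Fin 3) k) (KK k) f := by
  have : (aeval ![s k, y k, v k] : MvPolynomial (Fin 3) k →ₐ[k] KK k) =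
      IsScalarTower.toAlgHom k (MvPolynomial (Fin 3) k) (KK k) := by
    apply MvPolynomial.algHom_ext
    intro i
    fin_cases i <;> simp [s, y, v]
  rw [this]
  rfl

lemma algebraMap_ne_zero_of_eval {f : MvPolynomial (Fin 3) k} (a : Fin 3 → k)
    (h : eval a f ≠ 0) : aeval ![s k, y k, v k] f ≠ 0 := by
  rw [aeval_syv]
  intro h0
  rw [IsFractionRing.to_map_eq_zero_iff] at h0
  simp [h0] at h

/-- nonvanishing of an element of `K` given by a polynomial -/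
lemma ne_zero_of {x : KK k} (f : MvPolynomial (Fin 3) k) (a : Fin 3 → k)
    (hx : aeval ![s k, y k, v k] f = x) (h : eval a f ≠ 0) : x ≠ 0 :=
  hx ▸ algebraMap_ne_zero_of_eval a h

variable (k)

lemma s_ne : s k ≠ 0 := ne_zero_of (X 0) ![1, 0, 0] (by simp) (by simp)
lemma y_ne : y k ≠ 0 := ne_zero_of (X 1) ![0, 1, 0] (by simp) (by simp)
lemma v_ne : v k ≠ 0 := ne_zero_of (X 2) ![0, 0, 1] (by simp) (by simp)
lemma fb_ne : fb k ≠ 0 :=
  ne_zero_of (X 1 ^ 3 - 1) ![0, 0, 0] (by simp [fb]) (by simp)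
lemma F_ne : F k ≠ 0 :=
  ne_zero_of (X 1 ^ 3 - 1 - X 0 ^ 2) ![0, 0, 0] (by simp [F, fb]) (by simp)
lemma z1_ne : z1 k ≠ 0 :=
  ne_zero_of (-(X 0 ^ 2 * X 2 + (X 1 ^ 3 - 1 - X 0 ^ 2))) ![0, 0, 0]
    (by simp [z1, F, fb]) (by simp)
lemma z0_ne : z0 k ≠ 0 :=
  ne_zero_of (-(X 0 * -(X 0 ^ 2 * X 2 + (X 1 ^ 3 - 1 - X 0 ^ 2))) - X 1 * X 2) ![0, 1, 1]
    (by simp [z0, z1, F, fb]) (by simp)
lemma P0_ne : P0 k ≠ 0 :=
  ne_zero_of (X 2 + X 1 ^ 2 *
    (-(X 0 * -(X 0 ^ 2 * X 2 + (X 1 ^ 3 - 1 - X 0 ^ 2))) - X 1 * X 2)) ![0, 0, 1]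
    (by simp [P0, z0, z1, F, fb]) (by simp)
lemma dd_ne : dd k ≠ 0 :=
  ne_zero_of (X 0 ^ 3 - X 1) ![1, 0, 0] (by simp [dd]) (by simp)

end

lemma mem_of_eq {k : Type u} [Field k] {K : Type u} [Field K] [Algebra k K]
    {A : Subalgebra k K} {x e : K} (h : x = e) (he : e ∈ A) : x ∈ A := h ▸ he

lemma ne_inv_of_mul {K : Type u} [Field K] {f g : K} (h : f * g = 1) : f ≠ 0 ∧ f⁻¹ = g :=
  ⟨left_ne_zero_of_mul_eq_one h, inv_eq_of_mul_eq_one_right h⟩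

/-- criterion for two charts -/
lemma good_chart {k : Type u} [Field k] {c d : Ch} (f g : KK k) (hf : f ∈ chart k c)
    (hg : g ∈ chart k d) (hf0 : f ≠ 0) (hg0 : g ≠ 0)
    (hfi : f⁻¹ ∈ chart k c ⊔ chart k d) (hgi : g⁻¹ ∈ chart k c ⊔ chart k d)
    (hT : ∀ x ∈ gens k d, x ∈ chart k c ⊔ Algebra.adjoin k {f⁻¹})
    (hS : ∀ x ∈ gens k c, x ∈ chart k d ⊔ Algebra.adjoin k {g⁻¹}) :
    Good (chart k c) (chart k d) :=
  good_mk f g hf hg hf0 hg0 hfi hgi hT hS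

lemma good_via {k : Type u} [Field k] {c d : Ch} (e : Ch) (h₁ : Good (chart k c) (chart k e))
    (h₂ : Good (chart k e) (chart k d))
    (hD : ∀ x ∈ gens k e, x ∈ chart k c ⊔ chart k d) : Good (chart k c) (chart k d) :=
  Good.via (chart k e) h₁ h₂ (Algebra.adjoin_le hD)

end Helper50.D71
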