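import Pool.Agent.Helper50.D71.Spc

/-!
# No quasi-projective open subset containing `U₀` contains the generic point of `E`
-/

open AlgebraicGeometry CategoryTheory MvPolynomial

universe u

namespace Helper50.D71

section Ideals

variable (k : Type u) [Field k]

/-- the prime ideal of `E` -/
noncomputable def pE : Ideal (MvPolynomial (Fin 3) k) := Ideal.span {X 2, X 1 ^ 3 - 1 - X 0 ^ 2}

instance : (pE k).IsPrime := pE_isPrime k

/-- specialisation to a line, with kernel the ideal of the curve `R_ω` -/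
noncomputable def evR (ω : k) : MvPolynomial (Fin 3) k →ₐ[k] Polynomial k :=
  aeval ![0, Polynomial.C ω, Polynomial.X]

/-- specialisation to a line, with kernel the ideal of the curve `C~` -/
noncomputable def evC : MvPolynomial (Fin 3) k →ₐ[k] Polynomial k :=
  aeval ![0, 0, Polynomial.X]

/-- the ideal of `R_ω` -/
noncomputable def pR (ω : k) : Ideal (MvPolynomial (Fin 3) k) := RingHom.ker (evR k ω)
/-- the ideal of `C~` -/
noncomputable def pC : Ideal (MvPolynomial (Fin 3) k) := RingHom.ker (evC k)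
/-- the ideal of the origin -/
noncomputable def p0 : Ideal (MvPolynomial (Fin 3) k) :=
  RingHom.ker (constantCoeff : MvPolynomial (Fin 3) k →+* k)

instance (ω : k) : (pR k ω).IsPrime := RingHom.ker_isPrime _
instance : (pC k).IsPrime := RingHom.ker_isPrime _
instance : (p0 k).IsPrime := RingHom.ker_isPrime _

variable {k}

lemma constantCoeff_eq_evC (G : MvPolynomial (Fin 3) k) :
    constantCoeff G = Polynomial.coeff (evC k G) 0 := by
  have : (constantCoeff : MvPolynomial (Fin 3) k →+* k) =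
      Polynomial.constantCoeff.comp (evC k).toRingHom := by
    apply MvPolynomial.ringHom_ext
    · intro r; simp [evC]
    · intro i; fin_cases i <;> simp [evC]
  rw [this]
  rfl

lemma pC_le (G : MvPolynomial (Fin 3) k) (h : G ∈ pC k) : constantCoeff G = 0 := by
  rw [constantCoeff_eq_evC]
  have : evC k G = 0 := h
  simp [this]

lemma notMem_pC {G : MvPolynomial (Fin 3) k} (h : constantCoeff G ≠ 0) : G ∉ pC k :=
  fun h' => h (pC_le G h')

lemma span_le_pC : Ideal.span {X 0, X 1} ≤ pC k := by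
  rw [Ideal.span_le]
  rintro x (rfl | rfl)
  · show evC k _ = 0
    simp [evC]
  · show evC k _ = 0
    simp [evC]

lemma span_le_pR (ω : k) : Ideal.span {X 0, X 1 - C ω} ≤ pR k ω := by
  rw [Ideal.span_le]
  rintro x (rfl | rfl)
  · show evR k ω _ = 0
    simp [evR]
  · show evR k ω _ = 0
    simp [evR]

lemma X0_notMem_pE [CharZero k] [IsAlgClosed k] : (X 0 : MvPolynomial (Fin 3) k) ∉ pE k := by
  intro h
  obtain ⟨s0, hs0⟩ := IsAlgClosed.exists_pow_nat_eq (7 : k) (n := 2) (by norm_num)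
  have h1 : pE k ≤ RingHom.ker (MvPolynomial.eval ![s0, 2, 0] : MvPolynomial (Fin 3) k →+* k) := by
    rw [pE, Ideal.span_le]
    rintro x (rfl | rfl)
    · show MvPolynomial.eval _ _ = _
      simp
    · show MvPolynomial.eval _ _ = _
      simp [hs0]
      norm_num
  have h2 := h1 h
  rw [RingHom.mem_ker] at h2
  simp at h2
  rw [h2] at hs0
  norm_num at hs0

end Ideals

section Points

variable {k : Type u} [Field k]

lemma Yrp_notMem_pR (ω : k) : Yrp k ∉ pR k ω := by
  intro h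
  have : evR k ω (Yrp k) = 0 := h
  rw [Yrp, map_sub, map_mul, map_pow] at this
  simp [evR] at this

lemma X2_notMem_pR (ω : k) : (X 2 : MvPolynomial (Fin 3) k) ∉ pR k ω := by
  intro h
  have : evR k ω (X 2) = 0 := h
  simp [evR] at this

lemma finite_cube_roots : {ω : k | ω ^ 3 = 1}.Finite := by
  classical
  have : {ω : k | ω ^ 3 = 1} ⊆ (Polynomial.nthRootsFinset 3 (1 : k) : Set k) := by
    intro ω hω
    simpa [Polynomial.mem_nthRootsFinset (by norm_num : 0 < 3)] using hω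
  exact (Finset.finite_toSet _).subset this

variable {K : Type u} [Field K] [Algebra k K] {tW tB : Fin 3 → K}

lemma ptC_le_pt0 {B : Subalgebra k K} (hB : Inj k tB) (h0 : B ≤ OO tB (p0 k))
    (hC : B ≤ OO tB (pC k)) : locPt hB B hC ≤ locPt hB B h0 := by
  intro x hx
  obtain ⟨P, G, hG, h⟩ := h0 x.2
  have hG' : G ∉ pC k := fun h' => hG (pC_le G h')
  have h1 : P ∈ pC k := (mem_locPt_iff hG' h).mp hx
  exact (mem_locPt_iff hG h).mpr (pC_le P h1)

lemma not_pt0_le_ptC {B : Subalgebra k K} (hB : Inj k tB) (h0 : B ≤ OO tB (p0 k))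
    (hC : B ≤ OO tB (pC k)) (hmem : tB 2 ∈ B) : ¬ locPt hB B h0 ≤ locPt hB B hC := by
  intro hle
  have e : ((⟨tB 2, hmem⟩ : B) : K) * aeval tB (1 : MvPolynomial (Fin 3) k) =
      aeval tB (X 2 : MvPolynomial (Fin 3) k) := by
    rw [map_one, mul_one, aeval_X]
  have h1 : (⟨tB 2, hmem⟩ : B) ∈ (locPt hB B h0).asIdeal := by
    rw [mem_locPt_iff one_notMem e]
    show constantCoeff _ = _
    simp
  have h2 : (⟨tB 2, hmem⟩ : B) ∈ (locPt hB B hC).asIdeal := hle h1
  have h3 : (X 2 : MvPolynomial (Fin 3) k) ∈ pC k := by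
    rwa [mem_locPt_iff one_notMem e] at h2
  have h4 : evC k (X 2) = 0 := h3
  simp [evC] at h4

variable {ι : Type} {A : ι → Subalgebra k K}
variable {Y : Scheme.{u}} {f : Y ⟶ Spec (.of k)} {c : ∀ i, Spec (.of (A i)) ⟶ Y}

/-- a finite set of points of a quasi-projective open subset has an affine open neighbourhood. -/
lemma exists_affine_of_subset [Infinite k] (V : Y.Opens) (hV : IsQuasiProjective (V.ι ≫ f))
    (S : Set Y) (hS : S.Finite) (hSV : S ⊆ V) : ∃ W : Y.Opens, IsAffineOpen W ∧ S ⊆ W := by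
  obtain ⟨W', hW'aff, hW'⟩ := hV.exists_affine (V.ι ⁻¹' S)
    (hS.preimage V.ι.isOpenEmbedding.injective.injOn)
  refine ⟨V.ι ''ᵁ W', hW'aff.image_of_isOpenImmersion V.ι, ?_⟩
  intro x hxS
  exact ⟨⟨x, hSV hxS⟩, hW' (show V.ι ⟨x, hSV hxS⟩ ∈ S from hxS), rfl⟩

/-- a function on an affine open set separating two points -/
lemma exists_separating {W : Y.Opens} (hW : IsAffineOpen W) {x x' : Y} (hx : x ∈ W)
    (h : ¬ x' ⤳ x) : ∃ g : Γ(Y, W), x ∈ Y.basicOpen g ∧ x' ∉ Y.basicOpen g := by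
  have hnot : x ∉ closure {x'} := by
    intro h'
    rw [← specializes_iff_mem_closure] at h'
    exact h h'
  let O : Y.Opens := ⟨(closure {x'})ᶜ, isClosed_closure.isOpen_compl⟩
  obtain ⟨g, hg, hxg⟩ := hW.exists_basicOpen_le (V := O) ⟨x, hnot⟩ hx
  exact ⟨g, hxg, fun h => hg h (subset_closure rfl)⟩

/-- no quasi-projective open subset containing `U₀` contains the generic point of `E` -/
theorem ptE_notMem [Infinite k] [Nonempty ι] (hM : IsModel A Y f c) (hW : Inj k tW)
    (hB : Inj k tB)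
    (key : ∀ φ : K,
      (∃ P G, Quo tW φ P G ∧ G ∉ pE k) →
      (∀ ω : k, ω ^ 3 = 1 → ∃ P G, Quo tW φ P G ∧ G ∉ pR k ω) →
      (∃ P G, Quo tB φ P G ∧ G ∉ p0 k ∧ P ∈ p0 k) →
      ∃ P G, Quo tB φ P G ∧ G ∉ pC k ∧ P ∈ pC k)
    (iS iX iR : ι)
    (hS : A iS ≤ OO tW (pE k)) (hX0 : A iX ≤ OO tB (p0 k))
    (hXC : A iX ≤ OO tB (pC k)) (hX2 : tB 2 ∈ A iX)
    (hRω : ∀ ω, A iR ≤ OO tW (pR k ω)) (V : Y.Opens)
    (hV : IsQuasiProjective (V.ι ≫ f)) (hx : Set.range (c iX) ⊆ V)
    (hr : Set.range (c iR) ⊆ V) : c iS (locPt hW (A iS) hS) ∉ V := by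
  intro hE
  have hopen := hM.isOpenImmersion
  -- a common affine open neighbourhood
  obtain ⟨W, hWaff, hSW⟩ := exists_affine_of_subset V hV
    ({c iS (locPt hW (A iS) hS)} ∪ ({c iX (locPt hB (A iX) hX0)} ∪
      ((fun ω => c iR (locPt hW (A iR) (hRω ω))) '' {ω : k | ω ^ 3 = 1})))
    ((Set.finite_singleton _).union ((Set.finite_singleton _).union
      (finite_cube_roots.image _)))
    (Set.union_subset (Set.singleton_subset_iff.mpr hE) (Set.union_subset
      (Set.singleton_subset_iff.mpr (hx ⟨_, rfl⟩))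
      (Set.image_subset_iff.mpr fun ω _ => hr ⟨_, rfl⟩)))
  have hEW : c iS (locPt hW (A iS) hS) ∈ W := hSW (Or.inl rfl)
  have h0W : c iX (locPt hB (A iX) hX0) ∈ W := hSW (Or.inr (Or.inl rfl))
  have hRW : ∀ ω : k, ω ^ 3 = 1 → c iR (locPt hW (A iR) (hRω ω)) ∈ W :=
    fun ω hω => hSW (Or.inr (Or.inr ⟨ω, hω, rfl⟩))
  clear hSW
  have hspec : c iX (locPt hB (A iX) hXC) ⤳ c iX (locPt hB (A iX) hX0) :=
    IsModel.specializes_of_le iX (ptC_le_pt0 hB hX0 hXC)
  have hCW : c iX (locPt hB (A iX) hXC) ∈ W := hspec.mem_open W.isOpen h0W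
  have hnspec : ¬ c iX (locPt hB (A iX) hX0) ⤳ c iX (locPt hB (A iX) hXC) := by
    intro h
    exact not_pt0_le_ptC hB hX0 hXC hX2 (hM.le_of_specializes iX h)
  -- a function separating the two points
  obtain ⟨g, hCg, h0g⟩ := exists_separating hWaff hCW hnspec
  obtain ⟨φ, hφ⟩ := hM.exists_rational W ⟨_, h0W⟩ g
  -- the four kinds of points
  obtain ⟨P, G, hPG, hG, hP⟩ := key φ
    (by
      obtain ⟨a, b, hb, hab, -⟩ := hφ iS _ hEW
      obtain ⟨P, G, hPG, hG, -⟩ := exists_quot hb hab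
      exact ⟨P, G, hPG, hG⟩)
    (by
      intro ω hω
      obtain ⟨a, b, hb, hab, -⟩ := hφ iR _ (hRW ω hω)
      obtain ⟨P, G, hPG, hG, -⟩ := exists_quot hb hab
      exact ⟨P, G, hPG, hG⟩)
    (by
      obtain ⟨a, b, hb, hab, ha⟩ := hφ iX _ h0W
      obtain ⟨P, G, hPG, hG, hP⟩ := exists_quot hb hab
      exact ⟨P, G, hPG, hG, hP.mp (ha.mpr h0g)⟩)
  -- contradiction at the generic point of `C~`
  obtain ⟨a, b, hb, hab, ha⟩ := hφ iX _ hCW
  obtain ⟨P', G', hPG', hG', hP'⟩ := exists_quot hb hab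
  have h1 : P' ∈ pC k := repr_unique hB hG hPG hPG' hP
  exact ha.mp (hP'.mpr h1) hCg

end Points

end Helper50.D71
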