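import Pool.Agent.Helper50.D71.PairsX1
import Pool.Agent.Helper50.D71.PairsX2
import Pool.Agent.Helper50.D71.PairsX3
import Pool.Agent.Helper50.D71.PairsX4
import Pool.Agent.Helper50.D71.PairsT1
import Pool.Agent.Helper50.D71.PairsT2
import Pool.Agent.Helper50.D71.PairsT3
import Pool.Agent.Helper50.D71.PairsT4
import Pool.Agent.Helper50.D71.PairsP1
import Pool.Agent.Helper50.D71.PairsP2
import Pool.Agent.Helper50.D71.PairsP3
import Pool.Agent.Helper50.D71.PairsP4

/-!
# Pairs of charts (generated)
-/

universe u

namespace Helper50.D71

variable (k : Type u) [Field k]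

set_option maxHeartbeats 1000000

attribute [local irreducible] s y v fb F z1 z0 P0 dd

theorem good_S_W : Good (chart k .S) (chart k .W) := by
  have hs := s_ne k; have hy := y_ne k; have hv := v_ne k; have hfb := fb_ne k
  have hF := F_ne k; have hz1 := z1_ne k; have hz0 := z0_ne k; have hP0 := P0_ne k
  have hdd := dd_ne k
  have u_i_y : y k ∈ chart k .S ⊔ chart k .W :=
    (le_sup_left : chart k .S ≤ _) (Algebra.subset_adjoin (by simp [gens]))
  have u_i_s : s k ∈ chart k .S ⊔ chart k .W :=
    (le_sup_left : chart k .S ≤ _) (Algebra.subset_adjoin (by simp [gens]))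
  have u_i_ft : fb k / s k ∈ chart k .S ⊔ chart k .W :=
    (le_sup_left : chart k .S ≤ _) (Algebra.subset_adjoin (by simp [gens]))
  have u_i_vt : v k / s k ∈ chart k .S ⊔ chart k .W :=
    (le_sup_left : chart k .S ≤ _) (Algebra.subset_adjoin (by simp [gens]))
  have u_j_s : s k ∈ chart k .S ⊔ chart k .W :=
    (le_sup_right : chart k .W ≤ _) (Algebra.subset_adjoin (by simp [gens]))
  have u_j_y : y k ∈ chart k .S ⊔ chart k .W :=
    (le_sup_right : chart k .W ≤ _) (Algebra.subset_adjoin (by simp [gens]))
  have u_j_w : 1 / v k ∈ chart k .S ⊔ chart k .W :=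
    (le_sup_right : chart k .W ≤ _) (Algebra.subset_adjoin (by simp [gens]))
  refine good_via .V (good_S_V k) (good_V_W k) ?_
  intro x hx
  simp only [gens, Set.mem_insert_iff, Set.mem_singleton_iff] at hx
  rcases hx with rfl | rfl | rfl | rfl
  · exact mem_of_eq (e := y k)
      (by (field_simp <;> ring)) (by repeat' (first | (with_reducible assumption) | (with_reducible apply sub_mem) | (with_reducible apply add_mem) | (with_reducible apply mul_mem) | (with_reducible apply pow_mem) | (with_reducible apply neg_mem) | exact one_mem _ | exact zero_mem _ | exact ofNat_mem _ _))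
  · exact mem_of_eq (e := (s k) * (v k / s k))
      (by (field_simp <;> ring)) (by repeat' (first | (with_reducible assumption) | (with_reducible apply sub_mem) | (with_reducible apply add_mem) | (with_reducible apply mul_mem) | (with_reducible apply pow_mem) | (with_reducible apply neg_mem) | exact one_mem _ | exact zero_mem _ | exact ofNat_mem _ _))
  · exact mem_of_eq (e := (s k) * (1 / v k))
      (by (field_simp <;> ring)) (by repeat' (first | (with_reducible assumption) | (with_reducible apply sub_mem) | (with_reducible apply add_mem) | (with_reducible apply mul_mem) | (with_reducible apply pow_mem) | (with_reducible apply neg_mem) | exact one_mem _ | exact zero_mem _ | exact ofNat_mem _ _))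
  · exact mem_of_eq (e := (((y k) ^ 3) - 1) * (1 / v k))
      (by field_simp; (try simp only [fb_eq]); (try ring)) (by repeat' (first | (with_reducible assumption) | (with_reducible apply sub_mem) | (with_reducible apply add_mem) | (with_reducible apply mul_mem) | (with_reducible apply pow_mem) | (with_reducible apply neg_mem) | exact one_mem _ | exact zero_mem _ | exact ofNat_mem _ _))

theorem good_S_Pb : Good (chart k .S) (chart k .Pb) := by
  have hs := s_ne k; have hy := y_ne k; have hv := v_ne k; have hfb := fb_ne k
  have hF := F_ne k; have hz1 := z1_ne k; have hz0 := z0_ne k; have hP0 := P0_ne k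
  have hdd := dd_ne k
  have u_i_y : y k ∈ chart k .S ⊔ chart k .Pb :=
    (le_sup_left : chart k .S ≤ _) (Algebra.subset_adjoin (by simp [gens]))
  have u_i_s : s k ∈ chart k .S ⊔ chart k .Pb :=
    (le_sup_left : chart k .S ≤ _) (Algebra.subset_adjoin (by simp [gens]))
  have u_i_ft : fb k / s k ∈ chart k .S ⊔ chart k .Pb :=
    (le_sup_left : chart k .S ≤ _) (Algebra.subset_adjoin (by simp [gens]))
  have u_i_vt : v k / s k ∈ chart k .S ⊔ chart k .Pb :=
    (le_sup_left : chart k .S ≤ _) (Algebra.subset_adjoin (by simp [gens]))
  have u_j_X1 : 1 / s k ∈ chart k .S ⊔ chart k .Pb :=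
    (le_sup_right : chart k .Pb ≤ _) (Algebra.subset_adjoin (by simp [gens]))
  have u_j_Z : y k / s k ∈ chart k .S ⊔ chart k .Pb :=
    (le_sup_right : chart k .Pb ≤ _) (Algebra.subset_adjoin (by simp [gens]))
  have u_j_w3 : s k / z0 k ∈ chart k .S ⊔ chart k .Pb :=
    (le_sup_right : chart k .Pb ≤ _) (Algebra.subset_adjoin (by simp [gens]))
  have u_j_ui : (s k ^ 3) / dd k ∈ chart k .S ⊔ chart k .Pb :=
    (le_sup_right : chart k .Pb ≤ _) (Algebra.subset_adjoin (by simp [gens]))
  have u_v3S : z0 k / s k ∈ chart k .S ⊔ chart k .Pb :=
    mem_of_eq (e := ((s k) * (((((s k) ^ 2) * (v k / s k)) + (fb k / s k)) - (s k))) - ((y k) * (v k / s k)))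
      (by field_simp; (try simp only [z0_eq, z1_eq, F_eq]); (try ring)) (by repeat' (first | (with_reducible assumption) | (with_reducible apply sub_mem) | (with_reducible apply add_mem) | (with_reducible apply mul_mem) | (with_reducible apply pow_mem) | (with_reducible apply neg_mem) | exact one_mem _ | exact zero_mem _ | exact ofNat_mem _ _))
  refine good_via .Pa (good_S_Pa k) (good_Pa_Pb k) ?_
  intro x hx
  simp only [gens, Set.mem_insert_iff, Set.mem_singleton_iff] at hx
  rcases hx with rfl | rfl | rfl | rfl
  · exact mem_of_eq (e := 1 / s k)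
      (by (field_simp <;> ring)) (by repeat' (first | (with_reducible assumption) | (with_reducible apply sub_mem) | (with_reducible apply add_mem) | (with_reducible apply mul_mem) | (with_reducible apply pow_mem) | (with_reducible apply neg_mem) | exact one_mem _ | exact zero_mem _ | exact ofNat_mem _ _))
  · exact mem_of_eq (e := y k / s k)
      (by (field_simp <;> ring)) (by repeat' (first | (with_reducible assumption) | (with_reducible apply sub_mem) | (with_reducible apply add_mem) | (with_reducible apply mul_mem) | (with_reducible apply pow_mem) | (with_reducible apply neg_mem) | exact one_mem _ | exact zero_mem _ | exact ofNat_mem _ _))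
  · exact mem_of_eq (e := z0 k / s k)
      (by (field_simp <;> ring)) (by repeat' (first | (with_reducible assumption) | (with_reducible apply sub_mem) | (with_reducible apply add_mem) | (with_reducible apply mul_mem) | (with_reducible apply pow_mem) | (with_reducible apply neg_mem) | exact one_mem _ | exact zero_mem _ | exact ofNat_mem _ _))
  · exact mem_of_eq (e := (s k ^ 3) / dd k)
      (by (field_simp <;> ring)) (by repeat' (first | (with_reducible assumption) | (with_reducible apply sub_mem) | (with_reducible apply add_mem) | (with_reducible apply mul_mem) | (with_reducible apply pow_mem) | (with_reducible apply neg_mem) | exact one_mem _ | exact zero_mem _ | exact ofNat_mem _ _))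

theorem good_V_Pa : Good (chart k .V) (chart k .Pa) := by
  have hs := s_ne k; have hy := y_ne k; have hv := v_ne k; have hfb := fb_ne k
  have hF := F_ne k; have hz1 := z1_ne k; have hz0 := z0_ne k; have hP0 := P0_ne k
  have hdd := dd_ne k
  have u_i_y : y k ∈ chart k .V ⊔ chart k .Pa :=
    (le_sup_left : chart k .V ≤ _) (Algebra.subset_adjoin (by simp [gens]))
  have u_i_v : v k ∈ chart k .V ⊔ chart k .Pa :=
    (le_sup_left : chart k .V ≤ _) (Algebra.subset_adjoin (by simp [gens]))
  have u_i_sp : s k / v k ∈ chart k .V ⊔ chart k .Pa :=
    (le_sup_left : chart k .V ≤ _) (Algebra.subset_adjoin (by simp [gens]))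
  have u_i_fp : fb k / v k ∈ chart k .V ⊔ chart k .Pa :=
    (le_sup_left : chart k .V ≤ _) (Algebra.subset_adjoin (by simp [gens]))
  have u_j_X1 : 1 / s k ∈ chart k .V ⊔ chart k .Pa :=
    (le_sup_right : chart k .Pa ≤ _) (Algebra.subset_adjoin (by simp [gens]))
  have u_j_Z : y k / s k ∈ chart k .V ⊔ chart k .Pa :=
    (le_sup_right : chart k .Pa ≤ _) (Algebra.subset_adjoin (by simp [gens]))
  have u_j_v3 : z0 k / s k ∈ chart k .V ⊔ chart k .Pa :=
    (le_sup_right : chart k .Pa ≤ _) (Algebra.subset_adjoin (by simp [gens]))
  have u_j_ui : (s k ^ 3) / dd k ∈ chart k .V ⊔ chart k .Pa :=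
    (le_sup_right : chart k .Pa ≤ _) (Algebra.subset_adjoin (by simp [gens]))
  have u_vtP : v k / s k ∈ chart k .V ⊔ chart k .Pa :=
    mem_of_eq (e := ((((1 / s k) ^ 3) * (z0 k / s k)) - ((((y k / s k) ^ 3) - (1 / s k)) - ((1 / s k) ^ 3))) * ((s k ^ 3) / dd k))
      (by field_simp; (try simp only [z0_eq, z1_eq, F_eq, fb_eq, dd_eq]); (try ring)) (by repeat' (first | (with_reducible assumption) | (with_reducible apply sub_mem) | (with_reducible apply add_mem) | (with_reducible apply mul_mem) | (with_reducible apply pow_mem) | (with_reducible apply neg_mem) | exact one_mem _ | exact zero_mem _ | exact ofNat_mem _ _))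
  refine good_via .S (good_S_V k).symm (good_S_Pa k) ?_
  intro x hx
  simp only [gens, Set.mem_insert_iff, Set.mem_singleton_iff] at hx
  rcases hx with rfl | rfl | rfl | rfl
  · exact mem_of_eq (e := y k)
      (by (field_simp <;> ring)) (by repeat' (first | (with_reducible assumption) | (with_reducible apply sub_mem) | (with_reducible apply add_mem) | (with_reducible apply mul_mem) | (with_reducible apply pow_mem) | (with_reducible apply neg_mem) | exact one_mem _ | exact zero_mem _ | exact ofNat_mem _ _))
  · exact mem_of_eq (e := (v k) * (s k / v k))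
      (by (field_simp <;> ring)) (by repeat' (first | (with_reducible assumption) | (with_reducible apply sub_mem) | (with_reducible apply add_mem) | (with_reducible apply mul_mem) | (with_reducible apply pow_mem) | (with_reducible apply neg_mem) | exact one_mem _ | exact zero_mem _ | exact ofNat_mem _ _))
  · exact mem_of_eq (e := (((y k) ^ 3) - 1) * (1 / s k))
      (by field_simp; (try simp only [fb_eq]); (try ring)) (by repeat' (first | (with_reducible assumption) | (with_reducible apply sub_mem) | (with_reducible apply add_mem) | (with_reducible apply mul_mem) | (with_reducible apply pow_mem) | (with_reducible apply neg_mem) | exact one_mem _ | exact zero_mem _ | exact ofNat_mem _ _))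
  · exact mem_of_eq (e := v k / s k)
      (by (field_simp <;> ring)) (by repeat' (first | (with_reducible assumption) | (with_reducible apply sub_mem) | (with_reducible apply add_mem) | (with_reducible apply mul_mem) | (with_reducible apply pow_mem) | (with_reducible apply neg_mem) | exact one_mem _ | exact zero_mem _ | exact ofNat_mem _ _))

theorem good_V_Pb : Good (chart k .V) (chart k .Pb) := by
  have hs := s_ne k; have hy := y_ne k; have hv := v_ne k; have hfb := fb_ne k
  have hF := F_ne k; have hz1 := z1_ne k; have hz0 := z0_ne k; have hP0 := P0_ne k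
  have hdd := dd_ne k
  have u_i_y : y k ∈ chart k .V ⊔ chart k .Pb :=
    (le_sup_left : chart k .V ≤ _) (Algebra.subset_adjoin (by simp [gens]))
  have u_i_v : v k ∈ chart k .V ⊔ chart k .Pb :=
    (le_sup_left : chart k .V ≤ _) (Algebra.subset_adjoin (by simp [gens]))
  have u_i_sp : s k / v k ∈ chart k .V ⊔ chart k .Pb :=
    (le_sup_left : chart k .V ≤ _) (Algebra.subset_adjoin (by simp [gens]))
  have u_i_fp : fb k / v k ∈ chart k .V ⊔ chart k .Pb :=
    (le_sup_left : chart k .V ≤ _) (Algebra.subset_adjoin (by simp [gens]))
  have u_j_X1 : 1 / s k ∈ chart k .V ⊔ chart k .Pb :=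
    (le_sup_right : chart k .Pb ≤ _) (Algebra.subset_adjoin (by simp [gens]))
  have u_j_Z : y k / s k ∈ chart k .V ⊔ chart k .Pb :=
    (le_sup_right : chart k .Pb ≤ _) (Algebra.subset_adjoin (by simp [gens]))
  have u_j_w3 : s k / z0 k ∈ chart k .V ⊔ chart k .Pb :=
    (le_sup_right : chart k .Pb ≤ _) (Algebra.subset_adjoin (by simp [gens]))
  have u_j_ui : (s k ^ 3) / dd k ∈ chart k .V ⊔ chart k .Pb :=
    (le_sup_right : chart k .Pb ≤ _) (Algebra.subset_adjoin (by simp [gens]))
  refine good_via .S (good_S_V k).symm (good_S_Pb k) ?_
  intro x hx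
  simp only [gens, Set.mem_insert_iff, Set.mem_singleton_iff] at hx
  rcases hx with rfl | rfl | rfl | rfl
  · exact mem_of_eq (e := y k)
      (by (field_simp <;> ring)) (by repeat' (first | (with_reducible assumption) | (with_reducible apply sub_mem) | (with_reducible apply add_mem) | (with_reducible apply mul_mem) | (with_reducible apply pow_mem) | (with_reducible apply neg_mem) | exact one_mem _ | exact zero_mem _ | exact ofNat_mem _ _))
  · exact mem_of_eq (e := (v k) * (s k / v k))
      (by (field_simp <;> ring)) (by repeat' (first | (with_reducible assumption) | (with_reducible apply sub_mem) | (with_reducible apply add_mem) | (with_reducible apply mul_mem) | (with_reducible apply pow_mem) | (with_reducible apply neg_mem) | exact one_mem _ | exact zero_mem _ | exact ofNat_mem _ _))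
  · exact mem_of_eq (e := (((y k) ^ 3) - 1) * (1 / s k))
      (by field_simp; (try simp only [fb_eq]); (try ring)) (by repeat' (first | (with_reducible assumption) | (with_reducible apply sub_mem) | (with_reducible apply add_mem) | (with_reducible apply mul_mem) | (with_reducible apply pow_mem) | (with_reducible apply neg_mem) | exact one_mem _ | exact zero_mem _ | exact ofNat_mem _ _))
  · exact mem_of_eq (e := (v k) * (1 / s k))
      (by (field_simp <;> ring)) (by repeat' (first | (with_reducible assumption) | (with_reducible apply sub_mem) | (with_reducible apply add_mem) | (with_reducible apply mul_mem) | (with_reducible apply pow_mem) | (with_reducible apply neg_mem) | exact one_mem _ | exact zero_mem _ | exact ofNat_mem _ _))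

theorem good_W_Pa : Good (chart k .W) (chart k .Pa) := by
  have hs := s_ne k; have hy := y_ne k; have hv := v_ne k; have hfb := fb_ne k
  have hF := F_ne k; have hz1 := z1_ne k; have hz0 := z0_ne k; have hP0 := P0_ne k
  have hdd := dd_ne k
  have u_i_s : s k ∈ chart k .W ⊔ chart k .Pa :=
    (le_sup_left : chart k .W ≤ _) (Algebra.subset_adjoin (by simp [gens]))
  have u_i_y : y k ∈ chart k .W ⊔ chart k .Pa :=
    (le_sup_left : chart k .W ≤ _) (Algebra.subset_adjoin (by simp [gens]))
  have u_i_w : 1 / v k ∈ chart k .W ⊔ chart k .Pa :=
    (le_sup_left : chart k .W ≤ _) (Algebra.subset_adjoin (by simp [gens]))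
  have u_j_X1 : 1 / s k ∈ chart k .W ⊔ chart k .Pa :=
    (le_sup_right : chart k .Pa ≤ _) (Algebra.subset_adjoin (by simp [gens]))
  have u_j_Z : y k / s k ∈ chart k .W ⊔ chart k .Pa :=
    (le_sup_right : chart k .Pa ≤ _) (Algebra.subset_adjoin (by simp [gens]))
  have u_j_v3 : z0 k / s k ∈ chart k .W ⊔ chart k .Pa :=
    (le_sup_right : chart k .Pa ≤ _) (Algebra.subset_adjoin (by simp [gens]))
  have u_j_ui : (s k ^ 3) / dd k ∈ chart k .W ⊔ chart k .Pa :=
    (le_sup_right : chart k .Pa ≤ _) (Algebra.subset_adjoin (by simp [gens]))
  have u_vtP : v k / s k ∈ chart k .W ⊔ chart k .Pa :=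
    mem_of_eq (e := ((((1 / s k) ^ 3) * (z0 k / s k)) - ((((y k / s k) ^ 3) - (1 / s k)) - ((1 / s k) ^ 3))) * ((s k ^ 3) / dd k))
      (by field_simp; (try simp only [z0_eq, z1_eq, F_eq, fb_eq, dd_eq]); (try ring)) (by repeat' (first | (with_reducible assumption) | (with_reducible apply sub_mem) | (with_reducible apply add_mem) | (with_reducible apply mul_mem) | (with_reducible apply pow_mem) | (with_reducible apply neg_mem) | exact one_mem _ | exact zero_mem _ | exact ofNat_mem _ _))
  refine good_via .S (good_S_W k).symm (good_S_Pa k) ?_
  intro x hx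
  simp only [gens, Set.mem_insert_iff, Set.mem_singleton_iff] at hx
  rcases hx with rfl | rfl | rfl | rfl
  · exact mem_of_eq (e := y k)
      (by (field_simp <;> ring)) (by repeat' (first | (with_reducible assumption) | (with_reducible apply sub_mem) | (with_reducible apply add_mem) | (with_reducible apply mul_mem) | (with_reducible apply pow_mem) | (with_reducible apply neg_mem) | exact one_mem _ | exact zero_mem _ | exact ofNat_mem _ _))
  · exact mem_of_eq (e := s k)
      (by (field_simp <;> ring)) (by repeat' (first | (with_reducible assumption) | (with_reducible apply sub_mem) | (with_reducible apply add_mem) | (with_reducible apply mul_mem) | (with_reducible apply pow_mem) | (with_reducible apply neg_mem) | exact one_mem _ | exact zero_mem _ | exact ofNat_mem _ _))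
  · exact mem_of_eq (e := (((y k) ^ 3) - 1) * (1 / s k))
      (by field_simp; (try simp only [fb_eq]); (try ring)) (by repeat' (first | (with_reducible assumption) | (with_reducible apply sub_mem) | (with_reducible apply add_mem) | (with_reducible apply mul_mem) | (with_reducible apply pow_mem) | (with_reducible apply neg_mem) | exact one_mem _ | exact zero_mem _ | exact ofNat_mem _ _))
  · exact mem_of_eq (e := v k / s k)
      (by (field_simp <;> ring)) (by repeat' (first | (with_reducible assumption) | (with_reducible apply sub_mem) | (with_reducible apply add_mem) | (with_reducible apply mul_mem) | (with_reducible apply pow_mem) | (with_reducible apply neg_mem) | exact one_mem _ | exact zero_mem _ | exact ofNat_mem _ _))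

theorem good_Q_V : Good (chart k .Q) (chart k .V) := by
  have hs := s_ne k; have hy := y_ne k; have hv := v_ne k; have hfb := fb_ne k
  have hF := F_ne k; have hz1 := z1_ne k; have hz0 := z0_ne k; have hP0 := P0_ne k
  have hdd := dd_ne k
  have u_i_X : 1 / y k ∈ chart k .Q ⊔ chart k .V :=
    (le_sup_left : chart k .Q ≤ _) (Algebra.subset_adjoin (by simp [gens]))
  have u_i_Y : s k / y k ∈ chart k .Q ⊔ chart k .V :=
    (le_sup_left : chart k .Q ≤ _) (Algebra.subset_adjoin (by simp [gens]))
  have u_i_bp : z1 k / z0 k ∈ chart k .Q ⊔ chart k .V :=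
    (le_sup_left : chart k .Q ≤ _) (Algebra.subset_adjoin (by simp [gens]))
  have u_i_Fi : (y k ^ 3) / F k ∈ chart k .Q ⊔ chart k .V :=
    (le_sup_left : chart k .Q ≤ _) (Algebra.subset_adjoin (by simp [gens]))
  have u_j_y : y k ∈ chart k .Q ⊔ chart k .V :=
    (le_sup_right : chart k .V ≤ _) (Algebra.subset_adjoin (by simp [gens]))
  have u_j_v : v k ∈ chart k .Q ⊔ chart k .V :=
    (le_sup_right : chart k .V ≤ _) (Algebra.subset_adjoin (by simp [gens]))
  have u_j_sp : s k / v k ∈ chart k .Q ⊔ chart k .V :=
    (le_sup_right : chart k .V ≤ _) (Algebra.subset_adjoin (by simp [gens]))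
  have u_j_fp : fb k / v k ∈ chart k .Q ⊔ chart k .V :=
    (le_sup_right : chart k .V ≤ _) (Algebra.subset_adjoin (by simp [gens]))
  have u_sV : s k ∈ chart k .Q ⊔ chart k .V :=
    mem_of_eq (e := (v k) * (s k / v k))
      (by (field_simp <;> ring)) (by repeat' (first | (with_reducible assumption) | (with_reducible apply sub_mem) | (with_reducible apply add_mem) | (with_reducible apply mul_mem) | (with_reducible apply pow_mem) | (with_reducible apply neg_mem) | exact one_mem _ | exact zero_mem _ | exact ofNat_mem _ _))
  have u_E1 : F k / v k ∈ chart k .Q ⊔ chart k .V :=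
    mem_of_eq (e := (fb k / v k) - ((s k) * (s k / v k)))
      (by field_simp; (try simp only [F_eq]); (try ring)) (by repeat' (first | (with_reducible assumption) | (with_reducible apply sub_mem) | (with_reducible apply add_mem) | (with_reducible apply mul_mem) | (with_reducible apply pow_mem) | (with_reducible apply neg_mem) | exact one_mem _ | exact zero_mem _ | exact ofNat_mem _ _))
  refine good_via .W (good_Q_W k) (good_V_W k).symm ?_
  intro x hx
  simp only [gens, Set.mem_insert_iff, Set.mem_singleton_iff] at hx
  rcases hx with rfl | rfl | rfl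
  · exact mem_of_eq (e := s k)
      (by (field_simp <;> ring)) (by repeat' (first | (with_reducible assumption) | (with_reducible apply sub_mem) | (with_reducible apply add_mem) | (with_reducible apply mul_mem) | (with_reducible apply pow_mem) | (with_reducible apply neg_mem) | exact one_mem _ | exact zero_mem _ | exact ofNat_mem _ _))
  · exact mem_of_eq (e := y k)
      (by (field_simp <;> ring)) (by repeat' (first | (with_reducible assumption) | (with_reducible apply sub_mem) | (with_reducible apply add_mem) | (with_reducible apply mul_mem) | (with_reducible apply pow_mem) | (with_reducible apply neg_mem) | exact one_mem _ | exact zero_mem _ | exact ofNat_mem _ _))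
  · exact mem_of_eq (e := ((F k / v k) * ((1 / y k) ^ 3)) * ((y k ^ 3) / F k))
      (by (field_simp <;> ring)) (by repeat' (first | (with_reducible assumption) | (with_reducible apply sub_mem) | (with_reducible apply add_mem) | (with_reducible apply mul_mem) | (with_reducible apply pow_mem) | (with_reducible apply neg_mem) | exact one_mem _ | exact zero_mem _ | exact ofNat_mem _ _))

theorem good_Pa_Q : Good (chart k .Pa) (chart k .Q) := by
  have hs := s_ne k; have hy := y_ne k; have hv := v_ne k; have hfb := fb_ne k
  have hF := F_ne k; have hz1 := z1_ne k; have hz0 := z0_ne k; have hP0 := P0_ne k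
  have hdd := dd_ne k
  have u_i_X1 : 1 / s k ∈ chart k .Pa ⊔ chart k .Q :=
    (le_sup_left : chart k .Pa ≤ _) (Algebra.subset_adjoin (by simp [gens]))
  have u_i_Z : y k / s k ∈ chart k .Pa ⊔ chart k .Q :=
    (le_sup_left : chart k .Pa ≤ _) (Algebra.subset_adjoin (by simp [gens]))
  have u_i_v3 : z0 k / s k ∈ chart k .Pa ⊔ chart k .Q :=
    (le_sup_left : chart k .Pa ≤ _) (Algebra.subset_adjoin (by simp [gens]))
  have u_i_ui : (s k ^ 3) / dd k ∈ chart k .Pa ⊔ chart k .Q :=
    (le_sup_left : chart k .Pa ≤ _) (Algebra.subset_adjoin (by simp [gens]))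
  have u_j_X : 1 / y k ∈ chart k .Pa ⊔ chart k .Q :=
    (le_sup_right : chart k .Q ≤ _) (Algebra.subset_adjoin (by simp [gens]))
  have u_j_Y : s k / y k ∈ chart k .Pa ⊔ chart k .Q :=
    (le_sup_right : chart k .Q ≤ _) (Algebra.subset_adjoin (by simp [gens]))
  have u_j_bp : z1 k / z0 k ∈ chart k .Pa ⊔ chart k .Q :=
    (le_sup_right : chart k .Q ≤ _) (Algebra.subset_adjoin (by simp [gens]))
  have u_j_Fi : (y k ^ 3) / F k ∈ chart k .Pa ⊔ chart k .Q :=
    (le_sup_right : chart k .Q ≤ _) (Algebra.subset_adjoin (by simp [gens]))
  have u_G0 : F k / ((y k ^ 2) * z0 k) ∈ chart k .Pa ⊔ chart k .Q :=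
    mem_of_eq (e := ((1 / y k) * ((s k / y k) ^ 2)) - ((((1 / y k) ^ 2) - ((s k / y k) ^ 3)) * (z1 k / z0 k)))
      (by field_simp; (try simp only [z0_eq, z1_eq, F_eq, fb_eq]); (try ring)) (by repeat' (first | (with_reducible assumption) | (with_reducible apply sub_mem) | (with_reducible apply add_mem) | (with_reducible apply mul_mem) | (with_reducible apply pow_mem) | (with_reducible apply neg_mem) | exact one_mem _ | exact zero_mem _ | exact ofNat_mem _ _))
  refine good_via .Pb (good_Pa_Pb k) (good_Q_Pb k).symm ?_
  intro x hx
  simp only [gens, Set.mem_insert_iff, Set.mem_singleton_iff] at hx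
  rcases hx with rfl | rfl | rfl | rfl
  · exact mem_of_eq (e := 1 / s k)
      (by (field_simp <;> ring)) (by repeat' (first | (with_reducible assumption) | (with_reducible apply sub_mem) | (with_reducible apply add_mem) | (with_reducible apply mul_mem) | (with_reducible apply pow_mem) | (with_reducible apply neg_mem) | exact one_mem _ | exact zero_mem _ | exact ofNat_mem _ _))
  · exact mem_of_eq (e := y k / s k)
      (by (field_simp <;> ring)) (by repeat' (first | (with_reducible assumption) | (with_reducible apply sub_mem) | (with_reducible apply add_mem) | (with_reducible apply mul_mem) | (with_reducible apply pow_mem) | (with_reducible apply neg_mem) | exact one_mem _ | exact zero_mem _ | exact ofNat_mem _ _))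
  · exact mem_of_eq (e := ((s k / y k) * (F k / ((y k ^ 2) * z0 k))) * ((y k ^ 3) / F k))
      (by (field_simp <;> ring)) (by repeat' (first | (with_reducible assumption) | (with_reducible apply sub_mem) | (with_reducible apply add_mem) | (with_reducible apply mul_mem) | (with_reducible apply pow_mem) | (with_reducible apply neg_mem) | exact one_mem _ | exact zero_mem _ | exact ofNat_mem _ _))
  · exact mem_of_eq (e := (s k ^ 3) / dd k)
      (by (field_simp <;> ring)) (by repeat' (first | (with_reducible assumption) | (with_reducible apply sub_mem) | (with_reducible apply add_mem) | (with_reducible apply mul_mem) | (with_reducible apply pow_mem) | (with_reducible apply neg_mem) | exact one_mem _ | exact zero_mem _ | exact ofNat_mem _ _))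

end Helper50.D71
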