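import Pool.Agent.Helper50.D71.Tac

/-!
# Pairs of charts (generated)
-/

universe u

namespace Helper50.D71

variable (k : Type u) [Field k]

set_option maxHeartbeats 1000000

attribute [local irreducible] s y v fb F z1 z0 P0 dd

theorem good_S_V : Good (chart k .S) (chart k .V) := by
  have hs := s_ne k; have hy := y_ne k; have hv := v_ne k; have hfb := fb_ne k
  have hF := F_ne k; have hz1 := z1_ne k; have hz0 := z0_ne k; have hP0 := P0_ne k
  have hdd := dd_ne k
  have i_y : y k ∈ chart k .S := Algebra.subset_adjoin (by simp [gens])
  have i_s : s k ∈ chart k .S := Algebra.subset_adjoin (by simp [gens])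
  have i_ft : fb k / s k ∈ chart k .S := Algebra.subset_adjoin (by simp [gens])
  have i_vt : v k / s k ∈ chart k .S := Algebra.subset_adjoin (by simp [gens])
  have j_y : y k ∈ chart k .V := Algebra.subset_adjoin (by simp [gens])
  have j_v : v k ∈ chart k .V := Algebra.subset_adjoin (by simp [gens])
  have j_sp : s k / v k ∈ chart k .V := Algebra.subset_adjoin (by simp [gens])
  have j_fp : fb k / v k ∈ chart k .V := Algebra.subset_adjoin (by simp [gens])
  have i_f : v k / s k ∈ chart k .S :=
    mem_of_eq (e := v k / s k)
      (by (field_simp <;> ring)) (by repeat' (first | (with_reducible assumption) | (with_reducible apply sub_mem) | (with_reducible apply add_mem) | (with_reducible apply mul_mem) | (with_reducible apply pow_mem) | (with_reducible apply neg_mem) | exact one_mem _ | exact zero_mem _ | exact ofNat_mem _ _))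
  have j_g : s k / v k ∈ chart k .V :=
    mem_of_eq (e := s k / v k)
      (by (field_simp <;> ring)) (by repeat' (first | (with_reducible assumption) | (with_reducible apply sub_mem) | (with_reducible apply add_mem) | (with_reducible apply mul_mem) | (with_reducible apply pow_mem) | (with_reducible apply neg_mem) | exact one_mem _ | exact zero_mem _ | exact ofNat_mem _ _))
  have hi : chart k .S ≤ chart k .S ⊔ chart k .V := le_sup_left
  have hj : chart k .V ≤ chart k .S ⊔ chart k .V := le_sup_right
  have u_i_y := hi i_y
  have u_i_s := hi i_s
  have u_i_ft := hi i_ft
  have u_i_vt := hi i_vt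
  have u_j_y := hj j_y
  have u_j_v := hj j_v
  have u_j_sp := hj j_sp
  have u_j_fp := hj j_fp
  have ef : (v k / s k) * (s k / v k) = 1 := by (field_simp <;> ring)
  have eg : (s k / v k) * (v k / s k) = 1 := by (field_simp <;> ring)
  have u_fi : (v k / s k)⁻¹ ∈ chart k .S ⊔ chart k .V := by
    rw [(ne_inv_of_mul ef).2]; repeat' (first | (with_reducible assumption) | (with_reducible apply sub_mem) | (with_reducible apply add_mem) | (with_reducible apply mul_mem) | (with_reducible apply pow_mem) | (with_reducible apply neg_mem) | exact one_mem _ | exact zero_mem _ | exact ofNat_mem _ _)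
  have u_gi : (s k / v k)⁻¹ ∈ chart k .S ⊔ chart k .V := by
    rw [(ne_inv_of_mul eg).2]; repeat' (first | (with_reducible assumption) | (with_reducible apply sub_mem) | (with_reducible apply add_mem) | (with_reducible apply mul_mem) | (with_reducible apply pow_mem) | (with_reducible apply neg_mem) | exact one_mem _ | exact zero_mem _ | exact ofNat_mem _ _)
  refine good_chart (v k / s k) (s k / v k) i_f j_g
    (ne_inv_of_mul ef).1 (ne_inv_of_mul eg).1 u_fi u_gi ?_ ?_
  · have hle : chart k .S ≤ chart k .S ⊔ Algebra.adjoin k {(v k / s k)⁻¹} := le_sup_left
    have w_y := hle i_y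
    have w_s := hle i_s
    have w_ft := hle i_ft
    have w_vt := hle i_vt
    have w_inv : (v k / s k)⁻¹ ∈ chart k .S ⊔ Algebra.adjoin k {(v k / s k)⁻¹} := mem_adjoin_inv _
    intro x hx
    simp only [gens, Set.mem_insert_iff, Set.mem_singleton_iff] at hx
    rcases hx with rfl | rfl | rfl | rfl
    · exact mem_of_eq (e := y k)
        (by (field_simp <;> ring)) (by repeat' (first | (with_reducible assumption) | (with_reducible apply sub_mem) | (with_reducible apply add_mem) | (with_reducible apply mul_mem) | (with_reducible apply pow_mem) | (with_reducible apply neg_mem) | exact one_mem _ | exact zero_mem _ | exact ofNat_mem _ _))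
    · exact mem_of_eq (e := (s k) * (v k / s k))
        (by (field_simp <;> ring)) (by repeat' (first | (with_reducible assumption) | (with_reducible apply sub_mem) | (with_reducible apply add_mem) | (with_reducible apply mul_mem) | (with_reducible apply pow_mem) | (with_reducible apply neg_mem) | exact one_mem _ | exact zero_mem _ | exact ofNat_mem _ _))
    · exact mem_of_eq (e := (v k / s k)⁻¹)
        (by (field_simp <;> ring)) (by repeat' (first | (with_reducible assumption) | (with_reducible apply sub_mem) | (with_reducible apply add_mem) | (with_reducible apply mul_mem) | (with_reducible apply pow_mem) | (with_reducible apply neg_mem) | exact one_mem _ | exact zero_mem _ | exact ofNat_mem _ _))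
    · exact mem_of_eq (e := (fb k / s k) * (v k / s k)⁻¹)
        (by (field_simp <;> ring)) (by repeat' (first | (with_reducible assumption) | (with_reducible apply sub_mem) | (with_reducible apply add_mem) | (with_reducible apply mul_mem) | (with_reducible apply pow_mem) | (with_reducible apply neg_mem) | exact one_mem _ | exact zero_mem _ | exact ofNat_mem _ _))
  · have hle : chart k .V ≤ chart k .V ⊔ Algebra.adjoin k {(s k / v k)⁻¹} := le_sup_left
    have w_y := hle j_y
    have w_v := hle j_v
    have w_sp := hle j_sp
    have w_fp := hle j_fp
    have w_inv : (s k / v k)⁻¹ ∈ chart k .V ⊔ Algebra.adjoin k {(s k / v k)⁻¹} := mem_adjoin_inv _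
    intro x hx
    simp only [gens, Set.mem_insert_iff, Set.mem_singleton_iff] at hx
    rcases hx with rfl | rfl | rfl | rfl
    · exact mem_of_eq (e := y k)
        (by (field_simp <;> ring)) (by repeat' (first | (with_reducible assumption) | (with_reducible apply sub_mem) | (with_reducible apply add_mem) | (with_reducible apply mul_mem) | (with_reducible apply pow_mem) | (with_reducible apply neg_mem) | exact one_mem _ | exact zero_mem _ | exact ofNat_mem _ _))
    · exact mem_of_eq (e := (v k) * (s k / v k))
        (by (field_simp <;> ring)) (by repeat' (first | (with_reducible assumption) | (with_reducible apply sub_mem) | (with_reducible apply add_mem) | (with_reducible apply mul_mem) | (with_reducible apply pow_mem) | (with_reducible apply neg_mem) | exact one_mem _ | exact zero_mem _ | exact ofNat_mem _ _))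
    · exact mem_of_eq (e := (fb k / v k) * (s k / v k)⁻¹)
        (by (field_simp <;> ring)) (by repeat' (first | (with_reducible assumption) | (with_reducible apply sub_mem) | (with_reducible apply add_mem) | (with_reducible apply mul_mem) | (with_reducible apply pow_mem) | (with_reducible apply neg_mem) | exact one_mem _ | exact zero_mem _ | exact ofNat_mem _ _))
    · exact mem_of_eq (e := (s k / v k)⁻¹)
        (by (field_simp <;> ring)) (by repeat' (first | (with_reducible assumption) | (with_reducible apply sub_mem) | (with_reducible apply add_mem) | (with_reducible apply mul_mem) | (with_reducible apply pow_mem) | (with_reducible apply neg_mem) | exact one_mem _ | exact zero_mem _ | exact ofNat_mem _ _))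

theorem good_V_W : Good (chart k .V) (chart k .W) := by
  have hs := s_ne k; have hy := y_ne k; have hv := v_ne k; have hfb := fb_ne k
  have hF := F_ne k; have hz1 := z1_ne k; have hz0 := z0_ne k; have hP0 := P0_ne k
  have hdd := dd_ne k
  have i_y : y k ∈ chart k .V := Algebra.subset_adjoin (by simp [gens])
  have i_v : v k ∈ chart k .V := Algebra.subset_adjoin (by simp [gens])
  have i_sp : s k / v k ∈ chart k .V := Algebra.subset_adjoin (by simp [gens])
  have i_fp : fb k / v k ∈ chart k .V := Algebra.subset_adjoin (by simp [gens])
  have j_s : s k ∈ chart k .W := Algebra.subset_adjoin (by simp [gens])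
  have j_y : y k ∈ chart k .W := Algebra.subset_adjoin (by simp [gens])
  have j_w : 1 / v k ∈ chart k .W := Algebra.subset_adjoin (by simp [gens])
  have i_f : v k ∈ chart k .V :=
    mem_of_eq (e := v k)
      (by (field_simp <;> ring)) (by repeat' (first | (with_reducible assumption) | (with_reducible apply sub_mem) | (with_reducible apply add_mem) | (with_reducible apply mul_mem) | (with_reducible apply pow_mem) | (with_reducible apply neg_mem) | exact one_mem _ | exact zero_mem _ | exact ofNat_mem _ _))
  have j_g : 1 / v k ∈ chart k .W :=
    mem_of_eq (e := 1 / v k)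
      (by (field_simp <;> ring)) (by repeat' (first | (with_reducible assumption) | (with_reducible apply sub_mem) | (with_reducible apply add_mem) | (with_reducible apply mul_mem) | (with_reducible apply pow_mem) | (with_reducible apply neg_mem) | exact one_mem _ | exact zero_mem _ | exact ofNat_mem _ _))
  have hi : chart k .V ≤ chart k .V ⊔ chart k .W := le_sup_left
  have hj : chart k .W ≤ chart k .V ⊔ chart k .W := le_sup_right
  have u_i_y := hi i_y
  have u_i_v := hi i_v
  have u_i_sp := hi i_sp
  have u_i_fp := hi i_fp
  have u_j_s := hj j_s
  have u_j_y := hj j_y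
  have u_j_w := hj j_w
  have ef : (v k) * (1 / v k) = 1 := by (field_simp <;> ring)
  have eg : (1 / v k) * (v k) = 1 := by (field_simp <;> ring)
  have u_fi : (v k)⁻¹ ∈ chart k .V ⊔ chart k .W := by
    rw [(ne_inv_of_mul ef).2]; repeat' (first | (with_reducible assumption) | (with_reducible apply sub_mem) | (with_reducible apply add_mem) | (with_reducible apply mul_mem) | (with_reducible apply pow_mem) | (with_reducible apply neg_mem) | exact one_mem _ | exact zero_mem _ | exact ofNat_mem _ _)
  have u_gi : (1 / v k)⁻¹ ∈ chart k .V ⊔ chart k .W := by
    rw [(ne_inv_of_mul eg).2]; repeat' (first | (with_reducible assumption) | (with_reducible apply sub_mem) | (with_reducible apply add_mem) | (with_reducible apply mul_mem) | (with_reducible apply pow_mem) | (with_reducible apply neg_mem) | exact one_mem _ | exact zero_mem _ | exact ofNat_mem _ _)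
  refine good_chart (v k) (1 / v k) i_f j_g
    (ne_inv_of_mul ef).1 (ne_inv_of_mul eg).1 u_fi u_gi ?_ ?_
  · have hle : chart k .V ≤ chart k .V ⊔ Algebra.adjoin k {(v k)⁻¹} := le_sup_left
    have w_y := hle i_y
    have w_v := hle i_v
    have w_sp := hle i_sp
    have w_fp := hle i_fp
    have w_inv : (v k)⁻¹ ∈ chart k .V ⊔ Algebra.adjoin k {(v k)⁻¹} := mem_adjoin_inv _
    intro x hx
    simp only [gens, Set.mem_insert_iff, Set.mem_singleton_iff] at hx
    rcases hx with rfl | rfl | rfl
    · exact mem_of_eq (e := (v k) * (s k / v k))
        (by (field_simp <;> ring)) (by repeat' (first | (with_reducible assumption) | (with_reducible apply sub_mem) | (with_reducible apply add_mem) | (with_reducible apply mul_mem) | (with_reducible apply pow_mem) | (with_reducible apply neg_mem) | exact one_mem _ | exact zero_mem _ | exact ofNat_mem _ _))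
    · exact mem_of_eq (e := y k)
        (by (field_simp <;> ring)) (by repeat' (first | (with_reducible assumption) | (with_reducible apply sub_mem) | (with_reducible apply add_mem) | (with_reducible apply mul_mem) | (with_reducible apply pow_mem) | (with_reducible apply neg_mem) | exact one_mem _ | exact zero_mem _ | exact ofNat_mem _ _))
    · exact mem_of_eq (e := (v k)⁻¹)
        (by (field_simp <;> ring)) (by repeat' (first | (with_reducible assumption) | (with_reducible apply sub_mem) | (with_reducible apply add_mem) | (with_reducible apply mul_mem) | (with_reducible apply pow_mem) | (with_reducible apply neg_mem) | exact one_mem _ | exact zero_mem _ | exact ofNat_mem _ _))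
  · have hle : chart k .W ≤ chart k .W ⊔ Algebra.adjoin k {(1 / v k)⁻¹} := le_sup_left
    have w_s := hle j_s
    have w_y := hle j_y
    have w_w := hle j_w
    have w_inv : (1 / v k)⁻¹ ∈ chart k .W ⊔ Algebra.adjoin k {(1 / v k)⁻¹} := mem_adjoin_inv _
    intro x hx
    simp only [gens, Set.mem_insert_iff, Set.mem_singleton_iff] at hx
    rcases hx with rfl | rfl | rfl | rfl
    · exact mem_of_eq (e := y k)
        (by (field_simp <;> ring)) (by repeat' (first | (with_reducible assumption) | (with_reducible apply sub_mem) | (with_reducible apply add_mem) | (with_reducible apply mul_mem) | (with_reducible apply pow_mem) | (with_reducible apply neg_mem) | exact one_mem _ | exact zero_mem _ | exact ofNat_mem _ _))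
    · exact mem_of_eq (e := (1 / v k)⁻¹)
        (by (field_simp <;> ring)) (by repeat' (first | (with_reducible assumption) | (with_reducible apply sub_mem) | (with_reducible apply add_mem) | (with_reducible apply mul_mem) | (with_reducible apply pow_mem) | (with_reducible apply neg_mem) | exact one_mem _ | exact zero_mem _ | exact ofNat_mem _ _))
    · exact mem_of_eq (e := (s k) * (1 / v k))
        (by (field_simp <;> ring)) (by repeat' (first | (with_reducible assumption) | (with_reducible apply sub_mem) | (with_reducible apply add_mem) | (with_reducible apply mul_mem) | (with_reducible apply pow_mem) | (with_reducible apply neg_mem) | exact one_mem _ | exact zero_mem _ | exact ofNat_mem _ _))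
    · exact mem_of_eq (e := (((y k) ^ 3) - 1) * (1 / v k))
        (by field_simp; (try simp only [fb_eq]); (try ring)) (by repeat' (first | (with_reducible assumption) | (with_reducible apply sub_mem) | (with_reducible apply add_mem) | (with_reducible apply mul_mem) | (with_reducible apply pow_mem) | (with_reducible apply neg_mem) | exact one_mem _ | exact zero_mem _ | exact ofNat_mem _ _))

end Helper50.D71
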