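import Pool.Agent.Helper50.D71.Fam

/-!
# Local rings of `k[t₀,t₁,t₂]` inside `K` and the special points
-/

open AlgebraicGeometry CategoryTheory MvPolynomial

universe u

namespace Helper50.D71

section LocRing

variable {k : Type u} [Field k] {K : Type u} [Field K] [Algebra k K]

/-- the local subring `{P(t)/G(t) : G ∉ 𝔭}` of `K` -/
def OO (t : Fin 3 → K) (𝔭 : Ideal (MvPolynomial (Fin 3) k)) [h𝔭 : 𝔭.IsPrime] :
    Subalgebra k K where
  carrier := {x | ∃ P G, G ∉ 𝔭 ∧ x * aeval t G = aeval t P}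
  mul_mem' := by
    rintro x x' ⟨P, G, hG, h⟩ ⟨P', G', hG', h'⟩
    refine ⟨P * P', G * G', fun hh => (h𝔭.mem_or_mem hh).elim hG hG', ?_⟩
    rw [map_mul, map_mul, ← h, ← h']
    ring
  add_mem' := by
    rintro x x' ⟨P, G, hG, h⟩ ⟨P', G', hG', h'⟩
    refine ⟨P * G' + P' * G, G * G', fun hh => (h𝔭.mem_or_mem hh).elim hG hG', ?_⟩
    rw [map_add, map_mul, map_mul, map_mul, ← h, ← h']
    ring
  algebraMap_mem' := fun r =>
    ⟨C r, 1, fun h => h𝔭.ne_top ((Ideal.eq_top_iff_one _).mpr h), by simp⟩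

variable {t : Fin 3 → K} {𝔭 : Ideal (MvPolynomial (Fin 3) k)} [h𝔭 : 𝔭.IsPrime]

lemma mem_OO {x : K} : x ∈ OO t 𝔭 ↔
    ∃ P G : MvPolynomial (Fin 3) k, G ∉ 𝔭 ∧ x * aeval t G = aeval t P := Iff.rfl

lemma one_notMem : (1 : MvPolynomial (Fin 3) k) ∉ 𝔭 :=
  fun h => h𝔭.ne_top ((Ideal.eq_top_iff_one _).mpr h)

lemma aeval_mem_OO (P : MvPolynomial (Fin 3) k) : (aeval t P : K) ∈ OO t 𝔭 :=
  ⟨P, 1, one_notMem, by simp⟩

lemma div_mem_OO {P G : MvPolynomial (Fin 3) k} (hG : G ∉ 𝔭) (h0 : (aeval t G : K) ≠ 0) :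
    (aeval t P : K) / aeval t G ∈ OO t 𝔭 :=
  ⟨P, G, hG, by field_simp⟩

/-- the coordinates `t` are algebraically independent -/
def Inj (k : Type u) [Field k] {K : Type u} [Field K] [Algebra k K] (t : Fin 3 → K) : Prop :=
  Function.Injective (aeval t : MvPolynomial (Fin 3) k → K)

/-- `φ = P(t)/G(t)` -/
def Quo {k : Type u} [Field k] {K : Type u} [Field K] [Algebra k K] (t : Fin 3 → K) (φ : K)
    (P G : MvPolynomial (Fin 3) k) : Prop :=
  φ * aeval t G = aeval t P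

/-- membership in the maximal ideal does not depend on the representation. -/
lemma repr_unique (hinj : Inj k t) {x : K}
    {P G P' G' : MvPolynomial (Fin 3) k} (hG : G ∉ 𝔭)
    (h : x * aeval t G = aeval t P) (h' : x * aeval t G' = aeval t P') (hP : P ∈ 𝔭) : P' ∈ 𝔭 := by
  have e : P' * G = P * G' := by
    apply hinj
    rw [map_mul, map_mul, ← h, ← h']
    ring
  have : P' * G ∈ 𝔭 := by
    rw [e]
    exact Ideal.mul_mem_right _ _ hP
  exact (h𝔭.mem_or_mem this).resolve_right hG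

/-- the point of `Spec A` defined by `𝔭`, for `A` contained in the local ring of `𝔭`. -/
def locPt (hinj : Inj k t)
    (A : Subalgebra k K) (hA : A ≤ OO t 𝔭) : PrimeSpectrum A where
  asIdeal :=
    { carrier := {x | ∃ P G, G ∉ 𝔭 ∧ P ∈ 𝔭 ∧ (x : K) * aeval t G = aeval t P}
      zero_mem' := ⟨0, 1, one_notMem, zero_mem _, by simp⟩
      add_mem' := by
        rintro x x' ⟨P, G, hG, hP, h⟩ ⟨P', G', hG', hP', h'⟩
        refine ⟨P * G' + P' * G, G * G', fun hh => (h𝔭.mem_or_mem hh).elim hG hG',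
          add_mem (Ideal.mul_mem_right _ _ hP) (Ideal.mul_mem_right _ _ hP'), ?_⟩
        rw [map_add, map_mul, map_mul, map_mul, ← h, ← h']
        push_cast
        ring
      smul_mem' := by
        rintro a x ⟨P, G, hG, hP, h⟩
        obtain ⟨P', G', hG', h'⟩ := hA a.2
        refine ⟨P' * P, G' * G, fun hh => (h𝔭.mem_or_mem hh).elim hG' hG,
          Ideal.mul_mem_left _ _ hP, ?_⟩
        rw [map_mul, map_mul, ← h, ← h']
        simp only [smul_eq_mul]
        push_cast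
        ring }
  isPrime :=
    { ne_top' := by
        rw [Ne, Ideal.eq_top_iff_one]
        rintro ⟨P, G, hG, hP, h⟩
        apply hG
        have : G = P := hinj (by simpa using h)
        rwa [this]
      mem_or_mem' := by
        rintro x x' ⟨P, G, hG, hP, h⟩
        obtain ⟨P₁, G₁, hG₁, h₁⟩ := hA x.2
        obtain ⟨P₂, G₂, hG₂, h₂⟩ := hA x'.2
        have h3 : (x : K) * x' * aeval t (G₁ * G₂) = aeval t (P₁ * P₂) := by
          rw [map_mul, map_mul, ← h₁, ← h₂]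
          ring
        have h4 : P₁ * P₂ ∈ 𝔭 := repr_unique hinj hG (by simpa using h) h3 hP
        rcases h𝔭.mem_or_mem h4 with h5 | h5
        · exact Or.inl ⟨P₁, G₁, hG₁, h5, h₁⟩
        · exact Or.inr ⟨P₂, G₂, hG₂, h5, h₂⟩ }

lemma mem_locPt {hinj : Inj k t}
    {A : Subalgebra k K} {hA : A ≤ OO t 𝔭} {x : A} :
    x ∈ (locPt hinj A hA).asIdeal ↔
      ∃ P G, G ∉ 𝔭 ∧ P ∈ 𝔭 ∧ (x : K) * aeval t G = aeval t P := Iff.rfl

lemma mem_locPt_iff {hinj : Inj k t}
    {A : Subalgebra k K} {hA : A ≤ OO t 𝔭} {x : A} {P G : MvPolynomial (Fin 3) k} (hG : G ∉ 𝔭)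
    (h : (x : K) * aeval t G = aeval t P) :
    x ∈ (locPt hinj A hA).asIdeal ↔ P ∈ 𝔭 := by
  constructor
  · rintro ⟨P', G', hG', hP', h'⟩
    exact repr_unique hinj hG' h' h hP'
  · intro hP
    exact ⟨P, G, hG, hP, h⟩

/-- reading a fraction of elements of `A` as a fraction of polynomials. -/
lemma exists_quot {hinj : Inj k t}
    {A : Subalgebra k K} {hA : A ≤ OO t 𝔭} {φ : K} {a b : A}
    (hb : b ∉ (locPt hinj A hA).asIdeal) (h : φ * b = a) :
    ∃ P G, φ * aeval t G = aeval t P ∧ G ∉ 𝔭 ∧ (a ∈ (locPt hinj A hA).asIdeal ↔ P ∈ 𝔭) := by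
  obtain ⟨Pa, Ga, hGa, ha⟩ := hA a.2
  obtain ⟨Pb, Gb, hGb, hb'⟩ := hA b.2
  have hPb : Pb ∉ 𝔭 := fun hh => hb ((mem_locPt_iff hGb hb').mpr hh)
  refine ⟨Pa * Gb, Pb * Ga, ?_, fun hh => (h𝔭.mem_or_mem hh).elim hPb hGa, ?_⟩
  · rw [map_mul, map_mul, ← ha, ← hb', ← h]
    ring
  · rw [mem_locPt_iff hGa ha]
    exact ⟨fun h => Ideal.mul_mem_right _ _ h, fun h => (h𝔭.mem_or_mem h).resolve_right hGb⟩

end LocRing

attribute [irreducible] locPt

section Spz

variable {k : Type u} [Field k] {K : Type u} [Field K] [Algebra k K] {ι : Type}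
  {A : ι → Subalgebra k K} {X : Scheme.{u}} {f : X ⟶ Spec (.of k)}
  {c : ∀ i, Spec (.of (A i)) ⟶ X}

lemma IsModel.specializes_of_le (i : ι) {p q : PrimeSpectrum (A i)} (h : p ≤ q) :
    c i p ⤳ c i q :=
  Specializes.map (f := (c i : Spec (.of (A i)) → X)) ((PrimeSpectrum.le_iff_specializes p q).mp h)
    (c i).continuous

lemma IsModel.le_of_specializes (hM : IsModel A X f c) (i : ι) {p q : PrimeSpectrum (A i)}
    (h : c i p ⤳ c i q) : p ≤ q := by
  have := hM.isOpenImmersion i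
  exact (PrimeSpectrum.le_iff_specializes p q).mpr
    (((c i).isOpenEmbedding.isInducing.specializes_iff).mp h)

end Spz

end Helper50.D71
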