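import Pool.Agent.Helper50.D71.Pts

/-!
# Which algebras are contained in which local rings
-/

open AlgebraicGeometry CategoryTheory MvPolynomial

universe u

namespace Helper50.D71

section

variable (k : Type u) [Field k]

lemma aeval_tW_z1p : aeval (tW k) (z1p k) = z1 k := by
  simp [tW, z1p, Fp, z1, F, fb]
lemma aeval_tW_Fp : aeval (tW k) (Fp k) = F k := by
  simp [tW, Fp, F, fb]
lemma aeval_tW_z0p : aeval (tW k) (z0p k) = z0 k := by
  rw [z0p, map_sub, map_neg, map_mul, aeval_tW_z1p]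
  simp [tW, z0]
lemma aeval_tW_P0p : aeval (tW k) (P0p k) = P0 k := by
  rw [P0p, map_add, map_mul, aeval_tW_z0p]
  simp [tW, P0]
lemma aeval_tW_Yrp : aeval (tW k) (Yrp k) = Yr k := by
  rw [Yrp, map_sub, map_mul, map_pow, map_pow, aeval_tW_z1p]
  simp [tW, Yr]
lemma aeval_tW_kapp (ω : k) : aeval (tW k) (kapp k ω) = kap k ω := by
  simp only [kapp, map_add, map_mul, map_pow, aeval_tW_z1p, aeval_tW_z0p, aeval_X, aeval_C]
  simp [tW, kap]
lemma aeval_tW_X0 : aeval (tW k) (X 0 : MvPolynomial (Fin 3) k) = s k := by simp [tW]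
lemma aeval_tW_X1 : aeval (tW k) (X 1 : MvPolynomial (Fin 3) k) = y k := by simp [tW]
lemma aeval_tW_X2 : aeval (tW k) (X 2 : MvPolynomial (Fin 3) k) = v k := by simp [tW]
lemma aeval_tW_fb : aeval (tW k) (X 1 ^ 3 - 1 : MvPolynomial (Fin 3) k) = fb k := by
  simp [tW, fb]

variable {k}

/-- division in the local ring -/
lemma mem_OO_of_eq_div {t : Fin 3 → KK k} {𝔭 : Ideal (MvPolynomial (Fin 3) k)} [h𝔭 : 𝔭.IsPrime]
    {x : KK k} (P G : MvPolynomial (Fin 3) k) (hG : G ∉ 𝔭) (h0 : aeval t G ≠ 0)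
    (hx : x = aeval t P / aeval t G) : x ∈ OO t 𝔭 := by
  rw [hx]
  exact div_mem_OO hG h0

lemma notMem_mul {𝔭 : Ideal (MvPolynomial (Fin 3) k)} [h𝔭 : 𝔭.IsPrime]
    {P G : MvPolynomial (Fin 3) k} (hP : P ∉ 𝔭) (hG : G ∉ 𝔭) : P * G ∉ 𝔭 :=
  fun hh => (h𝔭.mem_or_mem hh).elim hP hG

lemma notMem_pow {𝔭 : Ideal (MvPolynomial (Fin 3) k)} [h𝔭 : 𝔭.IsPrime]
    {P : MvPolynomial (Fin 3) k} (hP : P ∉ 𝔭) (n : ℕ) : P ^ n ∉ 𝔭 :=
  fun hh => hP (h𝔭.mem_of_pow_mem _ hh)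

/-- chart `S` -/
lemma chartS_le_OO (𝔭 : Ideal (MvPolynomial (Fin 3) k)) [h𝔭 : 𝔭.IsPrime]
    (h0 : (X 0 : MvPolynomial (Fin 3) k) ∉ 𝔭) : chart k .S ≤ OO (tW k) 𝔭 := by
  have hs := s_ne k
  rw [chart, Algebra.adjoin_le_iff]
  intro x hx
  simp only [gens, Set.mem_insert_iff, Set.mem_singleton_iff] at hx
  rcases hx with rfl | rfl | rfl | rfl
  · rw [← aeval_tW_X1]; exact aeval_mem_OO _
  · rw [← aeval_tW_X0]; exact aeval_mem_OO _
  · refine mem_OO_of_eq_div (X 1 ^ 3 - 1) (X 0) h0 ?_ ?_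
    · rwa [aeval_tW_X0]
    · rw [aeval_tW_X0, aeval_tW_fb]
  · refine mem_OO_of_eq_div (X 2) (X 0) h0 ?_ ?_
    · rwa [aeval_tW_X0]
    · rw [aeval_tW_X0, aeval_tW_X2]

/-- `A_r` -/
lemma Ar_le_OO (𝔭 : Ideal (MvPolynomial (Fin 3) k)) [h𝔭 : 𝔭.IsPrime]
    (h2 : (X 2 : MvPolynomial (Fin 3) k) ∉ 𝔭) (hY : Yrp k ∉ 𝔭) : Ar k ≤ OO (tW k) 𝔭 := by
  have hv := v_ne k
  have hY0 : aeval (tW k) (Yrp k) ≠ 0 := by
    intro h
    have : Yrp k = 0 := aeval_tW_injective (by rw [h, map_zero])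
    exact hY (this ▸ zero_mem _)
  rw [Ar, chart, sup_le_iff, Algebra.adjoin_le_iff, Algebra.adjoin_le_iff]
  constructor
  · intro x hx
    simp only [gens, Set.mem_insert_iff, Set.mem_singleton_iff] at hx
    rcases hx with rfl | rfl | rfl
    · rw [← aeval_tW_X0]; exact aeval_mem_OO _
    · rw [← aeval_tW_X1]; exact aeval_mem_OO _
    · refine mem_OO_of_eq_div 1 (X 2) h2 ?_ ?_
      · rwa [aeval_tW_X2]
      · rw [aeval_tW_X2, map_one]
  · rintro x rfl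
    refine mem_OO_of_eq_div (X 2 ^ 4) (Yrp k) hY hY0 ?_
    rw [aeval_tW_Yrp, map_pow, aeval_tW_X2]

/-- `A_x`, at primes of `k[s,y,v]` -/
lemma Ax_le_OO_W (w : k) (hw : w ^ 2 + w + 1 = 0) (𝔭 : Ideal (MvPolynomial (Fin 3) k))
    [h𝔭 : 𝔭.IsPrime]
    (h0 : (X 0 : MvPolynomial (Fin 3) k) ∉ 𝔭) (hfb : (X 1 ^ 3 - 1 : MvPolynomial (Fin 3) k) ∉ 𝔭)
    (hF : Fp k ∉ 𝔭) (hz : z1p k ∉ 𝔭) (hP : P0p k ∉ 𝔭) (hk : ∀ ω : k, ω ^ 3 = 1 → kapp k ω ∉ 𝔭) :
    Ax k w ≤ OO (tW k) 𝔭 := by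
  have hs := s_ne k
  have hfb' := fb_ne k
  have hF' := F_ne k
  have hz' := z1_ne k
  have hP' := P0_ne k
  have hw3 : w ^ 3 = 1 := by
    have : w ^ 3 - 1 = (w - 1) * (w ^ 2 + w + 1) := by ring
    rw [hw, mul_zero] at this
    exact sub_eq_zero.mp this
  have hK : kapp k 1 * kapp k w * kapp k (w ^ 2) ∉ 𝔭 :=
    notMem_mul (notMem_mul (hk 1 (one_pow 3)) (hk w hw3))
      (hk (w ^ 2) (by rw [← pow_mul, mul_comm, pow_mul, hw3, one_pow]))
  have hK0 : aeval (tW k) (kapp k 1 * kapp k w * kapp k (w ^ 2)) ≠ 0 := by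
    intro h
    have : kapp k 1 * kapp k w * kapp k (w ^ 2) = 0 :=
      aeval_tW_injective (by rw [h, map_zero])
    exact hK (this ▸ zero_mem _)
  rw [Ax, chart, sup_le_iff, Algebra.adjoin_le_iff, Algebra.adjoin_le_iff]
  constructor
  · intro x hx
    simp only [gens, Set.mem_insert_iff, Set.mem_singleton_iff] at hx
    rcases hx with rfl | rfl | rfl | rfl
    · refine mem_OO_of_eq_div (X 1 * X 0 * z1p k) (P0p k) hP ?_ ?_
      · rwa [aeval_tW_P0p]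
      · rw [map_mul, map_mul, aeval_tW_X1, aeval_tW_X0, aeval_tW_z1p, aeval_tW_P0p]
    · refine mem_OO_of_eq_div (X 0 * z1p k) (P0p k) hP ?_ ?_
      · rwa [aeval_tW_P0p]
      · rw [map_mul, aeval_tW_X0, aeval_tW_z1p, aeval_tW_P0p]
    · refine mem_OO_of_eq_div (P0p k ^ 2) (X 0 * (X 1 ^ 3 - 1) * z1p k ^ 2)
        (notMem_mul (notMem_mul h0 hfb) (notMem_pow hz 2)) ?_ ?_
      · rw [map_mul, map_mul, map_pow, aeval_tW_X0, aeval_tW_fb, aeval_tW_z1p]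
        positivity
      · rw [map_mul, map_mul, map_pow, map_pow, aeval_tW_X0, aeval_tW_fb, aeval_tW_z1p,
          aeval_tW_P0p]
    · refine mem_OO_of_eq_div (X 1 ^ 3 - 1) (Fp k) hF ?_ ?_
      · rwa [aeval_tW_Fp]
      · rw [aeval_tW_fb, aeval_tW_Fp]
  · rintro x rfl
    refine mem_OO_of_eq_div (z1p k ^ 9) (kapp k 1 * kapp k w * kapp k (w ^ 2)) hK hK0 ?_
    rw [map_mul, map_mul, map_pow, aeval_tW_z1p, aeval_tW_kapp, aeval_tW_kapp, aeval_tW_kapp,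
      kapProd]

/-- `A_x`, at primes of `k[B₁,B₂,B₃]` contained in the ideal of the origin -/
lemma Ax_le_OO_B (w : k) (hw : w ^ 2 + w + 1 = 0) (𝔭 : Ideal (MvPolynomial (Fin 3) k))
    [h𝔭 : 𝔭.IsPrime] (h : ∀ G ∈ 𝔭, constantCoeff G = 0) : Ax k w ≤ OO (tB k) 𝔭 := by
  have hs := s_ne k
  have hfb' := fb_ne k
  have hF' := F_ne k
  have hz' := z1_ne k
  have hP' := P0_ne k
  have h' : ∀ G : MvPolynomial (Fin 3) k, constantCoeff G ≠ 0 → G ∉ 𝔭 := fun G hG hG' =>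
    hG (h G hG')
  have hne : ∀ G : MvPolynomial (Fin 3) k, constantCoeff G ≠ 0 → aeval (tB k) G ≠ 0 := by
    intro G hG h0
    have : G = 0 := aeval_tB_injective (by rw [h0, map_zero])
    rw [this, map_zero] at hG
    exact hG rfl
  have hX : ∀ i, tB k i ∈ OO (tB k) 𝔭 := by
    intro i
    have : aeval (tB k) (X i : MvPolynomial (Fin 3) k) ∈ OO (tB k) 𝔭 := aeval_mem_OO _
    rwa [aeval_X] at this
  rw [Ax, chart, sup_le_iff, Algebra.adjoin_le_iff, Algebra.adjoin_le_iff]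
  constructor
  · intro x hx
    simp only [gens, Set.mem_insert_iff, Set.mem_singleton_iff] at hx
    rcases hx with rfl | rfl | rfl | rfl
    · exact hX 0
    · exact hX 1
    · exact hX 2
    · have hc : constantCoeff (1 - X 2 ^ 2 * X 1 * (X 0 ^ 3 - X 1 ^ 3) :
          MvPolynomial (Fin 3) k) ≠ 0 := by simp
      refine mem_OO_of_eq_div 1 (1 - X 2 ^ 2 * X 1 * (X 0 ^ 3 - X 1 ^ 3)) (h' _ hc) (hne _ hc) ?_
      rw [map_one]
      simp only [map_sub, map_one, map_mul, map_pow, aeval_X]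
      have e : (1 : KK k) - tB k 2 ^ 2 * tB k 1 * (tB k 0 ^ 3 - tB k 1 ^ 3) = F k / fb k := by
        simp only [tB, Matrix.cons_val_zero, Matrix.cons_val_one, Matrix.cons_val]
        have e1 : fb k = y k ^ 3 - 1 := rfl
        have e2 : F k = fb k - s k ^ 2 := rfl
        field_simp
        rw [e2, e1]
        ring
      rw [e]
      field_simp
  · rintro x rfl
    obtain ⟨P, G, hq, hP0, hG0⟩ := kapProd_quot k w hw
    refine mem_OO_of_eq_div G P (h' _ hP0) (hne _ hP0) ?_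
    have h1 := hne _ hP0
    have h2 := hne _ hG0
    rw [IsQuot] at hq
    have h3 : kapProd k w / z1 k ^ 9 = aeval (tB k) P / aeval (tB k) G := by
      rw [← hq]; field_simp
    rw [← inv_div (kapProd k w), h3, inv_div]

end

end Helper50.D71
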