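import Pool.Agent.Helper50.D71.NZ

/-!
# Defining equations
-/

universe u

namespace Helper50.D71

variable (k : Type u) [Field k]

lemma fb_eq : fb k = y k ^ 3 - 1 := rfl
lemma F_eq : F k = fb k - s k ^ 2 := rfl
lemma z1_eq : z1 k = -(s k ^ 2 * v k + F k) := rfl
lemma z0_eq : z0 k = -(s k * z1 k) - y k * v k := rfl
lemma P0_eq : P0 k = v k + y k ^ 2 * z0 k := rfl
lemma dd_eq : dd k = s k ^ 3 - y k := rfl

end Helper50.D71
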